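import Pool.Agent.Run7.h411.Cft6
import Pool.Agent.Run7.h457.MT.Iface

/-!
# Class field theory, part 7: the statement `CFT K ℓ` of the project MT457
-/

set_option autoImplicit false

namespace Run7.h411.Cft

open NumberField Pool.Agent.W401.Cheb

/-- **`CFT K ℓ` holds** for every number field `K` and every prime number `ℓ`. -/
theorem cft (K : Type) [Field K] [NumberField K] (ℓ : ℕ) [Fact ℓ.Prime] :
    Run7.h457.MT.CFT K ℓ := by
  intro U hU f hf hadd hI
  obtain ⟨i, hi⟩ := IsAlgClosed.exists_pow_nat_eq (-1 : AlgebraicClosure K) (n := 2) (by norm_num)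
  exact main_open i hi U hU f hf hadd (fun Q hQ hlQ => hI Q hQ hlQ)

end Run7.h411.Cft
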