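import Mathlib

/-!
# Class field theory, part 1: an automorphism of order `ℓ ^ n` of a finitely generated abelian group

Lower bound for the index of `(T - 1) A` in the kernel of the norm, for an automorphism `T` of a
finitely generated abelian group `A` such that the fixed points of `T ^ (ℓ ^ j)` have the rank
`ℓ ^ j r - 1`.
-/

set_option autoImplicit false

namespace Run7.h411.Cft

open Polynomial Module

/-- `(X - 1) ^ φ` agrees with the cyclotomic polynomial modulo `ℓ`. -/
theorem cyc_mod (ℓ : ℕ) [hl : Fact ℓ.Prime] (j : ℕ) : ∃ g : ℤ[X],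
    (X - 1 : ℤ[X]) ^ (Nat.totient (ℓ ^ (j + 1))) = cyclotomic (ℓ ^ (j + 1)) ℤ + C (ℓ : ℤ) * g := by
  have h : (C (ℓ : ℤ)) ∣ ((X - 1 : ℤ[X]) ^ (Nat.totient (ℓ ^ (j + 1))) -
      cyclotomic (ℓ ^ (j + 1)) ℤ) := by
    rw [Polynomial.C_dvd_iff_dvd_coeff]
    intro i
    have h1 : Polynomial.map (Int.castRingHom (ZMod ℓ))
        ((X - 1 : ℤ[X]) ^ (Nat.totient (ℓ ^ (j + 1))) - cyclotomic (ℓ ^ (j + 1)) ℤ) = 0 := by
      rw [Polynomial.map_sub, Polynomial.map_pow, map_cyclotomic]
      have h2 : cyclotomic (ℓ ^ (j + 1)) (ZMod ℓ) =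
          (cyclotomic 1 (ZMod ℓ)) ^ (ℓ ^ (j + 1) - ℓ ^ j) := by
        have := cyclotomic_mul_prime_pow_eq (ZMod ℓ) (p := ℓ) (m := 1)
          (by rw [Nat.dvd_one]; exact hl.out.ne_one) (k := j + 1) (Nat.succ_pos j)
        rw [mul_one] at this
        exact this
      rw [h2, cyclotomic_one, Nat.totient_prime_pow_succ hl.out]
      have h3 : ℓ ^ (j + 1) - ℓ ^ j = ℓ ^ j * (ℓ - 1) := by
        rw [pow_succ, Nat.mul_sub, mul_one]
      rw [h3]
      simp
    have h4 := congrArg (fun q : (ZMod ℓ)[X] => q.coeff i) h1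
    simp only [Polynomial.coeff_map, Polynomial.coeff_zero, eq_intCast] at h4
    exact (ZMod.intCast_zmod_eq_zero_iff_dvd _ _).1 h4
  obtain ⟨g, hg⟩ := h
  exact ⟨g, by rw [← hg]; ring⟩

theorem core1 (ℓ : ℕ) [hl : Fact ℓ.Prime] {P : Type*} [AddCommGroup P] [Module.Free ℤ P]
    [Module.Finite ℤ P] (T : Module.End ℤ P) (j r : ℕ)
    (hT : aeval T (cyclotomic (ℓ ^ (j + 1)) ℤ) = 0)
    (hr : finrank ℤ P = r * Nat.totient (ℓ ^ (j + 1))) : (ℓ : ℤ) ^ r ∣ LinearMap.det (T - 1) := by
  obtain ⟨g, hg⟩ := cyc_mod ℓ j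
  have h1 : (T - 1) ^ (Nat.totient (ℓ ^ (j + 1))) = (ℓ : ℤ) • aeval T g := by
    have := congrArg (aeval T) hg
    rw [map_add, hT, zero_add, map_mul, map_pow, map_sub, aeval_X, map_one, aeval_C] at this
    rw [this, Algebra.smul_def]
  have h2 : (LinearMap.det (T - 1)) ^ (Nat.totient (ℓ ^ (j + 1))) =
      (ℓ : ℤ) ^ (finrank ℤ P) * LinearMap.det (aeval T g) := by
    rw [← map_pow, h1, LinearMap.det_smul]
  have h3 : ((ℓ : ℤ) ^ r) ^ (Nat.totient (ℓ ^ (j + 1))) ∣
      (LinearMap.det (T - 1)) ^ (Nat.totient (ℓ ^ (j + 1))) := by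
    rw [h2, ← pow_mul, ← hr]
    exact dvd_mul_right _ _
  exact (Int.pow_dvd_pow_iff (Nat.totient_pos.2 (pow_pos hl.out.pos _)).ne').1 h3

/-- powers of a restriction -/
theorem restrict_pow_apply {P : Type*} [AddCommGroup P] (T : Module.End ℤ P) (W : Submodule ℤ P)
    (h : ∀ x ∈ W, T x ∈ W) (k : ℕ) (x : W) : (((T.restrict h) ^ k) x : P) = (T ^ k) (x : P) := by
  induction k generalizing x with
  | zero => rfl
  | succ k ih =>
    rw [pow_succ, pow_succ, Module.End.mul_apply, Module.End.mul_apply, ih]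
    rfl

/-- powers of a map on a quotient -/
theorem mapQ_pow_apply {P : Type*} [AddCommGroup P] (T : Module.End ℤ P) (W : Submodule ℤ P)
    (h : W ≤ W.comap T) (k : ℕ) (x : P) :
    ((W.mapQ W T h) ^ k) (W.mkQ x) = W.mkQ ((T ^ k) x) := by
  induction k generalizing x with
  | zero => rfl
  | succ k ih =>
    rw [pow_succ, pow_succ, Module.End.mul_apply, Module.End.mul_apply, ← ih]
    rfl

theorem mapQ_aeval_apply {P : Type*} [AddCommGroup P] (T : Module.End ℤ P) (W : Submodule ℤ P)
    (h : W ≤ W.comap T) (q : ℤ[X]) (x : P) :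
    (aeval (W.mapQ W T h) q) (W.mkQ x) = W.mkQ ((aeval T q) x) := by
  induction q using Polynomial.induction_on' with
  | add p q hp hq =>
    rw [map_add, map_add, LinearMap.add_apply, LinearMap.add_apply, map_add, hp, hq]
  | monomial k a =>
    rw [aeval_monomial, aeval_monomial, Module.End.mul_apply, Module.End.mul_apply,
      mapQ_pow_apply, Module.algebraMap_end_apply, Module.algebraMap_end_apply, map_smul]

theorem torsionFree_quot {P : Type*} [AddCommGroup P] (W : Submodule ℤ P)
    (h : ∀ (k : ℤ) (x : P), k ≠ 0 → k • x ∈ W → x ∈ W) : Module.IsTorsionFree ℤ (P ⧸ W) := by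
  rw [Module.isTorsionFree_iff_smul_eq_zero]
  intro k x hx
  by_cases hk : k = 0
  · exact Or.inl hk
  · right
    obtain ⟨y, rfl⟩ := W.mkQ_surjective x
    rw [← map_smul, Submodule.mkQ_apply, Submodule.Quotient.mk_eq_zero] at hx
    rw [Submodule.mkQ_apply, Submodule.Quotient.mk_eq_zero]
    exact h k y hk hx

theorem core2 (ℓ : ℕ) [hl : Fact ℓ.Prime] (r : ℕ) (c : ℤ) (n : ℕ) :
    ∀ (P : Type) [AddCommGroup P] [Module.Free ℤ P] [Module.Finite ℤ P] (T : Module.End ℤ P),
    T ^ (ℓ ^ n) = 1 →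
    (∀ j ≤ n, (finrank ℤ (LinearMap.ker (T ^ (ℓ ^ j) - 1)) : ℤ) = c + (ℓ : ℤ) ^ j * r) →
    (ℓ : ℤ) ^ (n * r) ∣ LinearMap.det (T - 1) := by
  induction n with
  | zero => intro P _ _ _ T _ _; simp
  | succ n ih =>
    intro P _ _ _ T hT hr
    set W : Submodule ℤ P := LinearMap.ker (T ^ (ℓ ^ n) - 1) with hW
    have hWT : W ≤ W.comap T := by
      intro x hx
      rw [Submodule.mem_comap, hW, LinearMap.mem_ker]
      rw [hW, LinearMap.mem_ker] at hx
      have : (T ^ (ℓ ^ n) - 1) (T x) = T ((T ^ (ℓ ^ n) - 1) x) := by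
        have h : (T ^ (ℓ ^ n) - 1) * T = T * (T ^ (ℓ ^ n) - 1) := by
          rw [sub_mul, mul_sub, one_mul, mul_one, ← pow_succ, ← pow_succ']
        exact LinearMap.congr_fun h x
      rw [this, hx, map_zero]
    have hWT' : ∀ x ∈ W, T x ∈ W := fun x hx => hWT hx
    have htf : Module.IsTorsionFree ℤ (P ⧸ W) := by
      refine torsionFree_quot W fun k x hk hx => ?_
      rw [hW, LinearMap.mem_ker, map_smul] at hx
      rw [hW, LinearMap.mem_ker]
      exact (smul_eq_zero.1 hx).resolve_left hk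
    have hfree : Module.Free ℤ (P ⧸ W) := inferInstance
    have hWD : W ≤ W.comap (T - 1) := by
      intro x hx
      exact W.sub_mem (hWT hx) hx
    rw [LinearMap.det_eq_det_mul_det W (T - 1) hWD]
    have e1 : (T - 1).restrict hWD = T.restrict hWT' - 1 := by
      ext x; rfl
    have e2 : W.mapQ W (T - 1) hWD = W.mapQ W T hWT - 1 := by
      ext x; rfl
    rw [e1, e2, Nat.succ_mul, pow_add]
    refine mul_dvd_mul (ih W (T.restrict hWT') ?_ ?_) (core1 ℓ (W.mapQ W T hWT) n r ?_ ?_)
    · ext x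
      rw [restrict_pow_apply]
      have h9 : ∀ y ∈ W, (T ^ (ℓ ^ n)) y = y := by
        intro y hy
        rw [hW, LinearMap.mem_ker, LinearMap.sub_apply, sub_eq_zero] at hy
        exact hy
      exact h9 x x.2
    · intro j hj
      rw [← hr j (hj.trans n.le_succ)]
      congr 1
      refine LinearEquiv.finrank_eq ?_
      refine LinearEquiv.ofBijective
        ((W.subtype ∘ₗ (LinearMap.ker ((T.restrict hWT') ^ (ℓ ^ j) - 1)).subtype).codRestrict
          (LinearMap.ker (T ^ (ℓ ^ j) - 1)) ?_) ⟨?_, ?_⟩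
      · intro x
        have h1 := x.2
        rw [LinearMap.mem_ker] at h1 ⊢
        have h2 := congrArg (W.subtype) h1
        rw [LinearMap.sub_apply, map_sub, map_zero] at h2
        rw [LinearMap.sub_apply]
        have h3 := restrict_pow_apply T W hWT' (ℓ ^ j) x
        simp only [Submodule.subtype_apply, LinearMap.coe_comp, Function.comp_apply,
          Module.End.one_apply] at h2 h3 ⊢
        rw [← h3]
        exact h2
      · intro x y hxy
        apply Subtype.ext
        apply Subtype.ext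
        have := congrArg (LinearMap.ker (T ^ (ℓ ^ j) - 1)).subtype hxy
        exact this
      · intro y
        have hy := y.2
        rw [LinearMap.mem_ker, LinearMap.sub_apply, sub_eq_zero, Module.End.one_apply] at hy
        have hyW : (y : P) ∈ W := by
          rw [hW, LinearMap.mem_ker, LinearMap.sub_apply, sub_eq_zero, Module.End.one_apply]
          obtain ⟨d, hd⟩ : ℓ ^ j ∣ ℓ ^ n := pow_dvd_pow ℓ hj
          rw [hd, pow_mul]
          clear hd
          induction d with
          | zero => simp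
          | succ d ihd => rw [pow_succ, Module.End.mul_apply, hy, ihd]
        refine ⟨⟨⟨y, hyW⟩, ?_⟩, ?_⟩
        · rw [LinearMap.mem_ker]
          apply Subtype.ext
          rw [LinearMap.sub_apply]
          show (((T.restrict hWT') ^ (ℓ ^ j)) (⟨y, hyW⟩ : W) : P) - (y : P) = 0
          rw [restrict_pow_apply, sub_eq_zero]
          exact hy
        · apply Subtype.ext
          rfl
    · have hcyc : (X ^ (ℓ ^ n) - 1 : ℤ[X]) * cyclotomic (ℓ ^ (n + 1)) ℤ = X ^ (ℓ ^ (n + 1)) - 1 := by
        have h := cyclotomic_prime_pow_mul_X_pow_sub_one ℤ ℓ n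
        rw [mul_comm]
        exact h
      apply LinearMap.ext
      intro x
      obtain ⟨y, rfl⟩ := W.mkQ_surjective x
      rw [mapQ_aeval_apply, LinearMap.zero_apply, Submodule.mkQ_apply,
        Submodule.Quotient.mk_eq_zero, hW, LinearMap.mem_ker]
      have h1 := congrArg (fun q => aeval T q y) hcyc
      simp only [map_mul, map_sub, map_pow, aeval_X, map_one, hT, sub_self,
        LinearMap.zero_apply, Module.End.mul_apply] at h1
      exact h1
    · have h1 := W.finrank_quotient_add_finrank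
      have h2 := hr n n.le_succ
      have h3 := hr (n + 1) le_rfl
      rw [← hW] at h2
      rw [hT, sub_self, LinearMap.ker_zero, finrank_top] at h3
      rw [Nat.totient_prime_pow_succ hl.out]
      have h4 : (finrank ℤ (P ⧸ W) : ℤ) = r * ((ℓ : ℤ) ^ n * (ℓ - 1)) := by
        have h5 : (finrank ℤ (P ⧸ W) : ℤ) + finrank ℤ W = finrank ℤ P := by exact_mod_cast h1
        rw [h2, h3] at h5
        have h6 : (ℓ : ℤ) ^ (n + 1) = (ℓ : ℤ) ^ n * ℓ := pow_succ _ _
        rw [h6] at h5
        linarith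
      have h7 : ((ℓ - 1 : ℕ) : ℤ) = (ℓ : ℤ) - 1 := by
        rw [Nat.cast_sub hl.out.one_le]; rfl
      zify
      rw [h4, h7]

/-- ranks of submodules that differ by torsion -/
theorem finrank_eq_of_tors {A : Type*} [AddCommGroup A] [Module.Finite ℤ A] (N N' : Submodule ℤ A)
    (h : N ≤ N') (ht : ∀ x ∈ N', ∃ k : ℤ, k ≠ 0 ∧ k • x ∈ N) : finrank ℤ N = finrank ℤ N' := by
  have h1 := (N.submoduleOf N').finrank_quotient_add_finrank
  have h2 : finrank ℤ (N.submoduleOf N') = finrank ℤ N :=
    (Submodule.submoduleOfEquivOfLe h).finrank_eq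
  have h3 : finrank ℤ (N' ⧸ N.submoduleOf N') = 0 := by
    rw [Module.finrank_eq_zero_iff_isTorsion]
    intro x
    obtain ⟨y, rfl⟩ := (N.submoduleOf N').mkQ_surjective x
    obtain ⟨k, hk, hk2⟩ := ht y y.2
    refine ⟨⟨k, mem_nonZeroDivisors_of_ne_zero hk⟩, ?_⟩
    have h4 : k • (N.submoduleOf N').mkQ y = 0 := by
      rw [← map_smul, Submodule.mkQ_apply, Submodule.Quotient.mk_eq_zero]
      exact hk2
    exact h4
  omega

/-- index and determinant -/
theorem index_range {P : Type*} [AddCommGroup P] [Module.Free ℤ P] [Module.Finite ℤ P]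
    (D : Module.End ℤ P) (hD : LinearMap.ker D = ⊥) :
    (LinearMap.range D).toAddSubgroup.index = (LinearMap.det D).natAbs := by
  have h := Submodule.natAbs_det_equiv (LinearMap.range D)
    (LinearEquiv.ofInjective D (LinearMap.ker_eq_bot.1 hD))
  have h2 : (LinearMap.range D).subtype ∘ₗ AddMonoidHom.toIntLinearMap
      ((LinearEquiv.ofInjective D (LinearMap.ker_eq_bot.1 hD)) : P →+ LinearMap.range D) = D := by
    ext x; rfl
  rw [h2] at h
  rw [h]
  rfl

/-- the cardinality of `M / m M` -/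
theorem card_mod {M : Type*} [AddCommGroup M] [Module.Finite ℤ M] (m : ℕ) (hm : 0 < m) :
    (LinearMap.range (LinearMap.lsmul ℤ M (m : ℤ))).toAddSubgroup.index ≠ 0 ∧
    (LinearMap.range (LinearMap.lsmul ℤ M (m : ℤ))).toAddSubgroup.index ≤
      m ^ finrank ℤ M * Nat.card (Submodule.torsion ℤ M) := by
  set H := (LinearMap.range (LinearMap.lsmul ℤ M (m : ℤ))).toAddSubgroup with hH
  set t := Submodule.torsion ℤ M with ht
  have : Module.Finite ℤ t := inferInstance
  have hfin : Finite t := Module.finite_of_fg_torsion t (Submodule.torsion_isTorsion)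
  set H2 := H ⊔ t.toAddSubgroup with hH2
  have h1 : H.relIndex H2 * H2.index = H.index := AddSubgroup.relIndex_mul_index le_sup_left
  have h2 : H.relIndex H2 ≠ 0 ∧ H.relIndex H2 ≤ Nat.card t := by
    rw [hH2, AddSubgroup.relIndex_sup_left]
    have h3 : H.relIndex t.toAddSubgroup ∣ Nat.card t := AddSubgroup.relIndex_dvd_card _ _
    exact ⟨fun h => by
      rw [h, zero_dvd_iff] at h3
      exact Nat.card_pos.ne' h3, Nat.le_of_dvd Nat.card_pos h3⟩
  have h3 : H2.index = m ^ finrank ℤ M := by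
    have h4 : finrank ℤ (M ⧸ t) = finrank ℤ M := by
      have := t.finrank_quotient_add_finrank
      have h5 : finrank ℤ t = 0 := by
        rw [Module.finrank_eq_zero_iff_isTorsion]
        exact Submodule.torsion_isTorsion
      omega
    have h5 : Module.Free ℤ (M ⧸ t) := inferInstance
    have h6 := index_range (LinearMap.lsmul ℤ (M ⧸ t) (m : ℤ)) (by
      rw [LinearMap.ker_eq_bot']
      intro x hx
      rw [LinearMap.lsmul_apply] at hx
      exact (smul_eq_zero.1 hx).resolve_left (by exact_mod_cast hm.ne'))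
    have h7 : LinearMap.det (LinearMap.lsmul ℤ (M ⧸ t) (m : ℤ)) = (m : ℤ) ^ finrank ℤ M := by
      have : LinearMap.lsmul ℤ (M ⧸ t) (m : ℤ) = (m : ℤ) • (1 : Module.End ℤ (M ⧸ t)) := by
        ext x; simp
      rw [this, LinearMap.det_smul, h4]
      simp
    rw [h7, Int.natAbs_pow, Int.natAbs_natCast] at h6
    rw [← h6]
    have h8 : H2 = ((LinearMap.range (LinearMap.lsmul ℤ (M ⧸ t) (m : ℤ))).toAddSubgroup).comap
        t.mkQ.toAddMonoidHom := by
      ext x
      rw [hH2, AddSubgroup.mem_sup, AddSubgroup.mem_comap]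
      constructor
      · rintro ⟨y, hy, z, hz, rfl⟩
        obtain ⟨w, rfl⟩ := hy
        refine ⟨t.mkQ w, ?_⟩
        have hz' : t.mkQ z = 0 := by
          rw [Submodule.mkQ_apply, Submodule.Quotient.mk_eq_zero]
          exact hz
        show (m : ℤ) • t.mkQ w = t.mkQ ((m : ℤ) • w + z)
        rw [map_add, hz', add_zero, map_smul]
      · rintro ⟨y, hy⟩
        obtain ⟨w, rfl⟩ := t.mkQ_surjective y
        refine ⟨(m : ℤ) • w, ⟨w, rfl⟩, x - (m : ℤ) • w, ?_, by abel⟩
        have : t.mkQ (x - (m : ℤ) • w) = 0 := by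
          rw [map_sub, map_smul]
          have h9 : (m : ℤ) • t.mkQ w = t.mkQ x := hy
          rw [h9, sub_self]
        rw [Submodule.mkQ_apply, Submodule.Quotient.mk_eq_zero] at this
        exact this
    rw [h8, AddSubgroup.index_comap_of_surjective]
    exact t.mkQ_surjective
  rw [← h1, h3]
  refine ⟨mul_ne_zero h2.1 (pow_pos hm _).ne', ?_⟩
  rw [mul_comm]
  exact Nat.mul_le_mul_left _ h2.2

/-- **Lower bound for the index.** -/
theorem herb (ℓ : ℕ) [hl : Fact ℓ.Prime] (n r : ℕ) (hr0 : 0 < r) (A : Type) [AddCommGroup A]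
    [Module.Finite ℤ A] (T : Module.End ℤ A) (hT : T ^ (ℓ ^ n) = 1)
    (hr : ∀ j ≤ n, finrank ℤ (LinearMap.ker (T ^ (ℓ ^ j) - 1)) + 1 = ℓ ^ j * r)
    (X : Type) [Finite X]
    (c : A → X)
    (hc : ∀ u v : A, (∑ i ∈ Finset.range (ℓ ^ n), T ^ i) u = 0 →
      (∑ i ∈ Finset.range (ℓ ^ n), T ^ i) v = 0 → c u = c v → ∃ w, u - v = T w - w) :
    ℓ ^ n ≤ Nat.card X * Nat.card (Submodule.torsion ℤ (LinearMap.ker (T - 1))) := by
  set m := ℓ ^ n with hm
  have hm0 : 0 < m := pow_pos hl.out.pos n
  set N := ∑ i ∈ Finset.range m, T ^ i with hN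
  set D := T - 1 with hD
  set A0 := LinearMap.ker D with hA0
  set t := Submodule.torsion ℤ A with ht
  set B := t.comap D with hB
  have hND : N * D = 0 := by
    rw [hN, hD, geom_sum_mul, hT, sub_self]
  have hDN : D * N = 0 := by
    rw [hN, hD, mul_geom_sum, hT, sub_self]
  have htT : ∀ x ∈ t, T x ∈ t := by
    intro x hx
    obtain ⟨k, hk⟩ := hx
    refine ⟨k, ?_⟩
    have := congrArg T hk
    rw [map_zero, LinearMap.map_smul_of_tower] at this
    exact this
  have htTk : ∀ (k : ℕ), ∀ x ∈ t, (T ^ k) x ∈ t := by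
    intro k
    induction k with
    | zero => intro x hx; exact hx
    | succ k ih => intro x hx; rw [pow_succ, Module.End.mul_apply]; exact ih _ (htT x hx)
  have htsat : ∀ (k : ℤ) (x : A), k ≠ 0 → k • x ∈ t → x ∈ t := by
    intro k x hk hx
    obtain ⟨k', hk'⟩ := hx
    refine ⟨k' * ⟨k, mem_nonZeroDivisors_of_ne_zero hk⟩, ?_⟩
    rw [mul_smul]
    exact hk'
  -- the key claim
  have key : ∀ j ≤ n, ∀ x : A, (T ^ (ℓ ^ j)) x - x ∈ B → (T ^ (ℓ ^ j)) x - x ∈ t := by
    intro j hj x hx
    obtain ⟨d, hd⟩ : ℓ ^ j ∣ ℓ ^ n := pow_dvd_pow ℓ hj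
    have hd0 : d ≠ 0 := by
      rintro rfl
      rw [mul_zero, ← hm] at hd
      exact hm0.ne' hd
    set y := (T ^ (ℓ ^ j)) x - x with hy
    have h1 : ∀ a : ℕ, (T ^ a) y - y ∈ t := by
      intro a
      induction a with
      | zero => rw [pow_zero, Module.End.one_apply, sub_self]; exact t.zero_mem
      | succ a iha =>
        rw [pow_succ', Module.End.mul_apply]
        have e : ∀ z w : A, T z - w = T (z - w) + (T w - w) := by
          intro z w
          rw [map_sub]; abel
        rw [e]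
        exact t.add_mem (htT _ iha) hx
    have h2 : ∑ i ∈ Finset.range d, (T ^ (ℓ ^ j * i)) y = 0 := by
      have h3 : (∑ i ∈ Finset.range d, (T ^ (ℓ ^ j)) ^ i) * (T ^ (ℓ ^ j) - 1) = 0 := by
        rw [geom_sum_mul, ← pow_mul, ← hd, ← hm, hT, sub_self]
      have h4 := LinearMap.congr_fun h3 x
      rw [Module.End.mul_apply, LinearMap.sub_apply, Module.End.one_apply, ← hy,
        LinearMap.sum_apply, LinearMap.zero_apply] at h4
      simpa only [← pow_mul] using h4
    have h5 : (d : ℤ) • y ∈ t := by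
      have h6 : (d : ℤ) • y = - ∑ i ∈ Finset.range d, ((T ^ (ℓ ^ j * i)) y - y) := by
        rw [Finset.sum_sub_distrib, h2, Finset.sum_const, Finset.card_range]
        simp
      rw [h6]
      exact t.neg_mem (t.sum_mem fun i _ => h1 _)
    exact htsat d y (by exact_mod_cast hd0) h5
  have hBT : B ≤ B.comap T := by
    intro x hx
    rw [Submodule.mem_comap, hB, Submodule.mem_comap]
    have : D (T x) = T (D x) := by
      rw [hD, LinearMap.sub_apply, LinearMap.sub_apply, map_sub]; rfl
    rw [this]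
    exact htT _ hx
  have htf : Module.IsTorsionFree ℤ (A ⧸ B) := by
    refine torsionFree_quot B fun k x hk hx => ?_
    rw [hB, Submodule.mem_comap, map_smul] at hx
    exact htsat k _ hk hx
  have hfree : Module.Free ℤ (A ⧸ B) := inferInstance
  set P := A ⧸ B with hP
  set TP : Module.End ℤ P := B.mapQ B T hBT with hTP
  -- fixed points of powers in the quotient
  have hfix : ∀ j ≤ n, ∀ x : A, B.mkQ x ∈ LinearMap.ker (TP ^ (ℓ ^ j) - 1) ↔
      (T ^ (ℓ ^ j)) x - x ∈ t := by
    intro j hj x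
    rw [LinearMap.mem_ker, LinearMap.sub_apply, hTP, mapQ_pow_apply, Module.End.one_apply,
      ← map_sub, Submodule.mkQ_apply, Submodule.Quotient.mk_eq_zero]
    refine ⟨key j hj x, fun h => ?_⟩
    rw [hB, Submodule.mem_comap, hD, LinearMap.sub_apply]
    exact t.sub_mem (htT _ h) h
  have hrank : ∀ j ≤ n, (finrank ℤ (LinearMap.ker (TP ^ (ℓ ^ j) - 1)) : ℤ) =
      (-(r : ℤ)) + (ℓ : ℤ) ^ j * r := by
    intro j hj
    set Aj := LinearMap.ker (T ^ (ℓ ^ j) - 1) with hAj
    have h1 : finrank ℤ (Aj.map B.mkQ) = finrank ℤ (LinearMap.ker (TP ^ (ℓ ^ j) - 1)) := by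
      refine finrank_eq_of_tors _ _ ?_ ?_
      · rintro _ ⟨x, hx, rfl⟩
        rw [hfix j hj]
        rw [SetLike.mem_coe, hAj, LinearMap.mem_ker, LinearMap.sub_apply,
          Module.End.one_apply] at hx
        rw [hx]
        exact t.zero_mem
      · intro x hx
        obtain ⟨y, rfl⟩ := B.mkQ_surjective x
        rw [hfix j hj] at hx
        obtain ⟨k, hk⟩ := hx
        refine ⟨(k : ℤ), nonZeroDivisors.ne_zero k.2, (k : ℤ) • y, ?_, map_smul _ _ _⟩
        rw [SetLike.mem_coe, hAj, LinearMap.mem_ker, LinearMap.sub_apply,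
          Module.End.one_apply, map_smul, ← smul_sub]
        exact hk
    have h2 : finrank ℤ (Aj.map B.mkQ) + finrank ℤ (LinearMap.ker (B.mkQ.domRestrict Aj)) =
        finrank ℤ Aj := by
      have h3 := (LinearMap.ker (B.mkQ.domRestrict Aj)).finrank_quotient_add_finrank
      rw [(LinearMap.quotKerEquivRange (B.mkQ.domRestrict Aj)).finrank_eq] at h3
      have h4 : LinearMap.range (B.mkQ.domRestrict Aj) = Aj.map B.mkQ := by
        ext x
        simp [LinearMap.mem_range, Submodule.mem_map]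
      rw [h4] at h3
      exact h3
    have h5 : finrank ℤ (LinearMap.ker (B.mkQ.domRestrict Aj)) = finrank ℤ A0 := by
      have h6 : finrank ℤ A0 = finrank ℤ ((LinearMap.ker (B.mkQ.domRestrict Aj)).map Aj.subtype) := by
        refine finrank_eq_of_tors _ _ ?_ ?_
        · intro x hx
          rw [hA0, LinearMap.mem_ker] at hx
          have hxT : T x = x := by
            rw [hD, LinearMap.sub_apply, sub_eq_zero] at hx; exact hx
          have hxk : ∀ k : ℕ, (T ^ k) x = x := by
            intro k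
            induction k with
            | zero => rfl
            | succ k ih => rw [pow_succ, Module.End.mul_apply, hxT, ih]
          have hxA : x ∈ Aj := by
            rw [hAj, LinearMap.mem_ker, LinearMap.sub_apply, hxk, Module.End.one_apply, sub_self]
          refine ⟨⟨x, hxA⟩, ?_, rfl⟩
          rw [SetLike.mem_coe, LinearMap.mem_ker, LinearMap.domRestrict_apply,
            Submodule.mkQ_apply, Submodule.Quotient.mk_eq_zero, hB, Submodule.mem_comap, hx]
          exact t.zero_mem
        · rintro _ ⟨x, hx, rfl⟩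
          rw [SetLike.mem_coe, LinearMap.mem_ker, LinearMap.domRestrict_apply,
            Submodule.mkQ_apply, Submodule.Quotient.mk_eq_zero, hB, Submodule.mem_comap] at hx
          obtain ⟨k, hk⟩ := hx
          refine ⟨(k : ℤ), nonZeroDivisors.ne_zero k.2, ?_⟩
          rw [hA0, LinearMap.mem_ker, map_smul]
          exact hk
      rw [h6]
      exact ((LinearMap.ker (B.mkQ.domRestrict Aj)).equivMapOfInjective Aj.subtype
        Aj.subtype_injective).finrank_eq
    have h7 := hr j hj
    have h8 := hr 0 (Nat.zero_le n)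
    rw [pow_zero, pow_one, one_mul] at h8
    rw [← hAj] at h7
    have h9 : finrank ℤ A0 + 1 = r := h8
    have h10 : ((ℓ ^ j * r : ℕ) : ℤ) = (ℓ : ℤ) ^ j * r := by push_cast; ring
    rw [h1, h5] at h2
    rw [← h10]
    omega
  have hTP1 : TP ^ (ℓ ^ n) = 1 := by
    apply LinearMap.ext
    intro x
    obtain ⟨y, rfl⟩ := B.mkQ_surjective x
    rw [hTP, mapQ_pow_apply, hT]
    rfl
  have hdvd := core2 ℓ r (-(r : ℤ)) n P TP hTP1 hrank
  have hker : LinearMap.ker (TP - 1) = ⊥ := by
    rw [LinearMap.ker_eq_bot']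
    intro x hx
    obtain ⟨y, rfl⟩ := B.mkQ_surjective x
    have h1 := (hfix 0 (Nat.zero_le n) y).1 (by rw [pow_zero, pow_one]; exact hx)
    rw [pow_zero, pow_one] at h1
    rw [Submodule.mkQ_apply, Submodule.Quotient.mk_eq_zero]
    exact h1
  have hdet0 : LinearMap.det (TP - 1) ≠ 0 := by
    intro h0
    have := LinearMap.bot_lt_ker_of_det_eq_zero h0
    rw [hker] at this
    exact lt_irrefl _ this
  have hix := index_range (TP - 1) hker
  have hlow : m ^ r ≤ (LinearMap.range (TP - 1)).toAddSubgroup.index := by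
    rw [hix]
    have h1 : (ℓ ^ (n * r) : ℕ) ∣ (LinearMap.det (TP - 1)).natAbs := by
      rw [← Int.natCast_dvd]
      exact_mod_cast hdvd
    have h2 := Nat.le_of_dvd (Int.natAbs_pos.2 hdet0) h1
    rw [hm, ← pow_mul]
    exact h2
  -- the chain of subgroups
  set RD := (LinearMap.range D).toAddSubgroup with hRD
  set GA := A0.toAddSubgroup with hGA
  set GB := B.toAddSubgroup with hGB
  set GN := (LinearMap.ker N).toAddSubgroup with hGN
  have hGBi : (LinearMap.range (TP - 1)).toAddSubgroup.index = (RD ⊔ GB).index := by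
    have h8 : RD ⊔ GB = ((LinearMap.range (TP - 1)).toAddSubgroup).comap
        B.mkQ.toAddMonoidHom := by
      ext x
      rw [AddSubgroup.mem_sup, AddSubgroup.mem_comap]
      constructor
      · rintro ⟨y, hy, z, hz, rfl⟩
        obtain ⟨w, rfl⟩ := hy
        refine ⟨B.mkQ w, ?_⟩
        have hz' : B.mkQ z = 0 := by
          rw [Submodule.mkQ_apply, Submodule.Quotient.mk_eq_zero]
          exact hz
        show (TP - 1) (B.mkQ w) = B.mkQ (D w + z)
        rw [map_add, hz', add_zero]
        rfl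
      · rintro ⟨y, hy⟩
        obtain ⟨w, rfl⟩ := B.mkQ_surjective y
        refine ⟨D w, ⟨w, rfl⟩, x - D w, ?_, by abel⟩
        have h9 : B.mkQ (x - D w) = 0 := by
          rw [map_sub, sub_eq_zero]
          exact hy.symm
        rw [Submodule.mkQ_apply, Submodule.Quotient.mk_eq_zero] at h9
        exact h9
    rw [h8, AddSubgroup.index_comap_of_surjective]
    exact B.mkQ_surjective
  have hAB : GA ≤ GB := by
    intro x hx
    have hx' : D x = 0 := hx
    show D x ∈ t
    rw [hx']
    exact t.zero_mem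
  have hRN : RD ≤ GN := by
    rintro _ ⟨w, rfl⟩
    show N (D w) = 0
    exact LinearMap.congr_fun hND w
  -- the index of `RD` in `GN`
  have hX : RD.relIndex GN ≠ 0 ∧ RD.relIndex GN ≤ Nat.card X := by
    have hinj : Function.Injective (fun q : GN ⧸ RD.addSubgroupOf GN => c (Quotient.out q : GN)) := by
      intro q q' h
      have h1 := (Quotient.out q : GN).2
      have h2 := (Quotient.out q' : GN).2
      obtain ⟨w, hw⟩ := hc _ _ h1 h2 h
      rw [← Quotient.out_eq q, ← Quotient.out_eq q']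
      rw [eq_comm]
      apply Quotient.sound
      rw [← Quotient.eq_iff_equiv]
      apply (QuotientAddGroup.eq).2
      rw [AddSubgroup.mem_addSubgroupOf]
      refine ⟨w, ?_⟩
      show T w - w = _
      rw [← hw]
      push_cast
      abel
    have hfin : Finite (GN ⧸ RD.addSubgroupOf GN) := Finite.of_injective _ hinj
    exact ⟨Nat.card_pos.ne', Nat.card_le_card_of_injective _ hinj⟩
  have hc1 : (RD ⊔ GA).relIndex (GN ⊔ GA) ≠ 0 ∧ (RD ⊔ GA).relIndex (GN ⊔ GA) ≤ Nat.card X := by
    have e : GN ⊔ GA = GN ⊔ (RD ⊔ GA) := by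
      rw [← sup_assoc, sup_eq_left.2 hRN]
    rw [e, AddSubgroup.relIndex_sup_right]
    have h1 : (RD ⊔ GA).relIndex GN ∣ RD.relIndex GN :=
      AddSubgroup.relIndex_dvd_of_le_left GN le_sup_left
    exact ⟨fun h => by
      rw [h, zero_dvd_iff] at h1
      exact hX.1 h1, (Nat.le_of_dvd (Nat.pos_of_ne_zero hX.1) h1).trans hX.2⟩
  have hA0r : finrank ℤ A0 + 1 = r := by
    have h8 := hr 0 (Nat.zero_le n)
    rw [pow_zero, pow_one, one_mul] at h8
    exact h8
  have hc2 : (GN ⊔ GA).index ≠ 0 ∧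
      (GN ⊔ GA).index ≤ m ^ (r - 1) * Nat.card (Submodule.torsion ℤ A0) := by
    have e1 : GN ⊔ GA = (GA.map N.toAddMonoidHom).comap N.toAddMonoidHom := by
      rw [AddSubgroup.comap_map_eq, sup_comm]
      rfl
    rw [e1, AddSubgroup.index_comap]
    have hle : N.toAddMonoidHom.range ≤ GA := by
      rintro _ ⟨w, rfl⟩
      show D (N w) = 0
      exact LinearMap.congr_fun hDN w
    have hNA : ∀ x : A, D x = 0 → N x = (m : ℤ) • x := by
      intro x hx
      have hxT : T x = x := by
        rw [hD, LinearMap.sub_apply, sub_eq_zero] at hx; exact hx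
      have hxk : ∀ k : ℕ, (T ^ k) x = x := by
        intro k
        induction k with
        | zero => rfl
        | succ k ih => rw [pow_succ, Module.End.mul_apply, hxT, ih]
      rw [hN, LinearMap.sum_apply, Finset.sum_congr rfl fun i _ => hxk i, Finset.sum_const,
        Finset.card_range]
      simp
    have h2 : (GA.map N.toAddMonoidHom).relIndex GA =
        (LinearMap.range (LinearMap.lsmul ℤ A0 (m : ℤ))).toAddSubgroup.index := by
      have h3 : (GA.map N.toAddMonoidHom).addSubgroupOf GA =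
          (LinearMap.range (LinearMap.lsmul ℤ A0 (m : ℤ))).toAddSubgroup := by
        ext x
        rw [AddSubgroup.mem_addSubgroupOf]
        constructor
        · rintro ⟨y, hy, hyx⟩
          refine ⟨⟨y, hy⟩, ?_⟩
          apply Subtype.ext
          show (m : ℤ) • y = (x : A)
          rw [← hNA y hy]
          exact hyx
        · rintro ⟨y, rfl⟩
          refine ⟨y, y.2, ?_⟩
          show N (y : A) = (m : ℤ) • (y : A)
          exact hNA y y.2
      show ((GA.map N.toAddMonoidHom).addSubgroupOf GA).index = _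
      rw [h3]
    have h4 := card_mod (M := A0) m hm0
    rw [← h2] at h4
    have h5 : finrank ℤ A0 = r - 1 := by omega
    rw [h5] at h4
    have h6 := AddSubgroup.relIndex_le_of_le_right hle h4.1
    exact ⟨fun h0 => h4.1 (AddSubgroup.relIndex_eq_zero_of_le_right hle h0), h6.trans h4.2⟩
  have hc3 : (RD ⊔ GA).relIndex (GN ⊔ GA) * (GN ⊔ GA).index = (RD ⊔ GA).index :=
    AddSubgroup.relIndex_mul_index (sup_le_sup_right hRN GA)
  have hc4 : (RD ⊔ GB).index ≤ (RD ⊔ GA).index := by
    have h1 : (RD ⊔ GB).index ∣ (RD ⊔ GA).index :=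
      AddSubgroup.index_dvd_of_le (sup_le_sup_left hAB RD)
    refine Nat.le_of_dvd (Nat.pos_of_ne_zero ?_) h1
    rw [← hc3]
    exact mul_ne_zero hc1.1 hc2.1
  rw [hGBi] at hlow
  have hfinal : m ^ r ≤ Nat.card X * (m ^ (r - 1) * Nat.card (Submodule.torsion ℤ A0)) := by
    refine (hlow.trans hc4).trans ?_
    rw [← hc3]
    exact Nat.mul_le_mul hc1.2 hc2.2
  obtain ⟨r', rfl⟩ : ∃ r', r = r' + 1 := ⟨r - 1, by omega⟩
  rw [Nat.add_sub_cancel, pow_succ] at hfinal
  have h9 : m ^ r' * m ≤ m ^ r' * (Nat.card X * Nat.card (Submodule.torsion ℤ A0)) := by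
    calc m ^ r' * m ≤ Nat.card X * (m ^ r' * Nat.card (Submodule.torsion ℤ A0)) := hfinal
      _ = _ := by ring
  exact Nat.le_of_mul_le_mul_left h9 (pow_pos hm0 _)

end Run7.h411.Cft
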