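import Pool.Agent.Run7.h411.Cft1

/-!
# Class field theory, part 2: unramified cyclic extensions

A cyclic extension `M / K` of degree `ℓ ^ n` of a totally complex number field `K` in which all
inertia groups are trivial has `ℓ ^ n ≤ h_K |μ_K|`.
-/

set_option autoImplicit false

namespace Run7.h411.Cft

open NumberField Module
open scoped Pointwise

section

variable {K M : Type} [Field K] [NumberField K] [Field M] [NumberField M] [Algebra K M]
  [IsGalois K M]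

omit [NumberField K] [NumberField M] [IsGalois K M] in
theorem coe_smul (τ : Gal(M/K)) (x : 𝓞 M) : ((τ • x : 𝓞 M) : M) = τ x := rfl

theorem ram_one (hunr : ∀ P : Ideal (𝓞 M), P.IsMaximal → ∀ τ : Gal(M/K),
    (∀ x : 𝓞 M, τ • x - x ∈ P) → τ = 1) (p : Ideal (𝓞 K)) [p.IsMaximal]
    (P : Ideal (𝓞 M)) [P.IsMaximal] [P.LiesOver p] : P.ramificationIdx (𝓞 K) = 1 := by
  have h1 := Ideal.card_inertia_eq_ramificationIdxIn (G := Gal(M/K)) p P
  rw [Ideal.ramificationIdxIn_eq_ramificationIdx p P Gal(M/K)] at h1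
  rw [← h1]
  have h2 : P.inertia Gal(M/K) = ⊥ := by
    rw [eq_bot_iff]
    intro τ hτ
    exact hunr P inferInstance τ hτ
  rw [h2]
  simp

/-- The factorization of a prime without inertia. -/
theorem map_prime_dvd (hunr : ∀ P : Ideal (𝓞 M), P.IsMaximal → ∀ τ : Gal(M/K),
    (∀ x : 𝓞 M, τ • x - x ∈ P) → τ = 1) (p : Ideal (𝓞 K)) [p.IsMaximal] (hp : p ≠ ⊥)
    (J : Ideal (𝓞 M)) (hJ : ∀ Q : Ideal (𝓞 M), Q.IsMaximal → Q.LiesOver p → J ≤ Q) :
    p.map (algebraMap (𝓞 K) (𝓞 M)) ∣ J := by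
  rw [Ideal.map_algebraMap_eq_finsetProd_pow hp]
  have h0 : ∀ P ∈ (p.primesOver (𝓞 M)), P ^ P.ramificationIdx (𝓞 K) = P ∧ Prime P ∧ P ∣ J := by
    intro P hP
    have h1 : P.IsPrime := hP.1
    have h2 : P.LiesOver p := hP.2
    have hP0 : P ≠ ⊥ := Ideal.ne_bot_of_liesOver_of_ne_bot hp P
    have h3 : P.IsMaximal := h1.isMaximal hP0
    rw [ram_one hunr p P, pow_one]
    exact ⟨rfl, Ideal.prime_of_isPrime hP0 h1, Ideal.dvd_iff_le.2 (hJ P h3 h2)⟩
  rw [Finset.prod_congr rfl fun P hP => (h0 P (Set.mem_toFinset.1 hP)).1]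
  exact Finset.prod_primes_dvd J (fun P hP => (h0 P (Set.mem_toFinset.1 hP)).2.1)
    (fun P hP => (h0 P (Set.mem_toFinset.1 hP)).2.2)

omit [NumberField K] [NumberField M] [IsGalois K M] in
theorem smul_ideal (τ : Gal(M/K)) (J : Ideal (𝓞 M)) :
    τ • J = J.map (MulSemiringAction.toRingHom Gal(M/K) (𝓞 M) τ) := rfl

omit [NumberField K] [NumberField M] [IsGalois K M] in
theorem smul_alg (τ : Gal(M/K)) (x : 𝓞 K) :
    τ • (algebraMap (𝓞 K) (𝓞 M) x) = algebraMap (𝓞 K) (𝓞 M) x := by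
  apply RingOfIntegers.ext
  exact τ.commutes (x : K)

omit [NumberField K] [NumberField M] [IsGalois K M] in
theorem smul_map (τ : Gal(M/K)) (I : Ideal (𝓞 K)) :
    τ • (I.map (algebraMap (𝓞 K) (𝓞 M))) = I.map (algebraMap (𝓞 K) (𝓞 M)) := by
  rw [smul_ideal, Ideal.map_map]
  congr 1
  ext x
  exact congrArg _ (smul_alg τ x)

theorem inv_ideal (hunr : ∀ P : Ideal (𝓞 M), P.IsMaximal → ∀ τ : Gal(M/K),
    (∀ x : 𝓞 M, τ • x - x ∈ P) → τ = 1) (N : ℕ) : ∀ J : Ideal (𝓞 M), J ≠ ⊥ →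
    Ideal.absNorm J ≤ N → (∀ τ : Gal(M/K), τ • J = J) →
    ∃ I : Ideal (𝓞 K), J = I.map (algebraMap (𝓞 K) (𝓞 M)) := by
  induction N using Nat.strong_induction_on with
  | _ N ih =>
    intro J hJ0 hJN hJ
    by_cases hT : J = ⊤
    · exact ⟨⊤, by rw [Ideal.map_top, hT]⟩
    obtain ⟨P, hPm, hJP⟩ := Ideal.exists_le_maximal J hT
    have hP0 : P ≠ ⊥ := fun h => hJ0 (le_bot_iff.1 (h ▸ hJP))
    set p : Ideal (𝓞 K) := P.under (𝓞 K) with hp
    have hpm : p.IsMaximal := Ideal.IsMaximal.under (𝓞 K) P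
    have hp0 : p ≠ ⊥ := Ideal.under_ne_bot _ hP0
    have hdvd := map_prime_dvd hunr p hp0 J (by
      intro Q hQ hQp
      obtain ⟨τ, hτ⟩ := Ideal.exists_smul_eq_of_isGaloisGroup p P Q Gal(M/K)
      rw [← hτ, ← hJ τ]
      exact Ideal.pointwise_smul_le_pointwise_smul_iff.2 hJP)
    obtain ⟨J', hJ'⟩ := hdvd
    have hmp0 : p.map (algebraMap (𝓞 K) (𝓞 M)) ≠ ⊥ := Ideal.map_ne_bot_of_ne_bot hp0
    have hJ'0 : J' ≠ ⊥ := by
      rintro rfl
      rw [Ideal.mul_bot] at hJ'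
      exact hJ0 hJ'
    have hinv : ∀ τ : Gal(M/K), τ • J' = J' := by
      intro τ
      have h1 := hJ τ
      rw [hJ', smul_ideal, Ideal.map_mul, ← smul_ideal, ← smul_ideal, smul_map] at h1
      exact mul_left_cancel₀ hmp0 h1
    have hlt : Ideal.absNorm J' < N := by
      have h1 : Ideal.absNorm (p.map (algebraMap (𝓞 K) (𝓞 M))) ≠ 1 := by
        rw [Ne, Ideal.absNorm_eq_one_iff]
        intro h
        have h2 : p.map (algebraMap (𝓞 K) (𝓞 M)) ≤ P := Ideal.map_le_iff_le_comap.2 le_rfl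
        rw [h, top_le_iff] at h2
        exact hPm.ne_top h2
      have h2 : Ideal.absNorm (p.map (algebraMap (𝓞 K) (𝓞 M))) ≠ 0 := by
        rw [Ne, Ideal.absNorm_eq_zero_iff]; exact hmp0
      have h3 : Ideal.absNorm J' ≠ 0 := by
        rw [Ne, Ideal.absNorm_eq_zero_iff]; exact hJ'0
      rw [hJ', map_mul] at hJN
      have h4 : 2 * Ideal.absNorm J' ≤
          Ideal.absNorm (p.map (algebraMap (𝓞 K) (𝓞 M))) * Ideal.absNorm J' :=
        Nat.mul_le_mul_right _ (by omega)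
      omega
    obtain ⟨I', hI'⟩ := ih _ hlt J' hJ'0 le_rfl hinv
    exact ⟨p * I', by rw [Ideal.map_mul, ← hI', hJ']⟩

theorem hilb90 (σ : Gal(M/K)) (hσ : ∀ τ, τ ∈ Subgroup.zpowers σ) (η : 𝓞 M)
    (hη : Algebra.norm K (η : M) = 1) : ∃ ε : 𝓞 M, ε ≠ 0 ∧ η * (σ • ε) = ε := by
  have : IsCyclic Gal(M/K) := ⟨σ, hσ⟩
  obtain ⟨ε, h0, h⟩ := groupCohomology.exists_mul_galRestrict_of_norm_eq_one (A := 𝓞 K) hσ
    (η := η) hη
  refine ⟨ε, h0, ?_⟩
  have h2 : galRestrict (𝓞 K) K M (𝓞 M) σ ε = σ • ε := by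
    apply RingOfIntegers.ext
    exact algebraMap_galRestrict_apply (𝓞 K) σ ε
  rw [← h2]
  exact h

/-- The class of the ideal attached to a unit of norm `1`. -/
theorem class_map (hunr : ∀ P : Ideal (𝓞 M), P.IsMaximal → ∀ τ : Gal(M/K),
    (∀ x : 𝓞 M, τ • x - x ∈ P) → τ = 1) (σ : Gal(M/K)) (hσ : ∀ τ, τ ∈ Subgroup.zpowers σ) :
    ∃ c : (𝓞 M)ˣ → ClassGroup (𝓞 K), ∀ u v : (𝓞 M)ˣ, Algebra.norm K ((u : 𝓞 M) : M) = 1 →
      Algebra.norm K ((v : 𝓞 M) : M) = 1 → c u = c v →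
      ∃ w : (𝓞 M)ˣ, (u : 𝓞 M) * w = v * (σ • (w : 𝓞 M)) := by
  classical
  have h1 : ∀ u : (𝓞 M)ˣ, Algebra.norm K ((u : 𝓞 M) : M) = 1 → ∃ (ε : 𝓞 M)
      (I : nonZeroDivisors (Ideal (𝓞 K))), ε ≠ 0 ∧ (u : 𝓞 M) * (σ • ε) = ε ∧
      Ideal.span {ε} = (I : Ideal (𝓞 K)).map (algebraMap (𝓞 K) (𝓞 M)) := by
    intro u hu
    obtain ⟨ε, h0, h⟩ := hilb90 σ hσ u hu
    have hJ0 : Ideal.span {ε} ≠ ⊥ := by
      rw [Ne, Ideal.span_singleton_eq_bot]; exact h0
    have hstab : σ ∈ MulAction.stabilizer Gal(M/K) (Ideal.span {ε}) := by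
      rw [MulAction.mem_stabilizer_iff, smul_ideal, Ideal.map_span, Set.image_singleton]
      show Ideal.span {σ • ε} = Ideal.span {ε}
      rw [Ideal.span_singleton_eq_span_singleton]
      exact ⟨u, by rw [mul_comm]; exact h⟩
    have hinv : ∀ τ : Gal(M/K), τ • (Ideal.span {ε}) = Ideal.span {ε} := by
      intro τ
      have : τ ∈ MulAction.stabilizer Gal(M/K) (Ideal.span {ε}) :=
        (Subgroup.zpowers_le.2 hstab) (hσ τ)
      exact this
    obtain ⟨I, hI⟩ := inv_ideal hunr _ (Ideal.span {ε}) hJ0 le_rfl hinv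
    have hI0 : I ≠ ⊥ := by
      rintro rfl
      rw [Ideal.map_bot] at hI
      exact hJ0 hI
    exact ⟨ε, ⟨I, mem_nonZeroDivisors_of_ne_zero hI0⟩, h0, h, hI⟩
  choose! eps id h2 using h1
  refine ⟨fun u => ClassGroup.mk0 (id u), fun u v hu hv huv => ?_⟩
  obtain ⟨hu0, hu1, hu2⟩ := h2 u hu
  obtain ⟨hv0, hv1, hv2⟩ := h2 v hv
  obtain ⟨x, y, hx, hy, hxy⟩ := (ClassGroup.mk0_eq_mk0_iff).1 huv
  have h3 := congrArg (Ideal.map (algebraMap (𝓞 K) (𝓞 M))) hxy
  rw [Ideal.map_mul, Ideal.map_mul, ← hu2, ← hv2, Ideal.map_span, Ideal.map_span,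
    Set.image_singleton, Set.image_singleton, Ideal.span_singleton_mul_span_singleton,
    Ideal.span_singleton_mul_span_singleton, Ideal.span_singleton_eq_span_singleton] at h3
  obtain ⟨w, hw⟩ := h3
  refine ⟨w, ?_⟩
  have h4 := congrArg (fun z => σ • z) hw
  simp only [smul_mul', smul_alg] at h4
  set a := algebraMap (𝓞 K) (𝓞 M) x with ha
  set b := algebraMap (𝓞 K) (𝓞 M) y with hb
  have ha0 : a ≠ 0 := by
    rw [ha, Ne, FaithfulSMul.algebraMap_eq_zero_iff]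
    exact hx
  have hs0 : σ • eps u ≠ 0 := by
    rw [Ne, smul_eq_zero_iff_eq]; exact hu0
  have h5 : (a * σ • eps u) * ((u : 𝓞 M) * w) = (a * σ • eps u) * (v * (σ • (w : 𝓞 M))) := by
    calc (a * σ • eps u) * ((u : 𝓞 M) * w) = a * ((u : 𝓞 M) * σ • eps u) * w := by ring
      _ = a * eps u * w := by rw [hu1]
      _ = b * eps v := hw
      _ = b * ((v : 𝓞 M) * σ • eps v) := by rw [hv1]
      _ = v * (b * σ • eps v) := by ring
      _ = v * (a * σ • eps u * σ • (w : 𝓞 M)) := by rw [h4]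
      _ = _ := by ring
  exact mul_left_cancel₀ (mul_ne_zero ha0 hs0) h5

/-- The action of `σ` on the units. -/
noncomputable def actU (σ : Gal(M/K)) : Module.End ℤ (Additive (𝓞 M)ˣ) :=
  (MonoidHom.toAdditive (Units.map
    (MulSemiringAction.toRingHom Gal(M/K) (𝓞 M) σ : 𝓞 M →* 𝓞 M))).toIntLinearMap

omit [NumberField K] [NumberField M] [IsGalois K M] in
theorem actU_apply (σ : Gal(M/K)) (a : Additive (𝓞 M)ˣ) :
    (((actU σ a).toMul : (𝓞 M)ˣ) : 𝓞 M) = σ • ((a.toMul : (𝓞 M)ˣ) : 𝓞 M) := rfl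

omit [NumberField K] [NumberField M] [IsGalois K M] in
theorem actU_pow (σ : Gal(M/K)) (k : ℕ) : (actU σ) ^ k = actU (σ ^ k) := by
  induction k with
  | zero =>
    apply LinearMap.ext
    intro a
    apply Additive.toMul.injective
    apply Units.ext
    rw [actU_apply, pow_zero, pow_zero, one_smul]
    rfl
  | succ k ih =>
    apply LinearMap.ext
    intro a
    apply Additive.toMul.injective
    apply Units.ext
    rw [pow_succ, Module.End.mul_apply, ih, actU_apply, actU_apply, actU_apply, pow_succ, mul_smul]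

omit [NumberField K] [NumberField M] [IsGalois K M] in
theorem exists_int (F : IntermediateField K M) (x : 𝓞 M) (hx : (x : M) ∈ F) :
    ∃ y : 𝓞 F, algebraMap (𝓞 F) (𝓞 M) y = x := by
  have h1 : IsIntegral ℤ (⟨(x : M), hx⟩ : F) := by
    rw [← isIntegral_algebraMap_iff (algebraMap F M).injective]
    exact x.2
  refine ⟨⟨⟨(x : M), hx⟩, h1⟩, ?_⟩
  apply RingOfIntegers.ext
  rfl

omit [NumberField K] [NumberField M] [IsGalois K M] in
/-- The units fixed by `τ`, as units of a subfield. -/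
theorem fixed_units (τ : Gal(M/K)) :
    Nonempty (Additive (𝓞 (IntermediateField.fixedField (Subgroup.zpowers τ)))ˣ ≃ₗ[ℤ]
      LinearMap.ker (actU τ - 1)) := by
  set F := IntermediateField.fixedField (Subgroup.zpowers τ) with hF
  let φ : Additive (𝓞 F)ˣ →ₗ[ℤ] Additive (𝓞 M)ˣ :=
    (MonoidHom.toAdditive (Units.map (algebraMap (𝓞 F) (𝓞 M) : 𝓞 F →* 𝓞 M))).toIntLinearMap
  have hφ : ∀ a, (((φ a).toMul : (𝓞 M)ˣ) : 𝓞 M) = algebraMap (𝓞 F) (𝓞 M) (a.toMul : (𝓞 F)ˣ) :=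
    fun a => rfl
  have hker : ∀ a : Additive (𝓞 M)ˣ, a ∈ LinearMap.ker (actU τ - 1) ↔
      τ (((a.toMul : (𝓞 M)ˣ) : 𝓞 M) : M) = (((a.toMul : (𝓞 M)ˣ) : 𝓞 M) : M) := by
    intro a
    rw [LinearMap.mem_ker, LinearMap.sub_apply, sub_eq_zero, Module.End.one_apply]
    constructor
    · intro h
      have h2 := actU_apply τ a
      rw [h] at h2
      have h3 := congrArg (fun z : 𝓞 M => (z : M)) h2
      exact h3.symm
    · intro h
      apply Additive.toMul.injective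
      apply Units.ext
      rw [actU_apply]
      apply RingOfIntegers.ext
      exact h
  have hmem : ∀ x : M, x ∈ F ↔ τ x = x := by
    intro x
    rw [hF, IntermediateField.mem_fixedField_iff]
    constructor
    · intro h; exact h τ (Subgroup.mem_zpowers τ)
    · intro h f hf
      have h1 : τ ∈ MulAction.stabilizer Gal(M/K) x := h
      exact (Subgroup.zpowers_le.2 h1) hf
  refine ⟨LinearEquiv.ofBijective (φ.codRestrict _ fun a => ?_) ⟨?_, ?_⟩⟩
  · rw [hker, ← hmem]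
    exact ((a.toMul : (𝓞 F)ˣ) : F).2
  · intro a b hab
    have h1 := congrArg (LinearMap.ker (actU τ - 1)).subtype hab
    have h2 : φ a = φ b := h1
    apply Additive.toMul.injective
    apply Units.ext
    have h3 := congrArg (fun z : Additive (𝓞 M)ˣ => ((z.toMul : (𝓞 M)ˣ) : 𝓞 M)) h2
    simp only [hφ] at h3
    exact FaithfulSMul.algebraMap_injective (𝓞 F) (𝓞 M) h3
  · rintro ⟨a, ha⟩
    set u : (𝓞 M)ˣ := a.toMul with hu
    have h1 : ((u : 𝓞 M) : M) ∈ F := (hmem _).2 ((hker a).1 ha)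
    have h2 : (((u⁻¹ : (𝓞 M)ˣ) : 𝓞 M) : M) ∈ F := by
      have h3 : (((u⁻¹ : (𝓞 M)ˣ) : 𝓞 M) : M) = ((u : 𝓞 M) : M)⁻¹ := by
        apply eq_inv_of_mul_eq_one_left
        rw [← map_mul, Units.inv_mul, map_one]
      rw [h3]
      exact F.inv_mem h1
    obtain ⟨y, hy⟩ := exists_int F _ h1
    obtain ⟨z, hz⟩ := exists_int F _ h2
    have hyz : y * z = 1 := by
      apply FaithfulSMul.algebraMap_injective (𝓞 F) (𝓞 M)
      rw [map_mul, hy, hz, map_one, Units.mul_inv]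
    refine ⟨Additive.ofMul ⟨y, z, hyz, by rw [mul_comm]; exact hyz⟩, ?_⟩
    apply Subtype.ext
    apply Additive.toMul.injective
    apply Units.ext
    exact hy

/-- The case of all of the group. -/
theorem fixed_units_top (σ : Gal(M/K)) (hσ : ∀ τ, τ ∈ Subgroup.zpowers σ) :
    ∃ e : LinearMap.ker (actU σ - 1) →ₗ[ℤ] Additive (𝓞 K)ˣ, Function.Injective e := by
  let ψ : Additive (𝓞 K)ˣ →ₗ[ℤ] Additive (𝓞 M)ˣ :=
    (MonoidHom.toAdditive (Units.map (algebraMap (𝓞 K) (𝓞 M) : 𝓞 K →* 𝓞 M))).toIntLinearMap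
  have hψ : ∀ a, (((ψ a).toMul : (𝓞 M)ˣ) : 𝓞 M) = algebraMap (𝓞 K) (𝓞 M) (a.toMul : (𝓞 K)ˣ) :=
    fun a => rfl
  have hinj : Function.Injective ψ := by
    intro a b hab
    apply Additive.toMul.injective
    apply Units.ext
    have h3 := congrArg (fun z : Additive (𝓞 M)ˣ => ((z.toMul : (𝓞 M)ˣ) : 𝓞 M)) hab
    simp only [hψ] at h3
    exact FaithfulSMul.algebraMap_injective (𝓞 K) (𝓞 M) h3
  have hint : ∀ x : 𝓞 M, σ (x : M) = (x : M) → ∃ y : 𝓞 K, algebraMap (𝓞 K) (𝓞 M) y = x := by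
    intro x hx
    have h1 : (x : M) ∈ (⊥ : IntermediateField K M) := by
      rw [IsGalois.mem_bot_iff_fixed]
      intro f
      have h1 : σ ∈ MulAction.stabilizer Gal(M/K) (x : M) := hx
      exact (Subgroup.zpowers_le.2 h1) (hσ f)
    obtain ⟨k, hk⟩ := IntermediateField.mem_bot.1 h1
    have h2 : IsIntegral ℤ k := by
      rw [← isIntegral_algebraMap_iff (algebraMap K M).injective, hk]
      exact x.2
    refine ⟨⟨k, h2⟩, ?_⟩
    apply RingOfIntegers.ext
    exact hk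
  have hle : LinearMap.ker (actU σ - 1) ≤ LinearMap.range ψ := by
    intro a ha
    have ha2 : actU σ a = a := by
      rw [LinearMap.mem_ker, LinearMap.sub_apply, sub_eq_zero] at ha
      exact ha
    set u : (𝓞 M)ˣ := a.toMul with hu
    have h1 : σ ((u : 𝓞 M) : M) = ((u : 𝓞 M) : M) := by
      have h2 := actU_apply σ a
      rw [ha2] at h2
      exact (congrArg (fun z : 𝓞 M => (z : M)) h2).symm
    have h3 : (((u⁻¹ : (𝓞 M)ˣ) : 𝓞 M) : M) = ((u : 𝓞 M) : M)⁻¹ := by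
      apply eq_inv_of_mul_eq_one_left
      rw [← map_mul, Units.inv_mul, map_one]
    have h2 : σ (((u⁻¹ : (𝓞 M)ˣ) : 𝓞 M) : M) = (((u⁻¹ : (𝓞 M)ˣ) : 𝓞 M) : M) := by
      rw [h3, map_inv₀, h1]
    obtain ⟨y, hy⟩ := hint _ h1
    obtain ⟨z, hz⟩ := hint _ h2
    have hyz : y * z = 1 := by
      apply FaithfulSMul.algebraMap_injective (𝓞 K) (𝓞 M)
      rw [map_mul, hy, hz, map_one, Units.mul_inv]
    refine ⟨Additive.ofMul ⟨y, z, hyz, by rw [mul_comm]; exact hyz⟩, ?_⟩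
    apply Additive.toMul.injective
    apply Units.ext
    exact hy
  refine ⟨(LinearEquiv.ofInjective ψ hinj).symm.toLinearMap ∘ₗ Submodule.inclusion hle, ?_⟩
  rw [LinearMap.coe_comp]
  exact (LinearEquiv.ofInjective ψ hinj).symm.injective.comp (Submodule.inclusion_injective hle)

theorem rank_fixed [IsTotallyComplex K] (ℓ n : ℕ) [hl : Fact ℓ.Prime] (σ : Gal(M/K))
    (hσ : ∀ τ, τ ∈ Subgroup.zpowers σ) (hcard : Nat.card Gal(M/K) = ℓ ^ n) (j : ℕ) (hj : j ≤ n) :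
    finrank ℤ (LinearMap.ker (actU σ ^ (ℓ ^ j) - 1)) + 1 =
      ℓ ^ j * InfinitePlace.nrComplexPlaces K := by
  rw [actU_pow]
  obtain ⟨e⟩ := fixed_units (σ ^ (ℓ ^ j))
  set F := IntermediateField.fixedField (Subgroup.zpowers (σ ^ (ℓ ^ j))) with hF
  rw [← e.finrank_eq, Units.finrank_eq]
  have hFc : IsTotallyComplex F := isTotallyComplex_of_algebra K F
  have h1 := IsTotallyComplex.finrank (K := F)
  have h2 := IsTotallyComplex.finrank (K := K)
  have h3 : finrank ℚ K * finrank K F = finrank ℚ F := Module.finrank_mul_finrank ℚ K F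
  have h4 : finrank K F * finrank F M = finrank K M := Module.finrank_mul_finrank K F M
  have h5 : finrank F M = ℓ ^ (n - j) := by
    rw [IntermediateField.finrank_fixedField_eq_card, Nat.card_zpowers, orderOf_pow,
      orderOf_eq_card_of_forall_mem_zpowers hσ, hcard]
    have : Nat.gcd (ℓ ^ n) (ℓ ^ j) = ℓ ^ j := Nat.gcd_eq_right (pow_dvd_pow ℓ hj)
    rw [this, Nat.pow_div hj hl.out.pos]
  have h6 : finrank K M = ℓ ^ n := by
    rw [← hcard, IsGalois.card_aut_eq_finrank]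
  have h7 : finrank K F = ℓ ^ j := by
    rw [h5, h6] at h4
    have h8 : ℓ ^ n = ℓ ^ j * ℓ ^ (n - j) := by
      rw [← pow_add, Nat.add_sub_cancel' hj]
    rw [h8] at h4
    exact Nat.eq_of_mul_eq_mul_right (pow_pos hl.out.pos _) h4
  have h9 : Fintype.card (InfinitePlace F) = InfinitePlace.nrComplexPlaces F := by
    have := InfinitePlace.card_eq_nrRealPlaces_add_nrComplexPlaces F
    rw [this, IsTotallyComplex.nrRealPlaces_eq_zero, zero_add]
  have h10 : InfinitePlace.nrComplexPlaces F = ℓ ^ j * InfinitePlace.nrComplexPlaces K := by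
    rw [h1, h2, h7] at h3
    have : 2 * InfinitePlace.nrComplexPlaces F = 2 * (ℓ ^ j * InfinitePlace.nrComplexPlaces K) := by
      rw [← h3]; ring
    omega
  have h11 : 0 < Fintype.card (InfinitePlace F) := Fintype.card_pos
  rw [← h10, ← h9, Units.rank]
  omega

/-- **The finite level.** -/
theorem finite_level [IsTotallyComplex K] (ℓ n : ℕ) [hl : Fact ℓ.Prime] (σ : Gal(M/K))
    (hσ : ∀ τ, τ ∈ Subgroup.zpowers σ) (hcard : Nat.card Gal(M/K) = ℓ ^ n)
    (hunr : ∀ P : Ideal (𝓞 M), P.IsMaximal → ∀ τ : Gal(M/K),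
      (∀ x : 𝓞 M, τ • x - x ∈ P) → τ = 1) :
    ℓ ^ n ≤ Nat.card (ClassGroup (𝓞 K)) * Nat.card (Submodule.torsion ℤ (Additive (𝓞 K)ˣ)) := by
  classical
  obtain ⟨c, hc⟩ := class_map hunr σ hσ
  have hr0 : 0 < InfinitePlace.nrComplexPlaces K := by
    have h2 := IsTotallyComplex.finrank (K := K)
    have h3 : 0 < finrank ℚ K := Module.finrank_pos
    omega
  have hσn : σ ^ (ℓ ^ n) = 1 := by rw [← hcard]; exact pow_card_eq_one'
  have hT : actU σ ^ (ℓ ^ n) = 1 := by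
    rw [actU_pow, hσn, ← pow_zero σ, ← actU_pow, pow_zero]
  have hnorm : ∀ a : Additive (𝓞 M)ˣ, (∑ i ∈ Finset.range (ℓ ^ n), (actU σ) ^ i) a = 0 →
      Algebra.norm K (((a.toMul : (𝓞 M)ˣ) : 𝓞 M) : M) = 1 := by
    intro a ha
    apply (algebraMap K M).injective
    rw [Algebra.norm_eq_prod_automorphisms, map_one]
    have h1 : Finset.image (fun i => σ ^ i) (Finset.range (Nat.card Gal(M/K))) = Finset.univ :=
      IsCyclic.image_range_card hσ
    rw [← h1, Finset.prod_image, hcard]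
    · have h2 := congrArg (fun z : Additive (𝓞 M)ˣ => (((z.toMul : (𝓞 M)ˣ) : 𝓞 M) : M)) ha
      rw [LinearMap.sum_apply] at h2
      simp only [actU_pow] at h2
      have h3 : ∀ s : Finset ℕ, ((((∑ i ∈ s, actU (σ ^ i) a).toMul : (𝓞 M)ˣ) : 𝓞 M) : M) =
          ∏ i ∈ s, (σ ^ i) (((a.toMul : (𝓞 M)ˣ) : 𝓞 M) : M) := by
        intro s
        induction s using Finset.induction_on with
        | empty => simp
        | insert i s hi ih =>
          rw [Finset.sum_insert hi, Finset.prod_insert hi, toMul_add, Units.val_mul, ← ih]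
          exact map_mul (algebraMap (𝓞 M) M) _ _
      rw [h3] at h2
      rw [h2]
      simp
    · intro i hi j hj hij
      have ho := orderOf_eq_card_of_forall_mem_zpowers hσ
      rw [Finset.mem_coe, Finset.mem_range, ← ho] at hi hj
      exact pow_injOn_Iio_orderOf hi hj hij
  have key := herb ℓ n (InfinitePlace.nrComplexPlaces K) hr0 (Additive (𝓞 M)ˣ) (actU σ) hT
    (fun j hj => rank_fixed ℓ n σ hσ hcard j hj) (ClassGroup (𝓞 K)) (fun a => c a.toMul) (by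
      intro u v hu hv huv
      obtain ⟨w, hw⟩ := hc u.toMul v.toMul (hnorm u hu) (hnorm v hv) huv
      refine ⟨Additive.ofMul w, ?_⟩
      rw [sub_eq_sub_iff_add_eq_add]
      apply Additive.toMul.injective
      apply Units.ext
      rw [toMul_add, toMul_add, Units.val_mul, Units.val_mul, actU_apply]
      rw [mul_comm (σ • _)]
      exact hw)
  refine key.trans (Nat.mul_le_mul_left _ ?_)
  obtain ⟨e, he⟩ := fixed_units_top σ hσ
  have hfin : Finite (Submodule.torsion ℤ (Additive (𝓞 K)ˣ)) :=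
    Module.finite_of_fg_torsion _ (Submodule.torsion_isTorsion)
  have hmem : ∀ x ∈ Submodule.torsion ℤ (LinearMap.ker (actU σ - 1)),
      e x ∈ Submodule.torsion ℤ (Additive (𝓞 K)ˣ) := by
    rintro x ⟨k, hk⟩
    refine ⟨k, ?_⟩
    have := congrArg e hk
    rw [map_zero] at this
    rw [← this]
    exact (map_smul e (k : ℤ) x).symm
  refine Nat.card_le_card_of_injective
    (fun x : Submodule.torsion ℤ (LinearMap.ker (actU σ - 1)) =>
      (⟨e x, hmem x x.2⟩ : Submodule.torsion ℤ (Additive (𝓞 K)ˣ))) ?_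
  intro x y hxy
  apply Subtype.ext
  exact he (congrArg Subtype.val hxy)

end

end Run7.h411.Cft
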