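import Mathlib

/-!
# Class field theory, part 3: tame inertia in abelian extensions
-/

set_option autoImplicit false

namespace Run7.h411.Cft

section

variable {R : Type*} [CommRing R] [IsDedekindDomain R] (P : Ideal R)

omit [IsDedekindDomain R] in
/-- The maps trivial modulo `P ^ 2` on `P` lower the filtration. -/
theorem lower (τ : R →+* R) (h1 : ∀ x, τ x - x ∈ P) (h2 : ∀ y ∈ P, τ y - y ∈ P ^ 2) (k : ℕ) :
    ∀ y ∈ P ^ (k + 1), τ y - y ∈ P ^ (k + 2) := by
  have hP : ∀ y ∈ P, τ y ∈ P := fun y hy => by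
    have := P.add_mem (h1 y) hy
    rwa [sub_add_cancel] at this
  induction k with
  | zero => intro y hy; rw [zero_add, pow_one] at hy; exact h2 y hy
  | succ k ih =>
    intro y hy
    rw [pow_succ] at hy
    refine Submodule.mul_induction_on hy (fun a ha b hb => ?_) (fun a b ha hb => ?_)
    · have e : τ (a * b) - a * b = (τ a - a) * τ b + a * (τ b - b) := by
        rw [map_mul]; ring
      rw [e]
      refine Ideal.add_mem _ ?_ ?_
      · have h3 := Ideal.mul_mem_mul (ih a ha) (hP b hb)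
        rw [← pow_succ] at h3
        exact h3
      · have h3 := Ideal.mul_mem_mul ha (h2 b hb)
        rw [← pow_add] at h3
        exact h3
    · have e : τ (a + b) - (a + b) = (τ a - a) + (τ b - b) := by
        rw [map_add]; ring
      rw [e]
      exact Ideal.add_mem _ ha hb

theorem wild [hPm : P.IsMaximal] [Finite (R ⧸ P)] (τ : R →+* R) (m : ℕ) (hm : (m : R) ∉ P)
    (h1 : ∀ x, τ x - x ∈ P) (h2 : ∀ y ∈ P, τ y - y ∈ P ^ 2) (hτm : ∀ x, (τ^[m]) x = x) (x : R) :
    τ x = x := by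
  classical
  let _ : Field (R ⧸ P) := Ideal.Quotient.field P
  let _ : Fintype (R ⧸ P) := Fintype.ofFinite _
  have hlow := lower P τ h1 h2
  -- trivial modulo `P ^ 2`
  have h3 : ∀ x, τ x - x ∈ P ^ 2 := by
    intro x
    set Q := Fintype.card (R ⧸ P) with hQ
    have hQP : (Q : R) ∈ P := by
      rw [← Ideal.Quotient.eq_zero_iff_mem, map_natCast]
      exact FiniteField.cast_card_eq_zero (R ⧸ P)
    have h4 : x ^ Q - x ∈ P := by
      rw [← Ideal.Quotient.eq_zero_iff_mem, map_sub, map_pow, FiniteField.pow_card, sub_self]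
    have h5 : τ (x ^ Q) - x ^ Q ∈ P ^ 2 := by
      set d := τ x - x with hd
      have hdP : d ∈ P := h1 x
      have e : τ x = x + d := by rw [hd]; ring
      rw [map_pow, e]
      obtain ⟨k, hk⟩ := Polynomial.powAddExpansion x d Q
      rw [hk]
      have e2 : x ^ Q + (Q : R) * x ^ (Q - 1) * d + k * d ^ 2 - x ^ Q =
          x ^ (Q - 1) * ((Q : R) * d) + k * d ^ 2 := by ring
      rw [e2]
      refine Ideal.add_mem _ (Ideal.mul_mem_left _ _ ?_) (Ideal.mul_mem_left _ _ ?_)
      · rw [pow_two]; exact Ideal.mul_mem_mul hQP hdP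
      · exact Ideal.pow_mem_pow hdP 2
    have h6 := h2 _ h4
    have e : τ x - x = (τ (x ^ Q) - x ^ Q) - (τ (x ^ Q - x) - (x ^ Q - x)) := by
      rw [map_sub]; ring
    rw [e]
    exact Ideal.sub_mem _ h5 h6
  have h4 : ∀ j : ℕ, ∀ x, τ x - x ∈ P ^ (j + 2) := by
    intro j
    induction j with
    | zero => exact h3
    | succ j ih =>
      intro x
      have h5 : ∀ k : ℕ, (τ^[k]) x - x - (k : R) * (τ x - x) ∈ P ^ (j + 3) := by
        intro k
        induction k with
        | zero => simp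
        | succ k ihk =>
          rw [Function.iterate_succ_apply']
          set e := (τ^[k]) x - x - (k : R) * (τ x - x) with he
          have e1 : (τ^[k]) x = x + (k : R) * (τ x - x) + e := by rw [he]; ring
          have e2 : τ ((τ^[k]) x) - x - ((k + 1 : ℕ) : R) * (τ x - x) =
              (k : R) * (τ (τ x - x) - (τ x - x)) + ((τ e - e) + e) := by
            rw [e1]
            simp only [map_add, map_sub, map_mul, map_natCast]
            push_cast
            ring
          rw [e2]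
          refine Ideal.add_mem _ (Ideal.mul_mem_left _ _ ?_) (Ideal.add_mem _ ?_ ihk)
          · exact hlow (j + 1) _ (ih x)
          · exact Ideal.pow_le_pow_right (by omega) (hlow (j + 2) _ ihk)
      have h6 := h5 m
      rw [hτm, sub_self, zero_sub, neg_mem_iff] at h6
      exact (Ideal.IsPrime.mul_mem_pow P h6).resolve_left hm
  have h5 : τ x - x ∈ (⨅ i : ℕ, P ^ i) := by
    rw [Ideal.mem_iInf]
    intro i
    exact Ideal.pow_le_pow_right (by omega) (h4 i x)
  rw [Ideal.iInf_pow_eq_bot_of_isDomain P hPm.ne_top, Ideal.mem_bot, sub_eq_zero] at h5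
  exact h5

theorem tame [hPm : P.IsMaximal] [Finite (R ⧸ P)] (hP0 : P ≠ ⊥) (τ φ : R →+* R)
    (hcomm : ∀ x, τ (φ x) = φ (τ x)) (m m' q : ℕ) (hm : (m : R) ∉ P) (hm' : 0 < m') (hq : 0 < q)
    (hτm : ∀ x, (τ^[m]) x = x) (hφm : ∀ x, (φ^[m']) x = x) (h1 : ∀ x, τ x - x ∈ P)
    (hφ : ∀ x, φ x - x ^ q ∈ P) (x : R) : (τ^[q - 1]) x = x := by
  have hP : ∀ y ∈ P, τ y ∈ P := fun y hy => by
    have := P.add_mem (h1 y) hy
    rwa [sub_add_cancel] at this
  have hP2 : ∀ y ∈ P ^ 2, τ y ∈ P ^ 2 := by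
    intro y hy
    have : τ y ∈ (P ^ 2).map τ := Ideal.mem_map_of_mem τ hy
    rw [Ideal.map_pow] at this
    exact Ideal.pow_right_mono (Ideal.map_le_iff_le_comap.2 hP) 2 this
  have hφP : ∀ y ∈ P, φ y ∈ P := fun y hy => by
    have := P.add_mem (hφ y) (P.pow_mem_of_mem hy q hq)
    rwa [sub_add_cancel] at this
  have hφP2 : ∀ y ∈ P ^ 2, φ y ∈ P ^ 2 := by
    intro y hy
    have : φ y ∈ (P ^ 2).map φ := Ideal.mem_map_of_mem φ hy
    rw [Ideal.map_pow] at this
    exact Ideal.pow_right_mono (Ideal.map_le_iff_le_comap.2 hφP) 2 this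
  obtain ⟨π, hπ, hπ2⟩ := Ideal.exists_mem_pow_notMem_pow_succ P hP0 hPm.ne_top 1
  have hπP : π ∈ P := by rwa [pow_one] at hπ
  have hτπ : τ π ∈ P ^ 1 := by rw [pow_one]; exact hP π hπP
  obtain ⟨t, e, he, ht⟩ := Ideal.exists_mul_add_mem_pow_succ hP0 π (τ π) hπ hπ2 hτπ
  have key1 : ∀ y ∈ P, τ y - t * y ∈ P ^ 2 := by
    intro y hy
    obtain ⟨d, e', he', hd⟩ := Ideal.exists_mul_add_mem_pow_succ hP0 π y hπ hπ2
      (by rw [pow_one]; exact hy)
    have e1 : τ y - t * y = t * (π * (τ d - d)) + (τ d * e + (τ e' - t * e')) := by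
      rw [← hd, map_add, map_mul, ← ht]; ring
    rw [e1]
    refine Ideal.add_mem _ (Ideal.mul_mem_left _ _ ?_) (Ideal.add_mem _
      (Ideal.mul_mem_left _ _ he) (Ideal.sub_mem _ (hP2 _ he') (Ideal.mul_mem_left _ _ he')))
    rw [pow_two]
    exact Ideal.mul_mem_mul hπP (h1 d)
  have hPk : ∀ k : ℕ, ∀ y ∈ P, (τ^[k]) y ∈ P := by
    intro k
    induction k with
    | zero => intro y hy; exact hy
    | succ k ih => intro y hy; rw [Function.iterate_succ_apply']; exact hP _ (ih y hy)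
  have key2 : ∀ k : ℕ, ∀ y ∈ P, (τ^[k]) y - t ^ k * y ∈ P ^ 2 := by
    intro k
    induction k with
    | zero => intro y _; simp
    | succ k ih =>
      intro y hy
      rw [Function.iterate_succ_apply']
      have e1 : τ ((τ^[k]) y) - t ^ (k + 1) * y = (τ ((τ^[k]) y) - t * (τ^[k]) y) +
          t * ((τ^[k]) y - t ^ k * y) := by ring
      rw [e1]
      exact Ideal.add_mem _ (key1 _ (hPk k y hy)) (Ideal.mul_mem_left _ _ (ih y hy))
  have hm0 : m ≠ 0 := by
    rintro rfl
    rw [Nat.cast_zero] at hm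
    exact hm P.zero_mem
  have htP : t ∉ P := by
    intro htP
    have h3 := key2 m π hπP
    rw [hτm] at h3
    have h4 : π * (1 - t ^ m) ∈ P ^ (1 + 1) := by
      have e1 : π * (1 - t ^ m) = π - t ^ m * π := by ring
      rw [e1]; exact h3
    have h5 := Ideal.mem_prime_of_mul_mem_pow hP0 hπ2 h4
    have h6 := P.add_mem h5 (P.pow_mem_of_mem htP m (Nat.pos_of_ne_zero hm0))
    rw [sub_add_cancel] at h6
    exact hPm.ne_top ((Ideal.eq_top_iff_one _).2 h6)
  have hφπ : φ π ∉ P ^ (1 + 1) := by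
    intro h
    have h3 : ∀ k : ℕ, (φ^[k + 1]) π ∈ P ^ 2 := by
      intro k
      induction k with
      | zero => exact h
      | succ k ih => rw [Function.iterate_succ_apply']; exact hφP2 _ ih
    obtain ⟨k, rfl⟩ : ∃ k, m' = k + 1 := ⟨m' - 1, by omega⟩
    have h4 := h3 k
    rw [hφm] at h4
    exact hπ2 h4
  have h3 : φ t - t ∈ P := by
    have h4 : φ (τ π - t * π) ∈ P ^ 2 := hφP2 _ (key1 π hπP)
    have h5 : τ (φ π) - t * φ π ∈ P ^ 2 := key1 _ (hφP π hπP)
    have h6 : φ π * (φ t - t) ∈ P ^ (1 + 1) := by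
      have e1 : φ π * (φ t - t) = (τ (φ π) - t * φ π) - φ (τ π - t * π) := by
        rw [hcomm, map_sub, map_mul]; ring
      rw [e1]
      exact Ideal.sub_mem _ h5 h4
    exact Ideal.mem_prime_of_mul_mem_pow hP0 hφπ h6
  have h4 : t ^ (q - 1) - 1 ∈ P := by
    have h5 : t * (t ^ (q - 1) - 1) ∈ P := by
      have e1 : t * (t ^ (q - 1) - 1) = (φ t - t) - (φ t - t ^ q) := by
        obtain ⟨q', rfl⟩ : ∃ q', q = q' + 1 := ⟨q - 1, by omega⟩
        rw [Nat.add_sub_cancel]
        ring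
      rw [e1]
      exact P.sub_mem h3 (hφ t)
    exact (hPm.isPrime.mem_or_mem h5).resolve_left htP
  have hθ : ∀ k : ℕ, ∀ y, (τ ^ k) y = (τ^[k]) y := by
    intro k y
    rw [RingHom.coe_pow]
  have h5 := wild P (τ ^ (q - 1)) m hm ?_ ?_ ?_ x
  · rw [hθ] at h5; exact h5
  · intro y
    rw [hθ]
    generalize q - 1 = k
    induction k with
    | zero => simp
    | succ k ih =>
      rw [Function.iterate_succ_apply']
      have e1 : τ ((τ^[k]) y) - y = (τ ((τ^[k]) y) - (τ^[k]) y) + ((τ^[k]) y - y) := by ring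
      rw [e1]
      exact P.add_mem (h1 _) ih
  · intro y hy
    rw [hθ]
    have e1 : (τ^[q - 1]) y - y = ((τ^[q - 1]) y - t ^ (q - 1) * y) + (t ^ (q - 1) - 1) * y := by
      ring
    rw [e1]
    refine Ideal.add_mem _ (key2 _ y hy) ?_
    rw [pow_two]
    exact Ideal.mul_mem_mul h4 hy
  · intro y
    have h6 : ⇑(τ ^ (q - 1)) = (τ^[q - 1]) := RingHom.coe_pow _ _
    rw [h6, ← Function.iterate_mul, mul_comm, Function.iterate_mul]
    have h7 : (τ^[m]) = id := funext hτm
    rw [h7, Function.iterate_id]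
    rfl

end

end Run7.h411.Cft
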