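import Pool.Agent.Run7.h411.Cft3

/-!
# Class field theory, part 4: lifting elements of inertia groups
-/

set_option autoImplicit false

namespace Run7.h411.Cft

open NumberField Module
open scoped Pointwise

section

variable {E Ω : Type} [Field E] [Field Ω] [Algebra E Ω]

theorem coe_smul' (σ : Gal(Ω/E)) (x : 𝓞 Ω) : ((σ • x : 𝓞 Ω) : Ω) = σ x := rfl

theorem smul_alg' (σ : Gal(Ω/E)) (a : 𝓞 E) :
    σ • (algebraMap (𝓞 E) (𝓞 Ω) a) = algebraMap (𝓞 E) (𝓞 Ω) a := by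
  apply RingOfIntegers.ext
  exact σ.commutes (a : E)

theorem smulComm' : SMulCommClass Gal(Ω/E) (𝓞 E) (𝓞 Ω) := by
  refine ⟨fun g a b => ?_⟩
  rw [Algebra.smul_def, Algebra.smul_def, smul_mul', smul_alg']

theorem isInv' [IsGalois E Ω] : Algebra.IsInvariant (𝓞 E) (𝓞 Ω) Gal(Ω/E) := by
  refine ⟨fun b hb => ?_⟩
  have h1 : (b : Ω) ∈ (⊥ : IntermediateField E Ω) := by
    rw [InfiniteGalois.mem_bot_iff_fixed]
    intro g
    exact congrArg (fun z : 𝓞 Ω => (z : Ω)) (hb g)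
  obtain ⟨k, hk⟩ := IntermediateField.mem_bot.1 h1
  have h2 : IsIntegral ℤ k := by
    have h3 : IsIntegral ℤ (algebraMap E Ω k) := by
      rw [hk]
      exact b.2
    exact (isIntegral_algebraMap_iff (algebraMap E Ω).injective).1 h3
  refine ⟨⟨k, h2⟩, ?_⟩
  apply RingOfIntegers.ext
  exact hk

theorem continuousSMul' [TopologicalSpace (𝓞 Ω)] [DiscreteTopology (𝓞 Ω)] [IsGalois E Ω] :
    ContinuousSMul Gal(Ω/E) (𝓞 Ω) := by
  rw [continuousSMul_iff_stabilizer_isOpen]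
  intro x
  have h1 := stabilizer_isOpen_of_isIntegral (K := E) (x : Ω)
  convert h1 using 2
  ext g
  rw [MulAction.mem_stabilizer_iff, MulAction.mem_stabilizer_iff]
  constructor
  · intro h
    exact congrArg (fun z : 𝓞 Ω => (z : Ω)) h
  · intro h
    exact RingOfIntegers.ext h

/-- **Lifting elements of inertia groups.** -/
theorem lift_inertia [IsGalois E Ω] (M : IntermediateField E Ω) [IsGalois E M] (Q : Ideal (𝓞 Ω))
    [hQ : Q.IsMaximal] (τ : Gal(M/E))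
    (hτ : ∀ x : 𝓞 M, algebraMap (𝓞 M) (𝓞 Ω) (τ • x - x) ∈ Q) :
    ∃ σ : Gal(Ω/E), AlgEquiv.restrictNormalHom M σ = τ ∧ ∀ x : 𝓞 Ω, σ • x - x ∈ Q := by
  classical
  obtain ⟨σ0, hσ0⟩ := AlgEquiv.restrictNormalHom_surjective (F := E) (K₁ := M) Ω τ
  have : SMulCommClass Gal(Ω/M) (𝓞 M) (𝓞 Ω) := smulComm'
  have : Algebra.IsInvariant (𝓞 M) (𝓞 Ω) Gal(Ω/M) := isInv'
  let _ : TopologicalSpace (𝓞 Ω) := ⊥
  have : DiscreteTopology (𝓞 Ω) := ⟨rfl⟩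
  have : ContinuousSMul Gal(Ω/M) (𝓞 Ω) := continuousSMul'
  -- the action on `M`
  have hres : ∀ (σ : Gal(Ω/E)) (x : 𝓞 M), σ • (algebraMap (𝓞 M) (𝓞 Ω) x) =
      algebraMap (𝓞 M) (𝓞 Ω) (AlgEquiv.restrictNormalHom M σ • x) := by
    intro σ x
    apply RingOfIntegers.ext
    exact (AlgEquiv.restrictNormal_commutes σ M (x : M)).symm
  -- elements of `Gal(Ω/M)` as elements of `Gal(Ω/E)`
  let ext : Gal(Ω/M) → Gal(Ω/E) := fun ν => ν.restrictScalars E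
  have hext : ∀ (ν : Gal(Ω/M)) (x : 𝓞 Ω), ext ν • x = ν • x := fun ν x => rfl
  have hextr : ∀ ν : Gal(Ω/M), AlgEquiv.restrictNormalHom M (ext ν) = 1 := by
    intro ν
    ext x
    have h1 := AlgEquiv.restrictNormal_commutes (ext ν) M x
    exact h1.trans (ν.commutes x)
  set P : Ideal (𝓞 M) := Q.under (𝓞 M) with hP
  have hmemP : ∀ x : 𝓞 M, x ∈ P ↔ algebraMap (𝓞 M) (𝓞 Ω) x ∈ Q := fun x => Iff.rfl
  have hτP : ∀ x : 𝓞 M, τ⁻¹ • x - x ∈ P := by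
    intro x
    have h1 : τ • (τ⁻¹ • x) - τ⁻¹ • x ∈ P := (hmemP _).2 (hτ (τ⁻¹ • x))
    rw [smul_inv_smul] at h1
    have h2 := P.neg_mem h1
    rwa [neg_sub] at h2
  have hunder : (σ0 • Q).under (𝓞 M) = Q.under (𝓞 M) := by
    ext x
    show algebraMap (𝓞 M) (𝓞 Ω) x ∈ σ0 • Q ↔ x ∈ P
    rw [Ideal.mem_pointwise_smul_iff_inv_smul_mem, hres, map_inv, hσ0, ← hmemP]
    constructor
    · intro h
      have := P.sub_mem h (hτP x)
      rwa [sub_sub_cancel] at this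
    · intro h
      have := P.add_mem (hτP x) h
      rwa [sub_add_cancel] at this
  have hQp : Q.IsPrime := hQ.isPrime
  have hQ0 : (σ0 • Q).IsPrime := (Ideal.IsPrime.smul_iff σ0).2 hQp
  obtain ⟨ν, hν⟩ := Algebra.IsInvariant.exists_smul_of_under_eq_of_profinite (A := 𝓞 M)
    (G := Gal(Ω/M)) (σ0 • Q) Q hunder
  set σ1 : Gal(Ω/E) := ext ν * σ0 with hσ1
  have hσ1Q : σ1 • Q = Q := by
    rw [hσ1, mul_smul]
    exact hν.symm
  have hσ1r : AlgEquiv.restrictNormalHom M σ1 = τ := by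
    rw [hσ1, map_mul, hextr, one_mul, hσ0]
  -- the automorphism of the residue field
  have hmap : Q = Q.map (MulSemiringAction.toRingEquiv Gal(Ω/E) (𝓞 Ω) σ1) := hσ1Q.symm
  let l : ((𝓞 Ω) ⧸ Q) ≃+* ((𝓞 Ω) ⧸ Q) :=
    Ideal.quotientEquiv Q Q (MulSemiringAction.toRingEquiv Gal(Ω/E) (𝓞 Ω) σ1) hmap
  have hl : ∀ x : 𝓞 Ω, l (Ideal.Quotient.mk Q x) = Ideal.Quotient.mk Q (σ1 • x) := fun x => rfl
  let l' : ((𝓞 Ω) ⧸ Q) ≃ₐ[(𝓞 M) ⧸ P] ((𝓞 Ω) ⧸ Q) := AlgEquiv.ofRingEquiv (f := l) (by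
    intro r
    obtain ⟨r, rfl⟩ := Ideal.Quotient.mk_surjective r
    show l (Ideal.Quotient.mk Q (algebraMap (𝓞 M) (𝓞 Ω) r)) =
      Ideal.Quotient.mk Q (algebraMap (𝓞 M) (𝓞 Ω) r)
    rw [hl, hres, hσ1r, Ideal.Quotient.eq, ← map_sub]
    exact hτ r)
  obtain ⟨ν2, hν2⟩ := Ideal.Quotient.stabilizerHom_surjective_of_profinite (G := Gal(Ω/M)) P Q l'
  refine ⟨(ext ν2.1)⁻¹ * σ1, by rw [map_mul, map_inv, hextr, inv_one, one_mul, hσ1r], fun x => ?_⟩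
  have h1 := DFunLike.congr_fun hν2 (Ideal.Quotient.mk Q x)
  rw [Ideal.Quotient.stabilizerHom_apply] at h1
  have h2 : ν2.1 • x - σ1 • x ∈ Q := by
    rw [← Ideal.Quotient.eq]
    exact h1
  have h3 : (ext ν2.1) • (((ext ν2.1)⁻¹ * σ1) • x - x) ∈ Q := by
    rw [smul_sub, mul_smul, smul_inv_smul, hext]
    have := Q.neg_mem h2
    rwa [neg_sub] at this
  have h4 : ν2.1 • Q = Q := ν2.2
  have h5 : (ext ν2.1) • (((ext ν2.1)⁻¹ * σ1) • x - x) ∈ ν2.1 • Q := by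
    rw [h4]; exact h3
  exact Ideal.smul_mem_pointwise_smul_iff.1 h5

end

end Run7.h411.Cft
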