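import Pool.Agent.Run7.h411.Cft2
import Pool.Agent.Run7.h411.Cft4

/-!
# Class field theory, part 5: unramified additive characters over a totally complex field
-/

set_option autoImplicit false

namespace Run7.h411.Cft

open NumberField Module
open scoped Pointwise

section

variable {E Ω : Type} [Field E] [Field Ω] [Algebra E Ω]

theorem open_field [IsGalois E Ω] (V : Subgroup Gal(Ω/E)) (hV : IsOpen (V : Set Gal(Ω/E))) :
    (IntermediateField.fixedField V).fixingSubgroup = V ∧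
    FiniteDimensional E (IntermediateField.fixedField V) ∧
    (V.Normal → IsGalois E (IntermediateField.fixedField V)) := by
  have hcl : IsClosed (V : Set Gal(Ω/E)) := V.isClosed_of_isOpen hV
  have h1 : (IntermediateField.fixedField V).fixingSubgroup = V :=
    InfiniteGalois.fixingSubgroup_fixedField ⟨V, hcl⟩
  refine ⟨h1, ?_, fun hn => ?_⟩
  · rw [← InfiniteGalois.isOpen_iff_finite]
    rw [h1]
    exact hV
  · rw [← InfiniteGalois.normal_iff_isGalois, h1]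
    exact hn

variable {ℓ : ℕ} [hl : Fact ℓ.Prime]

theorem add_pow (h : Gal(Ω/E) → ℚ_[ℓ]) (hadd : ∀ σ τ, h (σ * τ) = h σ + h τ) (σ : Gal(Ω/E))
    (k : ℕ) : h (σ ^ k) = k * h σ := by
  have h1 : h 1 = 0 := by
    have := hadd 1 1
    rw [mul_one] at this
    linear_combination -this
  induction k with
  | zero => rw [pow_zero, h1, Nat.cast_zero, zero_mul]
  | succ k ih => rw [pow_succ, hadd, ih]; push_cast; ring

theorem add_inv (h : Gal(Ω/E) → ℚ_[ℓ]) (hadd : ∀ σ τ, h (σ * τ) = h σ + h τ) (σ : Gal(Ω/E)) :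
    h σ⁻¹ = - h σ := by
  have h1 : h 1 = 0 := by
    have := hadd 1 1
    rw [mul_one] at this
    linear_combination -this
  have := hadd σ⁻¹ σ
  rw [inv_mul_cancel, h1] at this
  linear_combination -this

/-- The subgroup of the elements with small values. -/
def lvl (h : Gal(Ω/E) → ℚ_[ℓ]) (hadd : ∀ σ τ, h (σ * τ) = h σ + h τ) (n : ℕ) :
    Subgroup Gal(Ω/E) where
  carrier := {σ | ‖h σ‖ ≤ (ℓ : ℝ) ^ (-n : ℤ)}
  mul_mem' := by
    intro a b ha hb
    rw [Set.mem_ofPred_eq, hadd]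
    exact (IsUltrametricDist.norm_add_le_max _ _).trans (max_le ha hb)
  one_mem' := by
    have h1 : h 1 = 0 := by
      have := hadd 1 1
      rw [mul_one] at this
      linear_combination -this
    rw [Set.mem_ofPred_eq, h1, norm_zero]
    positivity
  inv_mem' := by
    intro a ha
    rw [Set.mem_ofPred_eq, add_inv h hadd, norm_neg]
    exact ha

theorem mem_lvl {h : Gal(Ω/E) → ℚ_[ℓ]} {hadd : ∀ σ τ, h (σ * τ) = h σ + h τ} {n : ℕ}
    {σ : Gal(Ω/E)} : σ ∈ lvl h hadd n ↔ ‖h σ‖ ≤ (ℓ : ℝ) ^ (-n : ℤ) := Iff.rfl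

theorem lvl_open (h : Gal(Ω/E) → ℚ_[ℓ]) (hadd : ∀ σ τ, h (σ * τ) = h σ + h τ)
    (hc : Continuous h) (n : ℕ) : IsOpen (lvl h hadd n : Set Gal(Ω/E)) := by
  have h1 : (lvl h hadd n : Set Gal(Ω/E)) = h ⁻¹' (Metric.closedBall 0 ((ℓ : ℝ) ^ (-n : ℤ))) := by
    ext σ
    rw [SetLike.mem_coe, mem_lvl, Set.mem_preimage, mem_closedBall_zero_iff]
  rw [h1]
  refine (IsUltrametricDist.isOpen_closedBall (0 : ℚ_[ℓ]) ?_).preimage hc
  have : (0 : ℝ) < ℓ := by exact_mod_cast hl.out.pos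
  positivity

theorem lvl_normal (h : Gal(Ω/E) → ℚ_[ℓ]) (hadd : ∀ σ τ, h (σ * τ) = h σ + h τ) (n : ℕ) :
    (lvl h hadd n).Normal := by
  refine ⟨fun σ hσ τ => ?_⟩
  rw [mem_lvl, hadd, hadd, add_inv h hadd]
  rw [mem_lvl] at hσ
  have : h τ + h σ + -h τ = h σ := by ring
  rw [this]
  exact hσ

/-- The layer of level `n`: it is cyclic of degree `ℓ ^ n`. -/
theorem layer [IsGalois E Ω] (h : Gal(Ω/E) → ℚ_[ℓ]) (hadd : ∀ σ τ, h (σ * τ) = h σ + h τ)
    (hc : Continuous h) (hle : ∀ σ, ‖h σ‖ ≤ 1) (g : Gal(Ω/E)) (hg : h g = 1) (n : ℕ)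
    (M : IntermediateField E Ω) (hM : M = IntermediateField.fixedField (lvl h hadd n))
    [IsGalois E M] :
    (∀ σ : Gal(Ω/E), AlgEquiv.restrictNormalHom M σ = 1 ↔ ‖h σ‖ ≤ (ℓ : ℝ) ^ (-n : ℤ)) ∧
    (∀ τ : Gal(M/E), τ ∈ Subgroup.zpowers (AlgEquiv.restrictNormalHom M g)) ∧
    Nat.card Gal(M/E) = ℓ ^ n := by
  have h1 : ∀ σ : Gal(Ω/E), AlgEquiv.restrictNormalHom M σ = 1 ↔
      ‖h σ‖ ≤ (ℓ : ℝ) ^ (-n : ℤ) := by
    intro σ
    rw [← MonoidHom.mem_ker, IntermediateField.restrictNormalHom_ker, hM,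
      (open_field (lvl h hadd n) (lvl_open h hadd hc n)).1, mem_lvl]
  have h2 : ∀ τ : Gal(M/E), τ ∈ Subgroup.zpowers (AlgEquiv.restrictNormalHom M g) := by
    intro τ
    obtain ⟨σ, rfl⟩ := AlgEquiv.restrictNormalHom_surjective (F := E) (K₁ := M) Ω τ
    set z : ℤ_[ℓ] := ⟨h σ, hle σ⟩ with hz
    have h3 := (PadicInt.norm_le_pow_iff_mem_span_pow (z - (z.appr n : ℤ_[ℓ])) n).2
      (z.appr_spec n)
    rw [PadicInt.norm_def] at h3
    have h4 : ((z - (z.appr n : ℤ_[ℓ]) : ℤ_[ℓ]) : ℚ_[ℓ]) = h (σ * (g ^ (z.appr n))⁻¹) := by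
      rw [hadd, add_inv h hadd, add_pow h hadd, hg, mul_one]
      push_cast
      rw [hz]
      ring
    rw [h4] at h3
    have h5 := (h1 _).2 h3
    rw [map_mul, map_inv, map_pow, mul_inv_eq_one] at h5
    rw [h5]
    exact Subgroup.pow_mem _ (Subgroup.mem_zpowers _) _
  refine ⟨h1, h2, ?_⟩
  rw [← orderOf_eq_card_of_forall_mem_zpowers h2]
  have h6 : ∀ k : ℕ, (AlgEquiv.restrictNormalHom M g) ^ k = 1 ↔ ℓ ^ n ∣ k := by
    intro k
    rw [← map_pow, h1, add_pow h hadd, hg, mul_one]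
    have h7 := Padic.norm_int_le_pow_iff_dvd (p := ℓ) (k : ℤ) n
    rw [Int.cast_natCast] at h7
    rw [h7]
    exact_mod_cast Iff.rfl
  exact Nat.dvd_antisymm (orderOf_dvd_of_pow_eq_one ((h6 _).2 dvd_rfl))
    ((h6 _).1 (pow_orderOf_eq_one _))

theorem iter_act {G R : Type*} [Group G] [Semiring R] [MulSemiringAction G R] (τ : G) (k : ℕ)
    (x : R) : ((MulSemiringAction.toRingHom G R τ)^[k]) x = τ ^ k • x := by
  induction k with
  | zero => rw [pow_zero, one_smul]; rfl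
  | succ k ih =>
    rw [Function.iterate_succ_apply', ih, pow_succ', mul_smul]
    rfl

theorem tend_zero (x : ℚ_[ℓ]) (hx : ∀ n : ℕ, ‖x‖ ≤ (ℓ : ℝ) ^ (-n : ℤ)) : x = 0 := by
  by_contra h0
  have h1 : 0 < ‖x‖ := norm_pos_iff.2 h0
  have hl1 : (1 : ℝ) < ℓ := by exact_mod_cast hl.out.one_lt
  obtain ⟨n, hn⟩ := pow_unbounded_of_one_lt (‖x‖⁻¹) hl1
  have h2 := hx n
  rw [zpow_neg, zpow_natCast] at h2
  have h3 : (0 : ℝ) < (ℓ : ℝ) ^ n := by positivity
  have h4 : ((ℓ : ℝ) ^ n)⁻¹ < ‖x‖ := inv_lt_of_inv_lt₀ h1 hn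
  linarith

/-- Elements of tame inertia groups are mapped to zero. -/
theorem tame_zero [NumberField E] [IsGalois E Ω] (h : Gal(Ω/E) → ℚ_[ℓ])
    (hadd : ∀ σ τ, h (σ * τ) = h σ + h τ)
    (hc : Continuous h) (hle : ∀ σ, ‖h σ‖ ≤ 1) (g : Gal(Ω/E)) (hg : h g = 1)
    (Q : Ideal (𝓞 Ω)) [hQ : Q.IsMaximal] (hlQ : (ℓ : 𝓞 Ω) ∉ Q) (σ : Gal(Ω/E))
    (hσ : ∀ x : 𝓞 Ω, σ • x - x ∈ Q) : h σ = 0 := by
  classical
  have hint : Algebra.IsIntegral (𝓞 E) (𝓞 Ω) := Algebra.IsIntegral.tower_top (R := ℤ)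
  have hp0m : (Q.under (𝓞 E)).IsMaximal := Ideal.IsMaximal.under (𝓞 E) Q
  have hp0 : Q.under (𝓞 E) ≠ ⊥ :=
    Ring.ne_bot_of_isMaximal_of_not_isField hp0m (RingOfIntegers.not_isField E)
  set q := Nat.card (𝓞 E ⧸ Q.under (𝓞 E)) with hq
  have hfinq : Finite (𝓞 E ⧸ Q.under (𝓞 E)) := Ideal.finiteQuotientOfFreeOfNeBot _ hp0
  have hq1 : 1 < q := by
    have : Nontrivial (𝓞 E ⧸ Q.under (𝓞 E)) := Ideal.Quotient.nontrivial_iff.2 hp0m.ne_top
    exact Finite.one_lt_card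
  have key : ∀ n : ℕ, ‖((q - 1 : ℕ) : ℚ_[ℓ]) * h σ‖ ≤ (ℓ : ℝ) ^ (-n : ℤ) := by
    intro n
    obtain ⟨hM1, hM2, hM3⟩ := open_field (lvl h hadd n) (lvl_open h hadd hc n)
    set M := IntermediateField.fixedField (lvl h hadd n) with hM
    have : IsGalois E M := hM3 (lvl_normal h hadd n)
    have : NumberField M := NumberField.of_module_finite E M
    obtain ⟨h1, h2, h3⟩ := layer h hadd hc hle g hg n M hM
    have hintM : Algebra.IsIntegral (𝓞 M) (𝓞 Ω) := Algebra.IsIntegral.tower_top (R := ℤ)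
    set P := Q.under (𝓞 M) with hP
    have hPm : P.IsMaximal := Ideal.IsMaximal.under (𝓞 M) Q
    have hP0 : P ≠ ⊥ := Ring.ne_bot_of_isMaximal_of_not_isField hPm (RingOfIntegers.not_isField M)
    have hfinP : Finite (𝓞 M ⧸ P) := Ideal.finiteQuotientOfFreeOfNeBot _ hP0
    have hPE : P.under (𝓞 E) = Q.under (𝓞 E) := Ideal.under_under Q
    obtain ⟨φ, hφ⟩ := IsArithFrobAt.exists_of_isInvariant (𝓞 E) Gal(M/E) P
    set τ := AlgEquiv.restrictNormalHom M σ with hτ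
    have hτ1 : ∀ x : 𝓞 M, τ • x - x ∈ P := by
      intro x
      show algebraMap (𝓞 M) (𝓞 Ω) (τ • x - x) ∈ Q
      have h4 : algebraMap (𝓞 M) (𝓞 Ω) (τ • x - x) =
          σ • (algebraMap (𝓞 M) (𝓞 Ω) x) - algebraMap (𝓞 M) (𝓞 Ω) x := by
        rw [map_sub]
        congr 1
        apply RingOfIntegers.ext
        exact AlgEquiv.restrictNormal_commutes σ M (x : M)
      rw [h4]
      exact hσ _
    have hcomm : τ * φ = φ * τ := by
      obtain ⟨a, ha⟩ := Subgroup.mem_zpowers_iff.1 (h2 τ)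
      obtain ⟨b, hb⟩ := Subgroup.mem_zpowers_iff.1 (h2 φ)
      rw [← ha, ← hb, ← zpow_add, ← zpow_add, add_comm]
    have hfaith : FaithfulSMul Gal(M/E) (𝓞 M) :=
      (inferInstance : IsGaloisGroup Gal(M/E) (𝓞 E) (𝓞 M)).faithful
    have h4 : τ ^ (q - 1) = 1 := by
      apply FaithfulSMul.eq_of_smul_eq_smul (M := Gal(M/E)) (α := 𝓞 M)
      intro x
      rw [← iter_act, one_smul]
      refine tame P hP0 (MulSemiringAction.toRingHom Gal(M/E) (𝓞 M) τ)
        (MulSemiringAction.toRingHom Gal(M/E) (𝓞 M) φ) ?_ (ℓ ^ n) (ℓ ^ n) q ?_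
        (pow_pos hl.out.pos n) (by omega) ?_ ?_ hτ1 ?_ x
      · intro y
        show τ • φ • y = φ • τ • y
        rw [← mul_smul, hcomm, mul_smul]
      · intro h5
        apply hlQ
        have h6 : algebraMap (𝓞 M) (𝓞 Ω) ((ℓ ^ n : ℕ) : 𝓞 M) ∈ Q := h5
        rw [map_natCast, Nat.cast_pow] at h6
        exact hQ.isPrime.mem_of_pow_mem _ h6
      · intro y
        rw [iter_act, ← h3, pow_card_eq_one', one_smul]
      · intro y
        rw [iter_act, ← h3, pow_card_eq_one', one_smul]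
      · intro y
        have h6 := hφ y
        rw [hPE] at h6
        exact h6
    rw [hτ, ← map_pow, h1, add_pow h hadd] at h4
    exact h4
  have h5 := tend_zero _ key
  rcases mul_eq_zero.1 h5 with h6 | h6
  · exfalso
    have : (q - 1 : ℕ) = 0 := by exact_mod_cast h6
    omega
  · exact h6

/-- **No unramified additive characters over a totally complex number field.** -/
theorem main_complex [NumberField E] [IsTotallyComplex E] [IsGalois E Ω] (f : Gal(Ω/E) → ℚ_[ℓ])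
    (hadd : ∀ σ τ, f (σ * τ) = f σ + f τ) (hc : Continuous f)
    (hI : ∀ Q : Ideal (𝓞 Ω), Q.IsMaximal → (ℓ : 𝓞 Ω) ∈ Q → ∀ σ : Gal(Ω/E),
      (∀ x : 𝓞 Ω, σ • x - x ∈ Q) → f σ = 0) (σ : Gal(Ω/E)) : f σ = 0 := by
  classical
  by_contra hσ0
  obtain ⟨g, -, hgmax⟩ := IsCompact.exists_isMaxOn (isCompact_univ (X := Gal(Ω/E)))
    ⟨1, Set.mem_univ _⟩ (continuous_norm.comp hc).continuousOn
  have hgmax' : ∀ τ, ‖f τ‖ ≤ ‖f g‖ := fun τ => hgmax (Set.mem_univ τ)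
  have hg0 : f g ≠ 0 := by
    intro h0
    have h1 := hgmax' σ
    rw [h0, norm_zero, norm_le_zero_iff] at h1
    exact hσ0 h1
  set h : Gal(Ω/E) → ℚ_[ℓ] := fun τ => f τ / f g with hh
  have hadd' : ∀ σ τ, h (σ * τ) = h σ + h τ := by
    intro a b
    simp only [hh]
    rw [hadd, add_div]
  have hc' : Continuous h := hc.div_const _
  have hle : ∀ σ, ‖h σ‖ ≤ 1 := by
    intro a
    simp only [hh]
    rw [norm_div]
    exact div_le_one_of_le₀ (hgmax' a) (norm_nonneg _)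
  have hg1 : h g = 1 := div_self hg0
  -- all inertia groups are mapped to zero
  have hall : ∀ Q : Ideal (𝓞 Ω), Q.IsMaximal → ∀ σ : Gal(Ω/E),
      (∀ x : 𝓞 Ω, σ • x - x ∈ Q) → h σ = 0 := by
    intro Q hQ a ha
    by_cases hlQ : (ℓ : 𝓞 Ω) ∈ Q
    · simp only [hh]
      rw [hI Q hQ hlQ a ha, zero_div]
    · exact tame_zero h hadd' hc' hle g hg1 Q hlQ a ha
  have key : ∀ n : ℕ, ℓ ^ n ≤
      Nat.card (ClassGroup (𝓞 E)) * Nat.card (Submodule.torsion ℤ (Additive (𝓞 E)ˣ)) := by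
    intro n
    obtain ⟨hM1, hM2, hM3⟩ := open_field (lvl h hadd' n) (lvl_open h hadd' hc' n)
    set M := IntermediateField.fixedField (lvl h hadd' n) with hM
    have : IsGalois E M := hM3 (lvl_normal h hadd' n)
    have : NumberField M := NumberField.of_module_finite E M
    obtain ⟨h1, h2, h3⟩ := layer h hadd' hc' hle g hg1 n M hM
    refine finite_level ℓ n (AlgEquiv.restrictNormalHom M g) h2 h3 ?_
    intro P hP τ hτ
    have hintM : Algebra.IsIntegral (𝓞 M) (𝓞 Ω) := Algebra.IsIntegral.tower_top (R := ℤ)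
    obtain ⟨Q, hQm, hQP⟩ := Ideal.exists_ideal_over_maximal_of_isIntegral (S := 𝓞 Ω) P (by
      rw [(RingHom.injective_iff_ker_eq_bot _).1 (FaithfulSMul.algebraMap_injective (𝓞 M) (𝓞 Ω))]
      exact bot_le)
    obtain ⟨a, ha1, ha2⟩ := lift_inertia M Q τ (fun x => by
      have h4 := hτ x
      rw [← hQP] at h4
      exact h4)
    rw [← ha1, h1, hall Q hQm a ha2, norm_zero]
    have : (0 : ℝ) < ℓ := by exact_mod_cast hl.out.pos
    positivity
  have hlt := Nat.lt_pow_self hl.out.one_lt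
    (n := Nat.card (ClassGroup (𝓞 E)) * Nat.card (Submodule.torsion ℤ (Additive (𝓞 E)ˣ)))
  exact absurd (key _) (not_le.2 hlt)

end

end Run7.h411.Cft
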