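import Pool.Agent.Run7.h411.Cft5

/-!
# Class field theory, part 6: open subgroups of the absolute Galois group
-/

set_option autoImplicit false

namespace Run7.h411.Cft

open NumberField Module Topology
open scoped Pointwise

section

variable {K Ω : Type} [Field K] [NumberField K] [Field Ω] [Algebra K Ω] [IsGalois K Ω]
  {ℓ : ℕ} [hl : Fact ℓ.Prime]

omit [NumberField K] [IsGalois K Ω] in
/-- The restriction of scalars is continuous. -/
theorem continuous_restr [Algebra.IsAlgebraic K Ω] (F : IntermediateField K Ω) :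
    Continuous (fun τ : Gal(Ω/F) => (τ.restrictScalars K : Gal(Ω/K))) := by
  let r : Gal(Ω/F) →* Gal(Ω/K) :=
    { toFun := fun τ => τ.restrictScalars K
      map_one' := rfl
      map_mul' := fun _ _ => rfl }
  have h1 : Continuous r := by
    apply continuous_of_continuousAt_one
    rw [ContinuousAt, map_one]
    intro s hs
    obtain ⟨L, hL, hLs⟩ := (krullTopology_mem_nhds_one_iff K Ω s).1 hs
    rw [Filter.mem_map, krullTopology_mem_nhds_one_iff]
    let b := Module.finBasis K L
    have hfin : (Set.range fun i => ((b i : L) : Ω)).Finite := Set.finite_range _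
    refine ⟨IntermediateField.adjoin F (Set.range fun i => ((b i : L) : Ω)), ?_, ?_⟩
    · have := hfin.to_subtype
      exact IntermediateField.finiteDimensional_adjoin fun x _ =>
        (Algebra.IsIntegral.isIntegral (R := K) x).tower_top
    · intro τ hτ
      apply hLs
      rw [SetLike.mem_coe, IntermediateField.mem_fixingSubgroup_iff] at hτ ⊢
      intro x hx
      refine hτ x ?_
      have h2 := congrArg (fun z : L => (z : Ω)) (b.sum_repr ⟨x, hx⟩)
      have h3 : x = ∑ i, ((b.repr ⟨x, hx⟩ i • b i : L) : Ω) := by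
        rw [← IntermediateField.coe_sum]
        exact h2.symm
      rw [h3]
      refine sum_mem fun i _ => ?_
      have h4 : ((b.repr ⟨x, hx⟩ i • b i : L) : Ω) =
          algebraMap K Ω (b.repr ⟨x, hx⟩ i) * ((b i : L) : Ω) := by
        rw [IntermediateField.coe_smul, Algebra.smul_def]
      rw [h4]
      refine mul_mem ?_ (IntermediateField.subset_adjoin F _ ⟨i, rfl⟩)
      have h5 : algebraMap K Ω (b.repr ⟨x, hx⟩ i) =
          algebraMap F Ω (algebraMap K F (b.repr ⟨x, hx⟩ i)) := rfl
      rw [h5]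
      exact (IntermediateField.adjoin F _).algebraMap_mem _
  exact h1

omit [IsGalois K Ω] in
theorem totally_complex (F : Type) [Field F] [NumberField F] (x : F) (hx : x ^ 2 = -1) :
    IsTotallyComplex F := by
  refine ⟨fun v => ?_⟩
  rw [← InfinitePlace.not_isReal_iff_isComplex]
  intro hv
  have h1 := congrArg (InfinitePlace.embedding_of_isReal hv) hx
  rw [map_pow, map_neg, map_one] at h1
  nlinarith [sq_nonneg (InfinitePlace.embedding_of_isReal hv x)]

/-- **No unramified additive characters.** -/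
theorem main_open (i : Ω) (hi : i ^ 2 = -1) (U : Subgroup Gal(Ω/K))
    (hU : IsOpen (U : Set Gal(Ω/K)))
    (f : Gal(Ω/K) → ℚ_[ℓ]) (hf : ContinuousOn f U)
    (hadd : ∀ σ ∈ U, ∀ τ ∈ U, f (σ * τ) = f σ + f τ)
    (hI : ∀ Q : Ideal (𝓞 Ω), Q.IsMaximal → (ℓ : 𝓞 Ω) ∈ Q →
      ∃ O : Set Gal(Ω/K), IsOpen O ∧ (1 : Gal(Ω/K)) ∈ O ∧ ∀ σ ∈ O, (∀ x : 𝓞 Ω, σ • x - x ∈ Q) →
        σ ∈ U → f σ = 0) : ∀ σ ∈ U, f σ = 0 := by
  classical
  have hi2 : IsIntegral K i := Algebra.IsIntegral.isIntegral i
  -- additivity of powers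
  have hpow : ∀ σ ∈ U, ∀ k : ℕ, f (σ ^ k) = k * f σ := by
    intro σ hσ k
    have h1 : f 1 = 0 := by
      have := hadd 1 U.one_mem 1 U.one_mem
      rw [mul_one] at this
      linear_combination -this
    induction k with
    | zero => rw [pow_zero, h1, Nat.cast_zero, zero_mul]
    | succ k ih => rw [pow_succ, hadd _ (U.pow_mem hσ k) _ hσ, ih]; push_cast; ring
  -- the smaller open subgroup
  set L := IntermediateField.adjoin K {i} with hL
  have hLfin : FiniteDimensional K L := IntermediateField.adjoin.finiteDimensional hi2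
  have hLo : IsOpen (L.fixingSubgroup : Set Gal(Ω/K)) := L.fixingSubgroup_isOpen
  set V : Subgroup Gal(Ω/K) := U ⊓ L.fixingSubgroup with hV
  have hVo : IsOpen (V : Set Gal(Ω/K)) := hU.inter hLo
  obtain ⟨hF1, hF2, -⟩ := open_field V hVo
  set F := IntermediateField.fixedField V with hF
  have hFn : NumberField F := NumberField.of_module_finite K F
  have hiF : i ∈ F := by
    rw [hF, IntermediateField.mem_fixedField_iff]
    intro τ hτ
    have h1 : τ ∈ L.fixingSubgroup := (Subgroup.mem_inf.1 hτ).2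
    rw [IntermediateField.mem_fixingSubgroup_iff] at h1
    exact h1 i (IntermediateField.mem_adjoin_simple_self K i)
  have hFc : IsTotallyComplex F := totally_complex F ⟨i, hiF⟩ (Subtype.ext hi)
  have hmem : ∀ τ : Gal(Ω/F), (τ.restrictScalars K : Gal(Ω/K)) ∈ V := by
    intro τ
    rw [← hF1, IntermediateField.mem_fixingSubgroup_iff]
    intro x hx
    exact τ.commutes ⟨x, hx⟩
  have hVU : V ≤ U := inf_le_left
  have key := main_complex (E := F) (Ω := Ω) (ℓ := ℓ)
    (fun τ => f (τ.restrictScalars K)) (fun a b => by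
      exact hadd _ (hVU (hmem a)) _ (hVU (hmem b))) ?_ ?_
  · -- from `V` to `U`
    have hV0 : ∀ σ ∈ V, f σ = 0 := by
      intro σ hσ
      have hσ' : ∀ x : F, σ x = x := by
        intro x
        rw [← hF1, IntermediateField.mem_fixingSubgroup_iff] at hσ
        exact hσ x x.2
      let τ : Gal(Ω/F) := AlgEquiv.ofRingEquiv (f := σ.toRingEquiv) (fun r => hσ' r)
      have h1 := key τ
      have h2 : (τ.restrictScalars K : Gal(Ω/K)) = σ := by
        ext x; rfl
      simp only [h2] at h1
      exact h1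
    intro σ hσ
    obtain ⟨k, hk, hkV⟩ : ∃ k : ℕ, 0 < k ∧ σ ^ k ∈ V := by
      have hq : Finite (Gal(Ω/K) ⧸ V) := V.quotient_finite_of_isOpen hVo
      have : V.FiniteIndex := Subgroup.finiteIndex_of_finite_quotient
      obtain ⟨k, hk, hk2⟩ := Subgroup.exists_pow_mem_of_index_ne_zero V.index_ne_zero_of_finite σ
      exact ⟨k, hk, hk2.2⟩
    have h1 := hV0 _ hkV
    rw [hpow σ hσ] at h1
    rcases mul_eq_zero.1 h1 with h2 | h2
    · exfalso
      have : k = 0 := by exact_mod_cast h2
      omega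
    · exact h2
  · exact hf.comp_continuous (continuous_restr F) (fun τ => hVU (hmem τ))
  · intro Q hQ hlQ τ hτ
    obtain ⟨O, hO, h1O, hOf⟩ := hI Q hQ hlQ
    set σ : Gal(Ω/K) := τ.restrictScalars K with hσ
    have hσQ : ∀ k : ℕ, ∀ x : 𝓞 Ω, σ ^ k • x - x ∈ Q := by
      intro k
      induction k with
      | zero => intro x; rw [pow_zero, one_smul, sub_self]; exact Q.zero_mem
      | succ k ih =>
        intro x
        have e1 : σ ^ (k + 1) • x - x = (σ ^ k • (σ • x) - σ • x) + (σ • x - x) := by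
          rw [pow_succ, mul_smul]; ring
        rw [e1]
        exact Q.add_mem (ih _) (hτ x)
    obtain ⟨N, hN⟩ : ∃ N : Subgroup Gal(Ω/K), IsOpen (N : Set Gal(Ω/K)) ∧ (N : Set Gal(Ω/K)) ⊆ O := by
      obtain ⟨L', hL', hL'O⟩ := (krullTopology_mem_nhds_one_iff K Ω O).1 (hO.mem_nhds h1O)
      exact ⟨L'.fixingSubgroup, L'.fixingSubgroup_isOpen, hL'O⟩
    have hq : Finite (Gal(Ω/K) ⧸ N) := N.quotient_finite_of_isOpen hN.1
    have : N.FiniteIndex := Subgroup.finiteIndex_of_finite_quotient
    obtain ⟨k, hk, hk2⟩ := Subgroup.exists_pow_mem_of_index_ne_zero N.index_ne_zero_of_finite σ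
    have h1 := hOf _ (hN.2 hk2.2) (hσQ k) (U.pow_mem (hVU (hmem τ)) k)
    rw [hpow σ (hVU (hmem τ))] at h1
    rcases mul_eq_zero.1 h1 with h2 | h2
    · exfalso
      have : k = 0 := by exact_mod_cast h2
      omega
    · exact h2

end

end Run7.h411.Cft
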