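import Mathlib

/-!
# Special orthogonal Lie algebras of dimension at least ten are simple

An elementary proof over any field of characteristic zero (no isotropic vectors are needed), in terms of
the elements `X i j = e_i ∧ e_j`, where the `e_i` are an orthogonal basis.
-/

set_option autoImplicit false

namespace Run7.h411.Gen

open Matrix

section sys

/-- The commutator with `x`, as a linear map. -/
def adl (F : Type) {R : Type} [Field F] [Ring R] [Algebra F R] (x : R) : R →ₗ[F] R :=
  LinearMap.mulLeft F x - LinearMap.mulRight F x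

theorem adl_apply (F : Type) {R : Type} [Field F] [Ring R] [Algebra F R] (x y : R) :
    adl F x y = x * y - y * x := rfl

theorem adl_neg (F : Type) {R : Type} [Field F] [Ring R] [Algebra F R] (x y : R) :
    adl F (-x) y = -adl F x y := by
  rw [adl_apply, adl_apply, neg_mul, mul_neg, neg_sub, sub_neg_eq_add, neg_add_eq_sub]

theorem adl_self (F : Type) {R : Type} [Field F] [Ring R] [Algebra F R] (x : R) :
    adl F x x = 0 := by
  rw [adl_apply, sub_self]

/-- Elements `X i j` of an associative algebra which satisfy the relations of the elements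
`e_i ∧ e_j` of an orthogonal Lie algebra. -/
structure SoSys {F R : Type} [Field F] [Ring R] [Algebra F R] {r : ℕ} (X : Fin r → Fin r → R)
    (c : Fin r → F) : Prop where
  anti : ∀ i j, X j i = -X i j
  share : ∀ i j k, i ≠ j → i ≠ k → j ≠ k → adl F (X i j) (X i k) = -(c i • X j k)
  disj : ∀ i j k l, i ≠ j → i ≠ k → i ≠ l → j ≠ k → j ≠ l → k ≠ l → adl F (X i j) (X k l) = 0
  ne : ∀ i, c i ≠ 0

variable {F R : Type} [Field F] [CharZero F] [Ring R] [Algebra F R] {r : ℕ}
  {X : Fin r → Fin r → R} {c : Fin r → F} (h : SoSys X c)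

include h

omit [CharZero F] in
theorem SoSys.share' (k l j : Fin r) (hkl : k ≠ l) (hlj : l ≠ j) (hkj : k ≠ j) :
    adl F (X k l) (X l j) = c l • X k j := by
  rw [h.anti l k, adl_neg, h.share l k j hkl.symm hlj hkj, neg_neg]

theorem SoSys.diag (i : Fin r) : X i i = 0 := by
  have h1 := h.anti i i
  have h2 : (2 : F) • X i i = 0 := by
    rw [two_smul]
    nth_rewrite 1 [h1]
    exact neg_add_cancel _
  rcases smul_eq_zero.1 h2 with h3 | h3
  · exact absurd h3 two_ne_zero
  · exact h3

omit h [CharZero F] in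
/-- The square of the adjoint action of `X k l`, suitably normalized. -/
def DD (X : Fin r → Fin r → R) (c : Fin r → F) (k l : Fin r) : R →ₗ[F] R :=
  (-(c k * c l)⁻¹) • ((adl F (X k l)).comp (adl F (X k l)))

omit h [CharZero F] in
theorem DD_apply (k l : Fin r) (y : R) :
    DD X c k l y = (-(c k * c l)⁻¹) • adl F (X k l) (adl F (X k l) y) := rfl

omit h [CharZero F] [Ring R] [Algebra F R] in
/-- The eigenvalue of `DD k l` on `X i j`. -/
def mu (k l i j : Fin r) : F := if ((i = k ∨ i = l) ↔ (j = k ∨ j = l)) then 0 else 1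

theorem SoSys.DD_X (k l i j : Fin r) (hkl : k ≠ l) :
    DD X c k l (X i j) = (mu k l i j : F) • X i j := by
  have hc : -(c k * c l)⁻¹ * -(c k * c l) = (1 : F) := by
    rw [neg_mul_neg]
    exact inv_mul_cancel₀ (mul_ne_zero (h.ne k) (h.ne l))
  -- the case of one common index
  have key1 : ∀ j, j ≠ k → j ≠ l → adl F (X k l) (adl F (X k l) (X k j)) = -(c k * c l) • X k j := by
    intro j hk hl
    rw [h.share k l j hkl hk.symm hl.symm, map_neg, map_smul,
      h.share' k l j hkl hl.symm hk.symm, smul_smul, neg_smul]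
  have key2 : ∀ j, j ≠ k → j ≠ l → adl F (X k l) (adl F (X k l) (X l j)) = -(c k * c l) • X l j := by
    intro j hk hl
    rw [h.share' k l j hkl hl.symm hk.symm, map_smul, h.share k l j hkl hk.symm hl.symm, smul_neg,
      smul_smul, neg_smul, mul_comm]
  rcases eq_or_ne i j with rfl | hij
  · rw [h.diag, map_zero, smul_zero]
  rw [DD_apply]
  by_cases hik : i = k
  · subst hik
    by_cases hjl : j = l
    · subst hjl
      rw [adl_self, map_zero, smul_zero]
      unfold mu
      rw [if_pos (by simp), zero_smul]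
    · rw [key1 j hij.symm hjl, smul_smul, hc]
      unfold mu
      rw [if_neg]
      simp [hij.symm, hjl]
  · by_cases hil : i = l
    · subst hil
      by_cases hjk : j = k
      · subst hjk
        rw [h.anti j i, map_neg, adl_self, neg_zero, map_zero, smul_zero]
        unfold mu
        rw [if_pos (by simp), zero_smul]
      · rw [key2 j hjk hij.symm, smul_smul, hc]
        unfold mu
        rw [if_neg]
        simp [hij.symm, hjk]
    · by_cases hjk : j = k
      · subst hjk
        rw [h.anti j i, map_neg, map_neg, key1 i hij hil, smul_neg, smul_smul, hc]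
        unfold mu
        rw [if_neg]
        · rw [smul_neg]
        · simp [hik, hil]
      · by_cases hjl : j = l
        · subst hjl
          rw [h.anti j i, map_neg, map_neg, key2 i hik hij, smul_neg, smul_smul, hc]
          unfold mu
          rw [if_neg]
          · rw [smul_neg]
          · simp [hik, hil]
        · rw [h.disj k l i j hkl (Ne.symm hik) (Ne.symm hjk) (Ne.symm hil) (Ne.symm hjl) hij,
            map_zero, smul_zero]
          unfold mu
          rw [if_pos (by simp [hik, hil, hjk, hjl]), zero_smul]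

/-- **Simplicity.** -/
theorem SoSys.simple (h5 : 5 ≤ r) (I : Submodule F R)
    (hI : I ≤ Submodule.span F (Set.range fun p : Fin r × Fin r => X p.1 p.2))
    (hid : ∀ i j, ∀ y ∈ I, adl F (X i j) y ∈ I) (h0 : I ≠ ⊥) (k l : Fin r) : X k l ∈ I := by
  classical
  -- an element of `I` which is not zero
  obtain ⟨y, hy, hy0⟩ := Submodule.exists_mem_ne_zero_of_ne_bot h0
  obtain ⟨a, ha⟩ := (Submodule.mem_span_range_iff_exists_fun F).1 (hI hy)
  have hex : ∃ i₀ j₀, i₀ ≠ j₀ ∧ a (i₀, j₀) - a (j₀, i₀) ≠ 0 := by
    by_contra hcon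
    push Not at hcon
    have h1 : ∀ i j, a (i, j) • X i j = -(a (j, i) • X j i) := by
      intro i j
      rcases eq_or_ne i j with rfl | hij
      · rw [h.diag, smul_zero, neg_zero]
      · rw [h.anti i j, smul_neg, neg_neg, sub_eq_zero.1 (hcon i j hij)]
    have hs : y = ∑ i, ∑ j, a (i, j) • X i j := by
      rw [← ha, Fintype.sum_prod_type]
    have hs' : y = ∑ i, ∑ j, a (j, i) • X j i := by
      rw [hs, Finset.sum_comm]
    have h2 : y = -y := by
      nth_rewrite 1 [hs]
      rw [hs', ← Finset.sum_neg_distrib]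
      refine Finset.sum_congr rfl fun i _ => ?_
      rw [← Finset.sum_neg_distrib]
      exact Finset.sum_congr rfl fun j _ => h1 i j
    have h3 : (2 : F) • y = 0 := by
      rw [two_smul]
      nth_rewrite 1 [h2]
      exact neg_add_cancel _
    rcases smul_eq_zero.1 h3 with h4 | h4
    · exact two_ne_zero h4
    · exact hy0 h4
  obtain ⟨i₀, j₀, hij, hne⟩ := hex
  have hcard : 2 < (({i₀, j₀}ᶜ : Finset (Fin r))).card := by
    rw [Finset.card_compl, Fintype.card_fin, Finset.card_pair hij]
    omega
  obtain ⟨k₁, hk₁, k₂, hk₂, k₃, hk₃, h12, h13, h23⟩ := Finset.two_lt_card.1 hcard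
  simp only [Finset.mem_compl, Finset.mem_insert, Finset.mem_singleton, not_or] at hk₁ hk₂ hk₃
  -- the projection to the component of `X i₀ j₀`
  have hDI : ∀ k l, ∀ z ∈ I, DD X c k l z ∈ I := fun k l z hz =>
    Submodule.smul_mem _ _ (hid k l _ (hid k l _ hz))
  set P : R →ₗ[F] R := (LinearMap.id - DD X c i₀ j₀).comp
    ((DD X c i₀ k₁).comp ((DD X c i₀ k₂).comp (DD X c i₀ k₃))) with hP
  have hPI : ∀ z ∈ I, P z ∈ I := by
    intro z hz
    have h1 := hDI i₀ k₁ _ (hDI i₀ k₂ _ (hDI i₀ k₃ _ hz))
    exact Submodule.sub_mem _ h1 (hDI i₀ j₀ _ h1)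
  have hPX : ∀ i j, P (X i j) =
      (if (i = i₀ ∧ j = j₀) ∨ (i = j₀ ∧ j = i₀) then (1 : F) else 0) • X i j := by
    intro i j
    rcases eq_or_ne i j with rfl | hij'
    · rw [h.diag, map_zero, smul_zero]
    have e1 : P (X i j) = ((mu i₀ k₃ i j : F) * (mu i₀ k₂ i j) * (mu i₀ k₁ i j) *
        (1 - mu i₀ j₀ i j)) • X i j := by
      rw [hP]
      simp only [LinearMap.comp_apply, LinearMap.sub_apply, LinearMap.id_apply]
      rw [h.DD_X i₀ k₃ i j (Ne.symm hk₃.1), map_smul, h.DD_X i₀ k₂ i j (Ne.symm hk₂.1), smul_smul,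
        map_smul, h.DD_X i₀ k₁ i j (Ne.symm hk₁.1), smul_smul, map_smul,
        h.DD_X i₀ j₀ i j hij, smul_smul, ← sub_smul]
      congr 1
      ring
    rw [e1]
    congr 1
    obtain ⟨a1, b1⟩ := hk₁
    obtain ⟨a2, b2⟩ := hk₂
    obtain ⟨a3, b3⟩ := hk₃
    unfold mu
    by_cases hi : i = i₀
    · subst hi
      by_cases hj : j = j₀
      · subst hj
        simp [hij.symm, Ne.symm b1, Ne.symm b2, Ne.symm b3]
      · simp [hij, hij'.symm, hj]
    · by_cases hj : j = i₀
      · subst hj
        by_cases hi' : i = j₀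
        · subst hi'
          simp [hij.symm, Ne.symm b1, Ne.symm b2, Ne.symm b3]
        · simp [hij', hi']
      · simp only [hi, hj, false_or, false_and, and_false, or_self, if_false]
        by_cases e1 : i = k₁
        · subst e1
          by_cases e2 : j = k₂
          · subst e2
            have : i ≠ k₃ := h13
            have : j ≠ k₃ := h23
            simp [h13, h23]
          · simp [h12, e2]
        · by_cases e1' : j = k₁
          · subst e1'
            by_cases e2 : i = k₂
            · subst e2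
              simp [h13, h23]
            · simp [h12, e2]
          · simp [e1, e1']
  have hPy : P y = (a (i₀, j₀) - a (j₀, i₀)) • X i₀ j₀ := by
    rw [← ha, map_sum]
    have e1 : ∀ p : Fin r × Fin r, P (a p • X p.1 p.2) =
        (if p = (i₀, j₀) then a (i₀, j₀) • X i₀ j₀ else 0) +
        (if p = (j₀, i₀) then -(a (j₀, i₀) • X i₀ j₀) else 0) := by
      rintro ⟨i, j⟩
      rw [map_smul, hPX]
      by_cases h1 : (i, j) = (i₀, j₀)
      · obtain ⟨rfl, rfl⟩ := Prod.mk.inj h1
        rw [if_pos (Or.inl ⟨rfl, rfl⟩), one_smul, if_pos rfl, if_neg, add_zero]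
        intro h2
        exact hij (Prod.mk.inj h2).1
      · by_cases h2 : (i, j) = (j₀, i₀)
        · obtain ⟨rfl, rfl⟩ := Prod.mk.inj h2
          rw [if_pos (Or.inr ⟨rfl, rfl⟩), one_smul, if_neg h1, if_pos rfl, zero_add,
            h.anti j i, smul_neg]
        · rw [if_neg, zero_smul, smul_zero, if_neg h1, if_neg h2, add_zero]
          rintro (⟨rfl, rfl⟩ | ⟨rfl, rfl⟩)
          · exact h1 rfl
          · exact h2 rfl
    rw [Finset.sum_congr rfl fun p _ => e1 p, Finset.sum_add_distrib, Finset.sum_ite_eq' Finset.univ,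
      Finset.sum_ite_eq' Finset.univ, if_pos (Finset.mem_univ _), if_pos (Finset.mem_univ _),
      sub_smul, sub_eq_add_neg]
  have hX0 : X i₀ j₀ ∈ I := by
    have h1 : (a (i₀, j₀) - a (j₀, i₀))⁻¹ • P y = X i₀ j₀ := by
      rw [hPy, smul_smul, inv_mul_cancel₀ hne, one_smul]
    rw [← h1]
    exact Submodule.smul_mem _ _ (hPI y hy)
  -- propagation
  have hanti : ∀ i j, X i j ∈ I → X j i ∈ I := by
    intro i j hm
    rw [h.anti i j]
    exact Submodule.neg_mem _ hm
  have hstep : ∀ i j m, i ≠ j → i ≠ m → j ≠ m → X i j ∈ I → X j m ∈ I := by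
    intro i j m h1 h2 h3 hm
    have h4 := hid i m _ hm
    rw [h.share i m j h2 h1 h3.symm] at h4
    have h5 : X m j = (c i)⁻¹ • (c i • X m j) := by
      rw [smul_smul, inv_mul_cancel₀ (h.ne i), one_smul]
    have h6 : X m j ∈ I := by
      rw [h5]
      refine Submodule.smul_mem _ _ ?_
      have := Submodule.neg_mem _ h4
      rwa [neg_neg] at this
    exact hanti _ _ h6
  -- all `X j₀ m`, then all
  have hall : ∀ j i m, i ≠ j → X i j ∈ I → m ≠ j → X j m ∈ I := by
    intro j i m h1 h2 h3
    rcases eq_or_ne i m with rfl | h4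
    · exact hanti _ _ h2
    · exact hstep i j m h1 h4 h3.symm h2
  rcases eq_or_ne k l with rfl | hkl
  · rw [h.diag]
    exact Submodule.zero_mem _
  by_cases hk : k = j₀
  · subst hk
    exact hall k i₀ l hij hX0 hkl.symm
  · have h1 : X j₀ k ∈ I := hall j₀ i₀ k hij hX0 hk
    exact hall k j₀ l (Ne.symm hk) h1 hkl.symm

end sys

end Run7.h411.Gen
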