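import Pool.Agent.Run7.h411.GenD0

/-!
# Definitions: hyperkähler varieties with their transcendental lattices, and arbitrary varieties
-/

set_option autoImplicit false

namespace Run7.h411.Gen

open Matrix NumberField Run7.h457.MT Pool.Agent.W401.Cheb

noncomputable section

variable {K : Type} [Field K] [NumberField K] {ℓ : ℕ} [Fact ℓ.Prime]

/-- The vector `x` is a Tate class in the twist by `c` of the representation `h`: it is fixed by a
subgroup of finite index of the Galois group of `K`. -/
def TateVec {J : Type} [Fintype J] (h : GK K → Matrix J J ℚ_[ℓ]) (c : ℕ) (x : J → ℚ_[ℓ]) : Prop :=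
  ∃ Δ : Subgroup (GK K), Δ.FiniteIndex ∧ ∀ σ ∈ Δ, cyc K ℓ σ ^ c • (h σ *ᵥ x) = x

/-- The class `v` in `H²(X, ℚ)` is a Hodge class and a Tate class. -/
def HodgeTateTwo (V : HK K ℓ) (v : Fin (V.B.n 2) → ℚ) : Prop :=
  (V.W.V 2).D *ᵥ (fun k => (v k : ℂ)) = (fun k => (v k : ℂ)) ∧
    TateVec (V.C.G 2) 1 (fun k => (v k : ℚ_[ℓ]))

/-- The transcendental lattice `T` of the hyperkähler variety `V` (with rational coefficients): a
nondegenerate subspace of `H²(X, ℚ)` whose orthogonal complement (the Néron-Severi group) consists of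
Hodge classes which are Tate classes. -/
abbrev Trans (V : HK K ℓ) : Type := Sub V.B.q (HodgeTateTwo V)

/-- The image of the Galois group on the sum of the transcendental lattices is as large as possible:
the Lie algebra of the image of the Galois group on the sum of the `H²(V t)` contains the sum of the
orthogonal Lie algebras of the transcendental lattices. -/
def OpenImage {T : Type} [Fintype T] [DecidableEq T] (V : T → HK K ℓ)
    (P : ∀ t, Trans (V t)) : Prop :=
  ∀ A : ∀ t, Matrix (Fin ((V t).B.n 2)) (Fin ((V t).B.n 2)) ℚ_[ℓ], (∀ t, (P t).IsSo (A t)) →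
    Matrix.blockDiagonal' A ∈ galLie (fun σ => Matrix.blockDiagonal' fun t => (V t).C.G 2 σ)

/-- The `ℓ`-adic cohomology of a smooth projective variety `Z` over `K`: `n b` is the dimension of
`H^b(Z, ℚ_ℓ)`, `b ≤ e = 2 dim Z`, and `G b` is the (continuous) action of the Galois group. -/
structure Coh (K : Type) [Field K] [NumberField K] (ℓ : ℕ) [Fact ℓ.Prime] where
  e : ℕ
  n : ℕ → ℕ
  G : ∀ b, GK K →* Matrix (Fin (n b)) (Fin (n b)) ℚ_[ℓ]
  cont : ∀ b, Continuous (G b)

variable {S' : Type} [Fintype S'] [DecidableEq S'] (Z : S' → Coh K ℓ)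

/-- The index set of the basis of `H^b` of the product of the varieties `Z s` (Künneth formula). -/
abbrev ZIdx (b : ℕ) : Type := KInd (fun s => (Z s).n) (fun s => (Z s).e) b

/-- The matrix of the action of `σ` on `H^b` of the product of the varieties `Z s`. -/
def galZ (b : ℕ) (σ : GK K) : Matrix (ZIdx Z b) (ZIdx Z b) ℚ_[ℓ] :=
  kun (n := fun s => (Z s).n) (fun s => (Z s).e) b fun s j => (Z s).G j σ

variable {S : Type} [Fintype S] [DecidableEq S] (V : S → HK K ℓ)

/-- The matrix of the action of `σ` on `H^a(Y) ⊗ H^b(Z)`, where `Y` and `Z` are the products of the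
`V s` and the `Z s`. -/
def galYZ (a b : ℕ) (σ : GK K) : Matrix (Idx V a × ZIdx Z b) (Idx V a × ZIdx Z b) ℚ_[ℓ] :=
  fun p q => gal V a σ p.1 q.1 * galZ Z b σ p.2 q.2

/-- The exterior products `h × w` in `H^(2 i)(Y) ⊗ H^(2 c)(Z)`, where `h` is a rational class which is a
Hodge class and a Tate class, and `w` is a Tate class in `H^(2 c)(Z, ℚ_ℓ(c))`. -/
def crossProducts (i c : ℕ) : Set (Idx V (2 * i) × ZIdx Z (2 * c) → ℚ_[ℓ]) :=
  {x | ∃ h w, IsHodgeClass V i h ∧ IsTateClass V i (fun k => (h k : ℚ_[ℓ])) ∧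
    TateVec (galZ Z (2 * c)) c w ∧ x = fun p => (h p.1 : ℚ_[ℓ]) * w p.2}

end

end Run7.h411.Gen
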