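import Pool.Agent.Run7.h411.Gen9
import Pool.Agent.Run7.h411.GenD
import Pool.Agent.Run7.h411.Cft7

/-!
# Tate classes on the product of hyperkähler varieties with arbitrary varieties over number fields
-/

set_option autoImplicit false
set_option linter.unusedSectionVars false
set_option maxHeartbeats 1000000

namespace Run7.h411.Gen

open Matrix NumberField Filter Topology Run7.h457.MT Pool.Agent.W401.Cheb

noncomputable section

/-! ## The orthogonal basis -/

section basis

variable {n : ℕ} {q : Matrix (Fin n) (Fin n) ℚ} {good : (Fin n → ℚ) → Prop} (P : Sub q good)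

/-- The orthogonal complement. -/
def Sub.N : Submodule ℚ (Fin n → ℚ) where
  carrier := {v | ∀ i, form q (P.e i) v = 0}
  zero_mem' := fun i => by
    unfold form
    rw [mulVec_zero, dotProduct_zero]
  add_mem' := fun {x y} hx hy i => by
    have h1 := hx i
    have h2 := hy i
    unfold form at *
    rw [mulVec_add, dotProduct_add, h1, h2, add_zero]
  smul_mem' := fun a x hx i => by
    have h1 := hx i
    unfold form at *
    rw [mulVec_smul, dotProduct_smul, h1, smul_zero]

theorem form_symm (hs : qᵀ = q) (x y : Fin n → ℚ) : form q x y = form q y x := by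
  unfold form
  rw [dotProduct_mulVec, ← mulVec_transpose, hs, dotProduct_comm]

theorem Sub.ob (hs : qᵀ = q) (hd : q.det ≠ 0) :
    OB q P.N P.e (fun i => form q (P.e i) (P.e i)) where
  hs := hs
  hd := hd
  hc := P.ne
  he i j := by
    split_ifs with h
    · subst h
      rfl
    · exact P.orth i j h
  hp i v hv := by
    have h1 : form q v (P.e i) = 0 := by
      rw [form_symm hs]
      exact hv i
    exact h1
  hdec x := by
    refine ⟨x - ∑ i, (form q (P.e i) x / form q (P.e i) (P.e i)) • P.e i, fun j => ?_,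
      fun i => form q (P.e i) x / form q (P.e i) (P.e i), (sub_add_cancel _ _).symm⟩
    have h1 : form q (P.e j) (x - ∑ i, (form q (P.e i) x / form q (P.e i) (P.e i)) • P.e i) =
        form q (P.e j) x - ∑ i, (form q (P.e i) x / form q (P.e i) (P.e i)) *
          form q (P.e j) (P.e i) := by
      unfold form
      rw [mulVec_sub, dotProduct_sub, mulVec_sum, dotProduct_sum]
      congr 1
      refine Finset.sum_congr rfl fun i _ => ?_
      rw [mulVec_smul, dotProduct_smul, smul_eq_mul]
    rw [h1, Finset.sum_eq_single j, div_mul_cancel₀ _ (P.ne j), sub_self]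
    · intro i _ hi
      rw [P.orth j i (Ne.symm hi), mul_zero]
    · intro h
      exact absurd (Finset.mem_univ j) h

end basis

/-! ## The proof -/

section proof

variable {K : Type} [Field K] [NumberField K] {ℓ : ℕ} [Fact ℓ.Prime]
  {κ : Type} [Fintype κ] [DecidableEq κ] (Z : κ → Coh K ℓ)

/-- The dimensions of the representations: the cohomology groups of the `Z k` and the cyclotomic
character. -/
def mO : Option (Σ k : κ, Fin ((Z k).e + 1)) → ℕ
  | none => 1
  | some p => (Z p.1).n p.2

/-- The representations: the cohomology groups of the `Z k` and the cyclotomic character. -/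
def UO : ∀ k, GK K →* Matrix (Fin (mO Z k)) (Fin (mO Z k)) ℚ_[ℓ]
  | none => (Matrix.scalar (Fin 1)).toMonoidHom.comp (cyc K ℓ)
  | some p => (Z p.1).G p.2

variable {T : Type} [Fintype T] [DecidableEq T] {V : T → HK K ℓ} {P : ∀ t, Trans (V t)}

theorem hyp (h5 : ∀ t, 5 ≤ (P t).r) (hopen : OpenImage V P) :
    Hyp (fun t => (V t).B) (mO Z) (fun t i => (V t).C.G i) (UO Z) none (cyc K ℓ)
      (fun t => (P t).N) (r := fun t => (P t).r) (fun t => (P t).e)
      (fun t i => form (V t).B.q ((P t).e i) ((P t).e i)) where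
  hd t := (V t).X.two_le
  hLR := logRel_family V (Run7.h411.Cft.cft K ℓ)
  hχ := cyc_near
  hq t σ := form_cyc (V t).C.old σ
  hU k := by
    have key : ∀ {m : ℕ} (g : GK K →* Matrix (Fin m) (Fin m) ℚ_[ℓ]), Continuous g →
        ∃ Δ : Subgroup (GK K), Δ.FiniteIndex ∧ ∀ σ ∈ Δ, NearOne 2 (g σ) := by
      intro m g hg
      obtain ⟨U, hU, hUO⟩ := exists_open (near_one g hg 2)
      exact ⟨U, open_finite hU, fun σ hσ => hUO hσ⟩
    match k with
    | none =>
      refine key (m := 1) _ ?_
      have h1 : Continuous fun σ : GK K => (cyc K ℓ σ) • (1 : Matrix (Fin 1) (Fin 1) ℚ_[ℓ]) :=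
        (cyc_cont K ℓ).smul continuous_const
      refine h1.congr fun σ => ?_
      change _ = Matrix.scalar (Fin 1) (cyc K ℓ σ)
      rw [Matrix.smul_one_eq_diagonal]
      rfl
    | some p => exact key (m := (Z p.1).n p.2) _ ((Z p.1).cont p.2)
  hk0 := rfl
  hUk0 σ := by
    change Matrix.scalar (Fin 1) (cyc K ℓ σ) = cyc K ℓ σ • (1 : Matrix (Fin 1) (Fin 1) ℚ_[ℓ])
    rw [Matrix.smul_one_eq_diagonal]
    rfl
  hOB t := (P t).ob (V t).B.symm (V t).B.nondeg
  h5 := h5
  hT t v hv := by
    obtain ⟨Δ, hΔ, h⟩ := ((P t).compl v hv).2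
    refine ⟨Δ, hΔ, fun σ hσ => ?_⟩
    have h1 := h σ hσ
    rw [pow_one] at h1
    exact h1
  hopen A hA := hopen A hA

end proof

end

end Run7.h411.Gen
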