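import Pool.Agent.Run7.h411.Gen10

/-!
# Tate classes on the product of hyperkähler varieties with arbitrary varieties: the theorem
-/

set_option autoImplicit false
set_option linter.unusedSectionVars false
set_option maxHeartbeats 1000000

namespace Run7.h411.Gen

open Matrix NumberField Filter Topology Run7.h457.MT Pool.Agent.W401.Cheb

noncomputable section

theorem block_mul {α β F : Type} [Field F] [Fintype β] [DecidableEq β] {I : β → Type}
    [∀ b, Fintype (I b)] [∀ b, DecidableEq (I b)] (Y : Matrix α (Σ b, I b) F)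
    (h : ∀ b, Matrix (I b) (I b) F) (b : β) :
    (Y * (Matrix.blockDiagonal' h)ᵀ).submatrix id (Sigma.mk b) =
      Y.submatrix id (Sigma.mk b) * (h b)ᵀ := by
  ext k l
  rw [Matrix.submatrix_apply, Matrix.mul_apply, Matrix.mul_apply, Fintype.sum_sigma,
    Finset.sum_eq_single b]
  · refine Finset.sum_congr rfl fun i _ => ?_
    rw [Matrix.transpose_apply, Matrix.blockDiagonal'_apply_eq, Matrix.submatrix_apply,
      Matrix.transpose_apply]
  · intro b' _ hb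
    refine Finset.sum_eq_zero fun i _ => ?_
    rw [Matrix.transpose_apply, Matrix.blockDiagonal'_apply_ne _ _ _ (Ne.symm hb), mul_zero]
  · intro h'
    exact absurd (Finset.mem_univ b) h'

/-- The action on a tensor product in terms of matrices. -/
theorem prod_mulVec {I J F : Type} [Fintype I] [Fintype J] [Field F] (g : Matrix I I F)
    (h : Matrix J J F) (x : I × J → F) (k : I) (l : J) :
    ((fun p q => g p.1 q.1 * h p.2 q.2 : Matrix (I × J) (I × J) F) *ᵥ x) (k, l) =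
      (g * (Matrix.of fun k l => x (k, l)) * hᵀ) k l := by
  rw [Matrix.mulVec, dotProduct, Fintype.sum_prod_type, Finset.sum_comm, Matrix.mul_apply]
  refine Finset.sum_congr rfl fun l' _ => ?_
  rw [Matrix.mul_apply, Finset.sum_mul, Matrix.transpose_apply]
  refine Finset.sum_congr rfl fun k' _ => ?_
  rw [Matrix.of_apply]
  ring

/-- The action on an exterior product. -/
theorem prod_mulVec' {I J F : Type} [Fintype I] [Fintype J] [Field F] (g : Matrix I I F)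
    (h : Matrix J J F) (v : I → F) (w : J → F) :
    (fun p q => g p.1 q.1 * h p.2 q.2 : Matrix (I × J) (I × J) F) *ᵥ (fun p => v p.1 * w p.2) =
      fun p => (g *ᵥ v) p.1 * (h *ᵥ w) p.2 := by
  funext p
  rw [Matrix.mulVec, dotProduct, Fintype.sum_prod_type, Matrix.mulVec, Matrix.mulVec, dotProduct,
    dotProduct, Finset.sum_mul_sum]
  refine Finset.sum_congr rfl fun k _ => Finset.sum_congr rfl fun l _ => ?_
  ring

variable {K : Type} [Field K] [NumberField K] {ℓ : ℕ} [Fact ℓ.Prime]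
  {κ : Type} [Fintype κ] [DecidableEq κ] (Z : κ → Coh K ℓ)
  {T : Type} [Fintype T] [DecidableEq T] {V : T → HK K ℓ} {P : ∀ t, Trans (V t)}

/-- The exceptional indices. -/
theorem exists_bad (h5 : ∀ t, 5 ≤ (P t).r) (hopen : OpenImage V P) :
    ∃ Bd : κ → ℕ → Finset T,
      (∀ k, ∀ b ≤ (Z k).e, ∑ t ∈ Bd k b, (P t).r * ((P t).r - 1) / 2 ≤ (Z k).n b ^ 2) ∧
      ∀ t, (∀ k, ∀ b ≤ (Z k).e, t ∉ Bd k b) → ∀ x ∈ soPerp (V t).B.q (P t).N ℚ_[ℓ],
        ((Pi.single t x : ∀ t, Matrix (Fin ((V t).B.n 2)) (Fin ((V t).B.n 2)) ℚ_[ℓ]),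
          (0 : ∀ k, Matrix (Fin (mO Z k)) (Fin (mO Z k)) ℚ_[ℓ])) ∈
            hh (fun t => (V t).B) (mO Z) (fun t i => (V t).C.G i) (UO Z) none (cyc K ℓ) := by
  obtain ⟨Bd, h1, h2⟩ := bound (hyp Z h5 hopen)
  refine ⟨fun k b => if hb : b ≤ (Z k).e then Bd (some ⟨k, ⟨b, Nat.lt_succ_of_le hb⟩⟩) else ∅,
    fun k b hb => ?_, fun t ht => h2 t fun k => ?_⟩
  · simp only [dif_pos hb]
    exact h1 (some ⟨k, ⟨b, Nat.lt_succ_of_le hb⟩⟩)
  · match k with
    | none =>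
      intro h3
      have h4 := h1 none
      have h5' : (P t).r * ((P t).r - 1) / 2 ≤ 1 := by
        refine le_trans ?_ h4
        exact Finset.single_le_sum (f := fun t => (P t).r * ((P t).r - 1) / 2)
          (fun _ _ => Nat.zero_le _) h3
      have h6 : 5 * 4 ≤ (P t).r * ((P t).r - 1) :=
        Nat.mul_le_mul (h5 t) (by have := h5 t; omega)
      omega
    | some p =>
      intro h3
      have h4 := ht p.1 p.2 (Nat.lt_succ_iff.1 p.2.2)
      simp only [dif_pos (Nat.lt_succ_iff.1 p.2.2)] at h4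
      exact h4 h3

variable {S : Type} [Fintype S] [DecidableEq S] {τ : S → T}
  {S' : Type} [Fintype S'] [DecidableEq S'] {τ' : S' → κ}

/-- All columns of a Tate class are combinations of invariants. -/
theorem cols_mem {a n : ℕ} {j : ℤ}
    (hk : ∀ s, ∀ x ∈ soPerp (V (τ s)).B.q (P (τ s)).N ℚ_[ℓ],
      ((Pi.single (τ s) x : ∀ t, Matrix (Fin ((V t).B.n 2)) (Fin ((V t).B.n 2)) ℚ_[ℓ]),
        (0 : ∀ k, Matrix (Fin (mO Z k)) (Fin (mO Z k)) ℚ_[ℓ])) ∈
          hh (fun t => (V t).B) (mO Z) (fun t i => (V t).C.G i) (UO Z) none (cyc K ℓ))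
    {X : Matrix (KI (fun t => (V t).B) τ a)
      (KTot (fun s => (Z (τ' s)).n) (fun s => (Z (τ' s)).e) n) ℚ_[ℓ]}
    (hX : ∃ Δ : Subgroup (GK K), Δ.FiniteIndex ∧ ∀ σ ∈ Δ,
      cyc K ℓ σ ^ j • (kunRep (fun t => (V t).B) (fun t i => (V t).C.G i) τ a σ * X *
        (kun (n := fun s => (Z (τ' s)).n) (fun s => (Z (τ' s)).e) n
          fun s j => (Z (τ' s)).G j σ)ᵀ) = X)
    (l : KTot (fun s => (Z (τ' s)).n) (fun s => (Z (τ' s)).e) n) :
    (fun k => X k l) ∈ vecSpan ℚ_[ℓ]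
      (VV (fun t => (V t).B) (fun t => (P t).N) τ a : Set (KI (fun t => (V t).B) τ a → ℚ)) := by
  obtain ⟨b, l⟩ := l
  obtain ⟨Δ, hΔ, h⟩ := hX
  let Xb : Matrix (KI (fun t => (V t).B) τ a) (∀ s, Fin ((Z (τ' s)).n (b.1 s))) ℚ_[ℓ] :=
    X.submatrix id fun l => ⟨b, l⟩
  refine tate_cols_mem (m := mO Z)
    (τ' := fun s => (some ⟨τ' s, b.1 s⟩ : Option (Σ k : κ, Fin ((Z k).e + 1)))) (j := j) hk
    (X := Xb) ⟨Δ, hΔ, fun σ hσ => ?_⟩ l
  have h1 := congrArg (fun Y : Matrix (KI (fun t => (V t).B) τ a)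
      (KTot (fun s => (Z (τ' s)).n) (fun s => (Z (τ' s)).e) n) ℚ_[ℓ] => Y.submatrix id
        fun l : (∀ s, Fin ((Z (τ' s)).n (b.1 s))) =>
          (⟨b, l⟩ : KTot (fun s => (Z (τ' s)).n) (fun s => (Z (τ' s)).e) n)) (h σ hσ)
  have h2 := block_mul (kunRep (fun t => (V t).B) (fun t i => (V t).C.G i) τ a σ * X)
    (fun b : KIdx (fun s => (Z (τ' s)).e) n =>
      kron fun s => (Z (τ' s)).G (b.1 s) σ) b
  refine Eq.trans ?_ h1
  change _ = cyc K ℓ σ ^ j • ((kunRep (fun t => (V t).B) (fun t i => (V t).C.G i) τ a σ * X *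
        (kun (n := fun s => (Z (τ' s)).n) (fun s => (Z (τ' s)).e) n
          fun s j => (Z (τ' s)).G j σ)ᵀ).submatrix id
        fun l : (∀ s, Fin ((Z (τ' s)).n (b.1 s))) =>
          (⟨b, l⟩ : KTot (fun s => (Z (τ' s)).n) (fun s => (Z (τ' s)).e) n))
  congr 1
  exact h2.symm

/-- One component. -/
theorem comp_iff (h5 : ∀ t, 5 ≤ (P t).r) (hopen : OpenImage V P) {a n : ℕ} {j : ℤ}
    (hk : ∀ s, ∀ x ∈ soPerp (V (τ s)).B.q (P (τ s)).N ℚ_[ℓ],
      ((Pi.single (τ s) x : ∀ t, Matrix (Fin ((V t).B.n 2)) (Fin ((V t).B.n 2)) ℚ_[ℓ]),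
        (0 : ∀ k, Matrix (Fin (mO Z k)) (Fin (mO Z k)) ℚ_[ℓ])) ∈
          hh (fun t => (V t).B) (mO Z) (fun t i => (V t).C.G i) (UO Z) none (cyc K ℓ))
    (X : Matrix (KI (fun t => (V t).B) τ a)
      (KTot (fun s => (Z (τ' s)).n) (fun s => (Z (τ' s)).e) n) ℚ_[ℓ])
    (hX : ∃ Δ : Subgroup (GK K), Δ.FiniteIndex ∧ ∀ σ ∈ Δ,
      cyc K ℓ σ ^ j • (kunRep (fun t => (V t).B) (fun t i => (V t).C.G i) τ a σ * X *
        (kun (n := fun s => (Z (τ' s)).n) (fun s => (Z (τ' s)).e) n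
          fun s j => (Z (τ' s)).G j σ)ᵀ) = X) :
    X ∈ Submodule.span ℚ_[ℓ] (gensH (fun t => (V t).W) (fun t i => (V t).C.G i) (cyc K ℓ) τ a
        (fun σ => kun (n := fun s => (Z (τ' s)).n) (fun s => (Z (τ' s)).e) n
          fun s j => (Z (τ' s)).G j σ) j) :=
  tate_cols (hyp Z h5 hopen) (fun t v hv => ((P t).compl v hv).1) (cols_mem Z hk hX) hX

/-- The matrix of an element of the tensor product. -/
def toMat (a n : ℕ) (x : Idx (fun s => V (τ s)) a × ZIdx (fun s => Z (τ' s)) n → ℚ_[ℓ]) :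
    Matrix (KI (fun t => (V t).B) τ a)
      (KTot (fun s => (Z (τ' s)).n) (fun s => (Z (τ' s)).e) n) ℚ_[ℓ] :=
  Matrix.of fun k l => x (k, l)

/-- The element of the tensor product with a given matrix. -/
def toVec (a n : ℕ) : Matrix (KI (fun t => (V t).B) τ a)
      (KTot (fun s => (Z (τ' s)).n) (fun s => (Z (τ' s)).e) n) ℚ_[ℓ] →ₗ[ℚ_[ℓ]]
    (Idx (fun s => V (τ s)) a × ZIdx (fun s => Z (τ' s)) n → ℚ_[ℓ]) where
  toFun X := fun p => X p.1 p.2
  map_add' _ _ := rfl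
  map_smul' _ _ := rfl

theorem tate_mat {a n j : ℕ} {x : Idx (fun s => V (τ s)) a × ZIdx (fun s => Z (τ' s)) n → ℚ_[ℓ]}
    (hx : TateVec (galYZ (fun s => Z (τ' s)) (fun s => V (τ s)) a n) j x) :
    ∃ Δ : Subgroup (GK K), Δ.FiniteIndex ∧ ∀ σ ∈ Δ,
      cyc K ℓ σ ^ (j : ℤ) • (kunRep (fun t => (V t).B) (fun t i => (V t).C.G i) τ a σ *
        toMat Z a n x * (kun (n := fun s => (Z (τ' s)).n) (fun s => (Z (τ' s)).e) n
          fun s j => (Z (τ' s)).G j σ)ᵀ) = toMat Z a n x := by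
  obtain ⟨Δ, hΔ, h⟩ := hx
  refine ⟨Δ, hΔ, fun σ hσ => ?_⟩
  have h1 := h σ hσ
  rw [zpow_natCast]
  ext k l
  have h2 := congrFun h1 (k, l)
  have h3 := prod_mulVec (gal (fun s => V (τ s)) a σ) (galZ (fun s => Z (τ' s)) n σ) x k l
  rw [Pi.smul_apply] at h2
  rw [Matrix.smul_apply]
  refine Eq.trans ?_ h2
  congr 1
  exact h3.symm

/-- **Tate classes on `Y × Z`.** -/
theorem tate_YZ (h5 : ∀ t, 5 ≤ (P t).r) (hopen : OpenImage V P) :
    ∃ Bd : κ → ℕ → Finset T,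
      (∀ k, ∀ b ≤ (Z k).e, ∑ t ∈ Bd k b, (P t).r * ((P t).r - 1) / 2 ≤ (Z k).n b ^ 2) ∧
      ∀ (S : Type) [Fintype S] [DecidableEq S] (τ : S → T),
        (∀ s k, ∀ b ≤ (Z k).e, τ s ∉ Bd k b) →
        ∀ (S' : Type) [Fintype S'] [DecidableEq S'] (τ' : S' → κ) (i c : ℕ),
          (∀ x, TateVec (galYZ (fun s => Z (τ' s)) (fun s => V (τ s)) (2 * i) (2 * c)) (i + c) x ↔
            x ∈ Submodule.span ℚ_[ℓ]
              (crossProducts (fun s => Z (τ' s)) (fun s => V (τ s)) i c)) ∧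
          ∀ x, TateVec (galYZ (fun s => Z (τ' s)) (fun s => V (τ s)) (2 * i + 1) (2 * c + 1))
            (i + c + 1) x → x = 0 := by
  classical
  obtain ⟨Bd, h1, h2⟩ := exists_bad Z h5 hopen
  refine ⟨Bd, h1, fun S _ _ τ hτ S' _ _ τ' i c => ⟨fun x => ⟨fun hx => ?_, fun hx => ?_⟩,
    fun x hx => ?_⟩⟩
  · have h3 := comp_iff Z h5 hopen (fun s x hx => h2 (τ s) (hτ s) x hx) _ (tate_mat Z hx)
    have h4 : Submodule.span ℚ_[ℓ] (gensH (fun t => (V t).W) (fun t i => (V t).C.G i) (cyc K ℓ) τ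
        (2 * i) (fun σ => kun (n := fun s => (Z (τ' s)).n) (fun s => (Z (τ' s)).e) (2 * c)
          fun s j => (Z (τ' s)).G j σ) ((i + c : ℕ) : ℤ)) ≤
        (Submodule.span ℚ_[ℓ] (crossProducts (fun s => Z (τ' s)) (fun s => V (τ s)) i c)).comap
          (toVec Z (2 * i) (2 * c)) := by
      rw [Submodule.span_le]
      rintro Y ⟨i', v, w, hi, hv1, hv2, hw, rfl⟩
      have hi' : i' = i := by omega
      subst hi'
      refine Submodule.subset_span ⟨v, w, hv1, hv2, ?_, rfl⟩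
      obtain ⟨Δ', hΔ', hw⟩ := hw
      refine ⟨Δ', hΔ', fun σ hσ => ?_⟩
      have h6 := hw σ hσ
      have h7 : (((i' + c : ℕ) : ℤ) - (i' : ℤ)) = (c : ℤ) := by
        push_cast
        ring
      rw [h7, zpow_natCast] at h6
      exact h6
    exact h4 h3
  · induction hx using Submodule.span_induction with
    | mem y hy =>
      obtain ⟨v, w, -, ⟨Δ, hΔ, hv⟩, ⟨Δ', hΔ', hw⟩, rfl⟩ := hy
      refine ⟨Δ ⊓ Δ', inferInstance, fun σ hσ => ?_⟩
      have h3 := hv σ hσ.1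
      have h4 := hw σ hσ.2
      have h5' := prod_mulVec' (gal (fun s => V (τ s)) (2 * i) σ)
        (galZ (fun s => Z (τ' s)) (2 * c) σ) (fun k => (v k : ℚ_[ℓ])) w
      have h6 : galYZ (fun s => Z (τ' s)) (fun s => V (τ s)) (2 * i) (2 * c) σ *ᵥ
          (fun p => (v p.1 : ℚ_[ℓ]) * w p.2) = fun p =>
          (gal (fun s => V (τ s)) (2 * i) σ *ᵥ fun k => (v k : ℚ_[ℓ])) p.1 *
            (galZ (fun s => Z (τ' s)) (2 * c) σ *ᵥ w) p.2 := h5'
      rw [h6]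
      funext p
      have h7 := congrFun h3 p.1
      have h8 := congrFun h4 p.2
      rw [Pi.smul_apply, smul_eq_mul] at h7 h8 ⊢
      conv_rhs => rw [← h7, ← h8]
      rw [pow_add]
      ring
    | zero =>
      refine ⟨⊤, inferInstance, fun σ _ => ?_⟩
      rw [mulVec_zero, smul_zero]
    | add y y' _ _ h h' =>
      obtain ⟨Δ, hΔ, h3⟩ := h
      obtain ⟨Δ', hΔ', h4⟩ := h'
      refine ⟨Δ ⊓ Δ', inferInstance, fun σ hσ => ?_⟩
      rw [mulVec_add, smul_add, h3 σ hσ.1, h4 σ hσ.2]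
    | smul c y _ h =>
      obtain ⟨Δ, hΔ, h3⟩ := h
      refine ⟨Δ, hΔ, fun σ hσ => ?_⟩
      rw [mulVec_smul, smul_comm, h3 σ hσ]
  · have h3 := comp_iff Z h5 hopen (fun s x hx => h2 (τ s) (hτ s) x hx) _ (tate_mat Z hx)
    have h4 : gensH (fun t => (V t).W) (fun t i => (V t).C.G i) (cyc K ℓ) τ
        (2 * i + 1) (fun σ => kun (n := fun s => (Z (τ' s)).n) (fun s => (Z (τ' s)).e) (2 * c + 1)
          fun s j => (Z (τ' s)).G j σ) ((i + c + 1 : ℕ) : ℤ) = ∅ := by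
      ext Y
      constructor
      · rintro ⟨i', v, w, hi, -⟩
        omega
      · intro h
        exact absurd h (Set.notMem_empty Y)
    rw [h4, Submodule.span_empty, Submodule.mem_bot] at h3
    funext p
    exact congrFun (congrFun h3 p.1) p.2

end

end Run7.h411.Gen
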