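import Pool.Agent.Run7.h457.MT.Family

/-!
# Definitions: nondegenerate subspaces of quadratic spaces and their orthogonal Lie algebras
-/

set_option autoImplicit false

namespace Run7.h411.Gen

open Matrix Run7.h457.MT

noncomputable section

/-- The value of the bilinear form with the matrix `q`. -/
def form {n : ℕ} (q : Matrix (Fin n) (Fin n) ℚ) (x y : Fin n → ℚ) : ℚ := x ⬝ᵥ (q *ᵥ y)

/-- A nondegenerate subspace `T` of the quadratic space `ℚ^n` with the form `q`, given by an orthogonal
basis `e`, such that all elements of the orthogonal complement of `T` have the property `good`. -/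
structure Sub {n : ℕ} (q : Matrix (Fin n) (Fin n) ℚ) (good : (Fin n → ℚ) → Prop) where
  r : ℕ
  e : Fin r → Fin n → ℚ
  ne : ∀ i, form q (e i) (e i) ≠ 0
  orth : ∀ i j, i ≠ j → form q (e i) (e j) = 0
  compl : ∀ v, (∀ i, form q (e i) v = 0) → good v

variable {ℓ : ℕ} [Fact ℓ.Prime]

/-- The matrix `A` over `ℚ_ℓ` is an element of the orthogonal Lie algebra of `T`: it is skew-symmetric
and it kills the orthogonal complement of `T`. -/
def Sub.IsSo {n : ℕ} {q : Matrix (Fin n) (Fin n) ℚ} {good : (Fin n → ℚ) → Prop} (P : Sub q good)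
    (A : Matrix (Fin n) (Fin n) ℚ_[ℓ]) : Prop :=
  SkewMat (q.map (algebraMap ℚ ℚ_[ℓ])) A ∧
    ∀ v, (∀ i, form q (P.e i) v = 0) → A *ᵥ (fun k => (v k : ℚ_[ℓ])) = 0

end

end Run7.h411.Gen
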