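import Pool.Agent.Run7.h411.Gen1
import Pool.Agent.Run7.h457.MT.Data

/-!
# The orthogonal Lie algebra of the orthogonal complement of a rational subspace
-/

set_option autoImplicit false
set_option linter.unusedSectionVars false

namespace Run7.h411.Gen

open Matrix Run7.h457.MT

noncomputable section

section units

variable {F R : Type} [Field F] [Ring R] [Algebra F R] {r : ℕ}

theorem sys_of_units {u : Fin r → Fin r → R} {c : Fin r → F} (hc : ∀ i, c i ≠ 0)
    (hu : ∀ i j k l, u i j * u k l = if j = k then c j • u i l else 0) :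
    SoSys (fun i j => u i j - u j i) c where
  anti i j := (neg_sub _ _).symm
  share i j k hij hik hjk := by
    rw [adl_apply]
    simp only [mul_sub, sub_mul, hu]
    simp only [if_neg hij.symm, if_neg hjk, if_neg hik.symm, if_neg hjk.symm, if_true, smul_sub,
      if_neg hij, if_neg hik]
    abel
  disj i j k l hij hik hil hjk hjl hkl := by
    rw [adl_apply]
    simp only [mul_sub, sub_mul, hu]
    simp [hik, hil, hjk, hjl, hik.symm, hil.symm, hjk.symm, hjl.symm]
  ne := hc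

end units

section form

variable {κ : Type} [Fintype κ] [DecidableEq κ] (q : Matrix κ κ ℚ) (N : Submodule ℚ (κ → ℚ))

/-- The orthogonal complement of `N` for the form with the matrix `q`. -/
def perp : Submodule ℚ (κ → ℚ) where
  carrier := {x | ∀ v ∈ N, v ⬝ᵥ (q *ᵥ x) = 0}
  zero_mem' := fun v _ => by rw [mulVec_zero, dotProduct_zero]
  add_mem' := fun {x y} hx hy v hv => by
    rw [mulVec_add, dotProduct_add, hx v hv, hy v hv, add_zero]
  smul_mem' := fun a x hx v hv => by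
    rw [mulVec_smul, dotProduct_smul, hx v hv, smul_zero]

theorem mem_perp {x : κ → ℚ} : x ∈ perp q N ↔ ∀ v ∈ N, v ⬝ᵥ (q *ᵥ x) = 0 := Iff.rfl

/-- The vector `v` with coefficients in `F`. -/
def cst (F : Type) [Field F] [Algebra ℚ F] (v : κ → ℚ) : κ → F := fun k => algebraMap ℚ F (v k)

/-- The skew-symmetric matrices with coefficients in `F` which kill `N`: the Lie algebra of the
orthogonal group of the orthogonal complement of `N`. -/
def soPerp (F : Type) [Field F] [Algebra ℚ F] : Submodule F (Matrix κ κ F) where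
  carrier := {A | SkewMat (q.map (algebraMap ℚ F)) A ∧ ∀ v ∈ N, A *ᵥ cst F v = 0}
  zero_mem' := ⟨by simp [SkewMat], fun v _ => zero_mulVec _⟩
  add_mem' := by
    rintro A B ⟨hA, hA'⟩ ⟨hB, hB'⟩
    refine ⟨?_, fun v hv => by rw [add_mulVec, hA' v hv, hB' v hv, add_zero]⟩
    unfold SkewMat at *
    rw [transpose_add, add_mul, mul_add, add_add_add_comm, hA, hB, add_zero]
  smul_mem' := by
    rintro a A ⟨hA, hA'⟩
    refine ⟨?_, fun v hv => by rw [smul_mulVec, hA' v hv, smul_zero]⟩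
    unfold SkewMat at *
    rw [transpose_smul, smul_mul_assoc, mul_smul_comm, ← smul_add, hA, smul_zero]

variable {q N}

theorem mem_soPerp {F : Type} [Field F] [Algebra ℚ F] {A : Matrix κ κ F} :
    A ∈ soPerp q N F ↔ SkewMat (q.map (algebraMap ℚ F)) A ∧ ∀ v ∈ N, A *ᵥ cst F v = 0 := Iff.rfl

/-- An orthogonal basis of the orthogonal complement of `N`. -/
theorem exists_basis (hs : qᵀ = q) (hd : q.det ≠ 0) (hN : N ⊓ perp q N = ⊥) :
    ∃ (e : Fin (Module.finrank ℚ (perp q N)) → κ → ℚ) (c : Fin (Module.finrank ℚ (perp q N)) → ℚ),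
      (∀ i, c i ≠ 0) ∧ (∀ i j, e i ⬝ᵥ (q *ᵥ e j) = if i = j then c i else 0) ∧
      (∀ i, ∀ v ∈ N, v ⬝ᵥ (q *ᵥ e i) = 0) ∧
      ∀ x, ∃ v ∈ N, ∃ a : Fin (Module.finrank ℚ (perp q N)) → ℚ, x = v + ∑ i, a i • e i := by
  classical
  set B : LinearMap.BilinForm ℚ (κ → ℚ) := Matrix.toBilin' q with hB
  have hBa : ∀ x y, B x y = x ⬝ᵥ (q *ᵥ y) := fun x y => by
    rw [hB, Matrix.toBilin'_apply']
  have hsymm : ∀ x y : κ → ℚ, x ⬝ᵥ (q *ᵥ y) = y ⬝ᵥ (q *ᵥ x) := by
    intro x y
    rw [dotProduct_mulVec, ← mulVec_transpose, hs, dotProduct_comm]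
  have hBs : B.IsSymm := ⟨fun x y => by
    simp only [hBa]
    exact hsymm x y⟩
  have hperp : B.orthogonal N = perp q N := by
    ext x
    rw [LinearMap.BilinForm.mem_orthogonal_iff, mem_perp]
    refine forall₂_congr fun v _ => ?_
    rw [← hBa]
  have hcompl : IsCompl N (perp q N) := by
    rw [← hperp]
    refine LinearMap.BilinForm.isCompl_orthogonal_of_restrict_nondegenerate hBs.isRefl ?_
    rw [LinearMap.BilinForm.restrict_nondegenerate_iff_isCompl_orthogonal hBs.isRefl]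
    refine LinearMap.BilinForm.isCompl_orthogonal_iff_disjoint hBs.isRefl |>.2 ?_
    rw [hperp, disjoint_iff, hN]
  -- the form on the complement
  obtain ⟨b, hb⟩ := LinearMap.BilinForm.exists_orthogonal_basis (B := B.restrict (perp q N))
    (⟨fun x y => hBs.eq x y⟩)
  have horth : ∀ i j, i ≠ j → (b i : κ → ℚ) ⬝ᵥ (q *ᵥ (b j : κ → ℚ)) = 0 := by
    intro i j hij
    have h1 := hb hij
    rw [← hBa]
    exact h1
  have hdec : ∀ x : κ → ℚ, ∃ v ∈ N, ∃ a : Fin (Module.finrank ℚ (perp q N)) → ℚ,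
      x = v + ∑ i, a i • (b i : κ → ℚ) := by
    intro x
    have hx : x ∈ N ⊔ perp q N := by
      rw [hcompl.sup_eq_top]
      trivial
    obtain ⟨v, hv, w, hw, rfl⟩ := Submodule.mem_sup.1 hx
    refine ⟨v, hv, fun i => b.repr ⟨w, hw⟩ i, ?_⟩
    congr 1
    have h1 := b.sum_repr ⟨w, hw⟩
    have h2 := congrArg (Subtype.val) h1
    rw [Submodule.coe_sum] at h2
    exact h2.symm
  refine ⟨fun i => b i, fun i => (b i : κ → ℚ) ⬝ᵥ (q *ᵥ (b i : κ → ℚ)), ?_, ?_, ?_, hdec⟩
  · intro i h0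
    -- `b i` is orthogonal to everything
    have h1 : ∀ x : κ → ℚ, x ⬝ᵥ (q *ᵥ (b i : κ → ℚ)) = 0 := by
      intro x
      obtain ⟨v, hv, a, rfl⟩ := hdec x
      rw [add_dotProduct, (b i).2 v hv, zero_add, sum_dotProduct]
      refine Finset.sum_eq_zero fun j _ => ?_
      rw [smul_dotProduct]
      rcases eq_or_ne j i with rfl | hji
      · have h0' : (b j : κ → ℚ) ⬝ᵥ (q *ᵥ (b j : κ → ℚ)) = 0 := h0
        rw [h0', smul_zero]
      · rw [horth j i hji, smul_zero]
    have h2 : q *ᵥ (b i : κ → ℚ) = 0 := by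
      have h3 := h1 (q *ᵥ (b i : κ → ℚ))
      exact dotProduct_self_eq_zero.1 h3
    have h3 : (b i : κ → ℚ) = 0 := by
      by_contra h4
      exact hd (Matrix.exists_mulVec_eq_zero_iff.1 ⟨_, h4, h2⟩)
    exact b.ne_zero i (Subtype.ext h3)
  · intro i j
    split_ifs with hij
    · subst hij
      rfl
    · exact horth i j hij
  · intro i v hv
    exact (b i).2 v hv

end form

section ext

variable {κ : Type} [Fintype κ] [DecidableEq κ] {q : Matrix κ κ ℚ} {N : Submodule ℚ (κ → ℚ)}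
  {F : Type} [Field F] [CharZero F] [Algebra ℚ F] {r : ℕ} {e : Fin r → κ → ℚ} {c : Fin r → ℚ}

theorem cst_add (v w : κ → ℚ) : cst F (v + w) = cst F v + cst F w := by
  funext k
  exact map_add _ _ _

theorem cst_smul (a : ℚ) (v : κ → ℚ) : cst F (a • v) = algebraMap ℚ F a • cst F v := by
  funext k
  exact map_mul _ _ _

theorem cst_sum {ι : Type} (s : Finset ι) (v : ι → κ → ℚ) :
    cst F (∑ i ∈ s, v i) = ∑ i ∈ s, cst F (v i) := by
  funext k
  simp only [cst, Finset.sum_apply, map_sum]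

theorem cst_dot (v w : κ → ℚ) : cst F v ⬝ᵥ cst F w = algebraMap ℚ F (v ⬝ᵥ w) := by
  simp only [dotProduct, cst, map_sum, map_mul]

theorem cst_mulVec (A : Matrix κ κ ℚ) (v : κ → ℚ) :
    A.map (algebraMap ℚ F) *ᵥ cst F v = cst F (A *ᵥ v) := by
  funext k
  simp only [mulVec, dotProduct, cst, Matrix.map_apply, map_sum, map_mul]

/-- Two matrices with the same values at the rational vectors are equal. -/
theorem mat_eq {A B : Matrix κ κ F} (h : ∀ v : κ → ℚ, A *ᵥ cst F v = B *ᵥ cst F v) : A = B := by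
  ext i j
  have h1 := congrFun (h (Pi.single j 1)) i
  have h2 : cst F (Pi.single j (1 : ℚ)) = Pi.single j (1 : F) := by
    funext k
    unfold cst
    rcases eq_or_ne k j with rfl | hk
    · rw [Pi.single_eq_same, Pi.single_eq_same, map_one]
    · rw [Pi.single_eq_of_ne hk, Pi.single_eq_of_ne hk, map_zero]
  rw [h2, mulVec_single_one, mulVec_single_one] at h1
  exact h1

/-- The matrix of `x ↦ q(e_j, x) e_i`. -/
def uu (q : Matrix κ κ ℚ) (e : Fin r → κ → ℚ) (F : Type) [Field F] [Algebra ℚ F] (i j : Fin r) :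
    Matrix κ κ F := vecMulVec (cst F (e i)) (cst F (q *ᵥ e j))

/-- The matrix of `e_i ∧ e_j`. -/
def xx (q : Matrix κ κ ℚ) (e : Fin r → κ → ℚ) (F : Type) [Field F] [Algebra ℚ F] (i j : Fin r) :
    Matrix κ κ F := uu q e F i j - uu q e F j i

theorem uu_mulVec (i j : Fin r) (x : κ → F) :
    uu q e F i j *ᵥ x = (cst F (q *ᵥ e j) ⬝ᵥ x) • cst F (e i) := by
  unfold uu
  rw [vecMulVec_mulVec]
  funext k
  simp [mul_comm]

theorem uu_mul (hs : qᵀ = q) (he : ∀ i j, e i ⬝ᵥ (q *ᵥ e j) = if i = j then c i else 0)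
    (i j k l : Fin r) : uu q e F i j * uu q e F k l =
      if j = k then algebraMap ℚ F (c j) • uu q e F i l else 0 := by
  unfold uu
  rw [vecMulVec_mul_vecMulVec, cst_dot, dotProduct_comm, dotProduct_mulVec, ← mulVec_transpose, hs,
    dotProduct_comm, he]
  split_ifs with h
  · ext a b
    simp [vecMulVec_apply]
    ring
  · rw [map_zero]
    ext a b
    simp [vecMulVec_apply]

theorem xx_sys (hs : qᵀ = q) (hc : ∀ i, c i ≠ 0)
    (he : ∀ i j, e i ⬝ᵥ (q *ᵥ e j) = if i = j then c i else 0) :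
    SoSys (xx q e F) fun i => algebraMap ℚ F (c i) :=
  sys_of_units (fun i => (map_ne_zero _).2 (hc i)) (uu_mul hs he)

theorem xx_mem (hs : qᵀ = q) (hp : ∀ i, ∀ v ∈ N, v ⬝ᵥ (q *ᵥ e i) = 0) (i j : Fin r) :
    xx q e F i j ∈ soPerp q N F := by
  have hv : ∀ i, ∀ v ∈ N, cst F (q *ᵥ e i) ⬝ᵥ cst F v = 0 := by
    intro i v hv
    rw [cst_dot, dotProduct_comm, hp i v hv, map_zero]
  refine ⟨?_, fun v hv' => ?_⟩
  · have h1 : ∀ i j, (uu q e F i j)ᵀ * q.map (algebraMap ℚ F) =
        vecMulVec (cst F (q *ᵥ e j)) (cst F (q *ᵥ e i)) := by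
      intro i j
      unfold uu
      rw [transpose_vecMulVec, vecMulVec_mul, ← mulVec_transpose, ← transpose_map, hs, cst_mulVec]
    have h2 : ∀ i j, q.map (algebraMap ℚ F) * uu q e F i j =
        vecMulVec (cst F (q *ᵥ e i)) (cst F (q *ᵥ e j)) := by
      intro i j
      unfold uu
      rw [mul_vecMulVec, cst_mulVec]
    unfold SkewMat xx
    rw [transpose_sub, sub_mul, mul_sub, h1, h1, h2, h2]
    abel
  · unfold xx
    rw [sub_mulVec, uu_mulVec, uu_mulVec, hv j v hv', hv i v hv', zero_smul, zero_smul, sub_self]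

theorem skew_dot {A : Matrix κ κ F} (hA : SkewMat (q.map (algebraMap ℚ F)) A) (x y : κ → F) :
    (A *ᵥ x) ⬝ᵥ (q.map (algebraMap ℚ F) *ᵥ y) = -(x ⬝ᵥ (q.map (algebraMap ℚ F) *ᵥ (A *ᵥ y))) := by
  unfold SkewMat at hA
  have h1 : Aᵀ * q.map (algebraMap ℚ F) = -(q.map (algebraMap ℚ F) * A) :=
    eq_neg_of_add_eq_zero_left hA
  rw [← vecMul_transpose, ← dotProduct_mulVec, mulVec_mulVec, h1, neg_mulVec,
    dotProduct_neg, mulVec_mulVec]

theorem eq_of_dot (hd : q.det ≠ 0) {y z : κ → F}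
    (h : ∀ x : κ → ℚ, cst F x ⬝ᵥ (q.map (algebraMap ℚ F) *ᵥ y) =
      cst F x ⬝ᵥ (q.map (algebraMap ℚ F) *ᵥ z)) : y = z := by
  have hd' : IsUnit (q.map (algebraMap ℚ F)).det := by
    refine isUnit_iff_ne_zero.2 ?_
    have h1 : (q.map (algebraMap ℚ F)).det = algebraMap ℚ F q.det := by
      rw [RingHom.map_det]
      rfl
    rw [h1]
    exact (map_ne_zero _).2 hd
  have h2 : q.map (algebraMap ℚ F) *ᵥ y = q.map (algebraMap ℚ F) *ᵥ z := by
    funext k
    have h3 := h (Pi.single k 1)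
    have h4 : cst F (Pi.single k (1 : ℚ)) = Pi.single k (1 : F) := by
      funext j
      unfold cst
      rcases eq_or_ne j k with rfl | hk
      · rw [Pi.single_eq_same, Pi.single_eq_same, map_one]
      · rw [Pi.single_eq_of_ne hk, Pi.single_eq_of_ne hk, map_zero]
    rw [h4, single_one_dotProduct, single_one_dotProduct] at h3
    exact h3
  have h3 := congrArg (fun v => (q.map (algebraMap ℚ F))⁻¹ *ᵥ v) h2
  simp only [mulVec_mulVec, nonsing_inv_mul _ hd', one_mulVec] at h3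
  exact h3

/-- The elements `e_i ∧ e_j` span the Lie algebra. -/
theorem span_xx (hs : qᵀ = q) (hd : q.det ≠ 0) (hc : ∀ i, c i ≠ 0)
    (he : ∀ i j, e i ⬝ᵥ (q *ᵥ e j) = if i = j then c i else 0)
    (hp : ∀ i, ∀ v ∈ N, v ⬝ᵥ (q *ᵥ e i) = 0)
    (hdec : ∀ x, ∃ v ∈ N, ∃ a : Fin r → ℚ, x = v + ∑ i, a i • e i) {A : Matrix κ κ F}
    (hA : A ∈ soPerp q N F) :
    A ∈ Submodule.span F (Set.range fun p : Fin r × Fin r => xx q e F p.1 p.2) := by
  classical
  obtain ⟨hsk, hk⟩ := hA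
  have hcF : ∀ i, algebraMap ℚ F (c i) ≠ 0 := fun i => (map_ne_zero _).2 (hc i)
  have heF : ∀ i j, cst F (e i) ⬝ᵥ (q.map (algebraMap ℚ F) *ᵥ cst F (e j)) =
      if i = j then algebraMap ℚ F (c i) else 0 := by
    intro i j
    rw [cst_mulVec, cst_dot, he]
    split_ifs with h
    · rfl
    · exact map_zero _
  have hqe : ∀ i j, cst F (q *ᵥ e i) ⬝ᵥ cst F (e j) =
      if i = j then algebraMap ℚ F (c i) else 0 := by
    intro i j
    rw [dotProduct_comm, ← cst_mulVec, heF]
    by_cases h : i = j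
    · subst h
      rfl
    · rw [if_neg h, if_neg (Ne.symm h)]
  set al : Fin r → Fin r → F := fun i j =>
    (cst F (e i) ⬝ᵥ (q.map (algebraMap ℚ F) *ᵥ (A *ᵥ cst F (e j)))) *
      (algebraMap ℚ F (c i))⁻¹ * (algebraMap ℚ F (c j))⁻¹ with hal
  have hanti : ∀ i j, al j i = -al i j := by
    intro i j
    simp only [hal]
    have h1 := skew_dot hsk (cst F (e i)) (cst F (e j))
    have h2 : (A *ᵥ cst F (e i)) ⬝ᵥ (q.map (algebraMap ℚ F) *ᵥ cst F (e j)) =
        cst F (e j) ⬝ᵥ (q.map (algebraMap ℚ F) *ᵥ (A *ᵥ cst F (e i))) := by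
      rw [dotProduct_mulVec, ← mulVec_transpose, ← transpose_map, hs, dotProduct_comm]
    rw [← h2, h1]
    ring
  -- the values at the basis
  have hAe : ∀ k, A *ᵥ cst F (e k) = ∑ i, (al i k * algebraMap ℚ F (c k)) • cst F (e i) := by
    intro k
    refine eq_of_dot hd fun x => ?_
    obtain ⟨v, hv, a, rfl⟩ := hdec x
    have h1 : cst F v ⬝ᵥ (q.map (algebraMap ℚ F) *ᵥ (A *ᵥ cst F (e k))) = 0 := by
      have h2 := skew_dot hsk (cst F v) (cst F (e k))
      rw [hk v hv, zero_dotProduct] at h2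
      exact (neg_eq_zero.1 h2.symm)
    have h2 : cst F v ⬝ᵥ (q.map (algebraMap ℚ F) *ᵥ
        ∑ i, (al i k * algebraMap ℚ F (c k)) • cst F (e i)) = 0 := by
      rw [mulVec_sum, dotProduct_sum]
      refine Finset.sum_eq_zero fun i _ => ?_
      rw [mulVec_smul, dotProduct_smul, cst_mulVec, cst_dot, hp i v hv, map_zero, smul_zero]
    rw [cst_add, cst_sum, add_dotProduct, add_dotProduct, h1, h2, sum_dotProduct, sum_dotProduct]
    congr 1
    refine Finset.sum_congr rfl fun m _ => ?_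
    rw [cst_smul, smul_dotProduct, smul_dotProduct]
    congr 1
    rw [mulVec_sum, dotProduct_sum, Finset.sum_eq_single m]
    · rw [mulVec_smul, dotProduct_smul, heF, if_pos rfl, smul_eq_mul]
      simp only [hal]
      have hm := hcF m
      have hk' := hcF k
      field_simp
    · intro i _ hi
      rw [mulVec_smul, dotProduct_smul, heF, if_neg (Ne.symm hi), smul_zero]
    · intro h
      exact absurd (Finset.mem_univ m) h
  have hsum : A = ∑ p : Fin r × Fin r, (al p.1 p.2 / 2) • xx q e F p.1 p.2 := by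
    refine mat_eq fun x => ?_
    obtain ⟨v, hv, a, rfl⟩ := hdec x
    rw [cst_add, cst_sum, mulVec_add, mulVec_add, hk v hv]
    have h1 : (∑ p : Fin r × Fin r, (al p.1 p.2 / 2) • xx q e F p.1 p.2) *ᵥ cst F v = 0 := by
      rw [sum_mulVec]
      refine Finset.sum_eq_zero fun p _ => ?_
      rw [smul_mulVec, (xx_mem hs hp p.1 p.2).2 v hv, smul_zero]
    rw [h1]
    congr 1
    rw [mulVec_sum, mulVec_sum]
    refine Finset.sum_congr rfl fun k _ => ?_
    rw [cst_smul, mulVec_smul, mulVec_smul]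
    congr 1
    rw [hAe k, sum_mulVec, Fintype.sum_prod_type]
    have h2 : ∀ i j, ((al i j / 2) • xx q e F i j) *ᵥ cst F (e k) =
        (if j = k then (al i k / 2 * algebraMap ℚ F (c k)) • cst F (e i) else 0) -
        (if i = k then (al k j / 2 * algebraMap ℚ F (c k)) • cst F (e j) else 0) := by
      intro i j
      unfold xx
      rw [smul_mulVec, sub_mulVec, uu_mulVec, uu_mulVec, hqe, hqe, smul_sub]
      congr 1
      · split_ifs with h
        · subst h
          rw [smul_smul]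
        · rw [zero_smul, smul_zero]
      · split_ifs with h
        · subst h
          rw [smul_smul]
        · rw [zero_smul, smul_zero]
    simp only [h2, Finset.sum_sub_distrib, Finset.sum_ite_eq', Finset.mem_univ, if_true]
    have h3 : ∑ i : Fin r, ∑ j : Fin r, (if i = k then
        (al k j / 2 * algebraMap ℚ F (c k)) • cst F (e j) else 0) =
        ∑ j : Fin r, (al k j / 2 * algebraMap ℚ F (c k)) • cst F (e j) := by
      rw [Finset.sum_comm]
      refine Finset.sum_congr rfl fun j _ => ?_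
      rw [Finset.sum_ite_eq' Finset.univ k, if_pos (Finset.mem_univ _)]
    rw [h3, ← Finset.sum_sub_distrib]
    refine Finset.sum_congr rfl fun i _ => ?_
    rw [← sub_smul]
    congr 1
    rw [hanti i k]
    ring
  rw [hsum]
  exact Submodule.sum_mem _ fun p _ => Submodule.smul_mem _ _ (Submodule.subset_span ⟨p, rfl⟩)

/-- The data of an orthogonal basis of the orthogonal complement of `N`. -/
structure OB (q : Matrix κ κ ℚ) (N : Submodule ℚ (κ → ℚ)) {r : ℕ} (e : Fin r → κ → ℚ)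
    (c : Fin r → ℚ) : Prop where
  hs : qᵀ = q
  hd : q.det ≠ 0
  hc : ∀ i, c i ≠ 0
  he : ∀ i j, e i ⬝ᵥ (q *ᵥ e j) = if i = j then c i else 0
  hp : ∀ i, ∀ v ∈ N, v ⬝ᵥ (q *ᵥ e i) = 0
  hdec : ∀ x, ∃ v ∈ N, ∃ a : Fin r → ℚ, x = v + ∑ i, a i • e i

/-- The commutators of elements of `soPerp`. -/
theorem soPerp_lie {A B : Matrix κ κ F} (hA : A ∈ soPerp q N F) (hB : B ∈ soPerp q N F) :
    A * B - B * A ∈ soPerp q N F := by
  obtain ⟨hA1, hA2⟩ := hA
  obtain ⟨hB1, hB2⟩ := hB
  refine ⟨?_, fun v hv => ?_⟩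
  · unfold SkewMat at *
    have hA' : Aᵀ * q.map (algebraMap ℚ F) = -(q.map (algebraMap ℚ F) * A) :=
      eq_neg_of_add_eq_zero_left hA1
    have hB' : Bᵀ * q.map (algebraMap ℚ F) = -(q.map (algebraMap ℚ F) * B) :=
      eq_neg_of_add_eq_zero_left hB1
    rw [Matrix.transpose_sub, Matrix.transpose_mul, Matrix.transpose_mul, sub_mul, mul_assoc,
      mul_assoc, hA', hB', mul_neg, mul_neg, ← mul_assoc, ← mul_assoc, hA', hB', mul_sub]
    rw [neg_mul, neg_mul, mul_assoc, mul_assoc]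
    abel
  · rw [sub_mulVec, ← mulVec_mulVec, ← mulVec_mulVec, hA2 v hv, hB2 v hv, mulVec_zero, mulVec_zero,
      sub_self]

/-- **`so(T)` is simple** for `dim T ≥ 5`. -/
theorem OB.simple (h : OB q N e c) (h5 : 5 ≤ r) (I : Submodule F (Matrix κ κ F))
    (hI : I ≤ soPerp q N F)
    (hid : ∀ x ∈ soPerp q N F, ∀ y ∈ I, x * y - y * x ∈ I) : I = ⊥ ∨ I = soPerp q N F := by
  rcases eq_or_ne I ⊥ with h0 | h0
  · exact Or.inl h0
  refine Or.inr (le_antisymm hI fun A hA => ?_)
  have h1 := span_xx h.hs h.hd h.hc h.he h.hp h.hdec hA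
  refine (Submodule.span_le.2 ?_) h1
  rintro _ ⟨p, rfl⟩
  exact (xx_sys (F := F) h.hs h.hc h.he).simple h5 I
    (fun y hy => span_xx h.hs h.hd h.hc h.he h.hp h.hdec (hI hy))
    (fun i j y hy => hid _ (xx_mem h.hs h.hp i j) y hy) h0 p.1 p.2

theorem OB.xx_dot (h : OB q N e c) (i j k l : Fin r) :
    cst F (e i) ⬝ᵥ (q.map (algebraMap ℚ F) *ᵥ (xx q e F k l *ᵥ cst F (e j))) =
      (if l = j ∧ k = i then algebraMap ℚ F (c k) * algebraMap ℚ F (c l) else 0) -
      (if k = j ∧ l = i then algebraMap ℚ F (c k) * algebraMap ℚ F (c l) else 0) := by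
  have heF : ∀ i j, cst F (e i) ⬝ᵥ (q.map (algebraMap ℚ F) *ᵥ cst F (e j)) =
      if i = j then algebraMap ℚ F (c i) else 0 := by
    intro i j
    rw [cst_mulVec, cst_dot, h.he]
    split_ifs with h
    · rfl
    · exact map_zero _
  have hqe : ∀ i j, cst F (q *ᵥ e i) ⬝ᵥ cst F (e j) =
      if i = j then algebraMap ℚ F (c i) else 0 := by
    intro i j
    rw [dotProduct_comm, ← cst_mulVec, heF]
    by_cases h : i = j
    · subst h
      rfl
    · rw [if_neg h, if_neg (Ne.symm h)]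
  unfold xx
  rw [sub_mulVec, uu_mulVec, uu_mulVec, hqe, hqe, mulVec_sub, mulVec_smul, mulVec_smul,
    dotProduct_sub, dotProduct_smul, dotProduct_smul, heF, heF, smul_eq_mul, smul_eq_mul]
  congr 1
  · by_cases h1 : l = j
    · by_cases h2 : i = k
      · subst h1 h2
        rw [if_pos rfl, if_pos rfl, if_pos ⟨rfl, rfl⟩, mul_comm]
      · rw [if_neg h2, mul_zero, if_neg fun h3 => h2 h3.2.symm]
    · rw [if_neg h1, zero_mul, if_neg fun h3 => h1 h3.1]
  · by_cases h1 : k = j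
    · by_cases h2 : i = l
      · subst h1 h2
        rw [if_pos rfl, if_pos rfl, if_pos ⟨rfl, rfl⟩]
      · rw [if_neg h2, mul_zero, if_neg fun h3 => h2 h3.2.symm]
    · rw [if_neg h1, zero_mul, if_neg fun h3 => h1 h3.1]

theorem OB.xx_ne (h : OB q N e c) {k l : Fin r} (hkl : k ≠ l) : xx q e F k l ≠ 0 := by
  intro h0
  have h1 := h.xx_dot (F := F) k l k l
  rw [h0, zero_mulVec, mulVec_zero, dotProduct_zero, if_pos ⟨rfl, rfl⟩,
    if_neg fun h2 => hkl h2.1, sub_zero] at h1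
  exact mul_ne_zero ((map_ne_zero _).2 (h.hc k)) ((map_ne_zero _).2 (h.hc l)) h1.symm

/-- The centre of `so(T)` is zero. -/
theorem OB.center (h : OB q N e c) (h5 : 5 ≤ r) {A : Matrix κ κ F} (hA : A ∈ soPerp q N F)
    (hc : ∀ B ∈ soPerp q N F, B * A - A * B = 0) : A = 0 := by
  set I : Submodule F (Matrix κ κ F) :=
    { carrier := {A | A ∈ soPerp q N F ∧ ∀ B ∈ soPerp q N F, B * A - A * B = 0}
      zero_mem' := ⟨Submodule.zero_mem _, fun B _ => by rw [mul_zero, zero_mul, sub_zero]⟩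
      add_mem' := by
        rintro x y ⟨hx, hx'⟩ ⟨hy, hy'⟩
        refine ⟨Submodule.add_mem _ hx hy, fun B hB => ?_⟩
        rw [mul_add, add_mul, add_sub_add_comm, hx' B hB, hy' B hB, add_zero]
      smul_mem' := by
        rintro a x ⟨hx, hx'⟩
        refine ⟨Submodule.smul_mem _ _ hx, fun B hB => ?_⟩
        rw [mul_smul_comm, smul_mul_assoc, ← smul_sub, hx' B hB, smul_zero] } with hI
  rcases h.simple (F := F) h5 I (fun x hx => hx.1) (fun x hx y hy => by
    rw [hy.2 x hx]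
    exact Submodule.zero_mem _) with h1 | h1
  · have h2 : A ∈ I := ⟨hA, hc⟩
    rw [h1] at h2
    exact (Submodule.mem_bot F).1 h2
  · exfalso
    have h01 : (⟨0, by omega⟩ : Fin r) ≠ ⟨1, by omega⟩ := by simp
    have h02 : (⟨0, by omega⟩ : Fin r) ≠ ⟨2, by omega⟩ := by simp
    have h12 : (⟨1, by omega⟩ : Fin r) ≠ ⟨2, by omega⟩ := by simp
    have h2 : xx q e F ⟨0, by omega⟩ ⟨2, by omega⟩ ∈ I := by
      rw [h1]
      exact xx_mem h.hs h.hp _ _
    have h3 := h2.2 _ (xx_mem h.hs h.hp ⟨0, by omega⟩ ⟨1, by omega⟩)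
    have h4 := (xx_sys (F := F) h.hs h.hc h.he).share ⟨0, by omega⟩ ⟨1, by omega⟩ ⟨2, by omega⟩
      h01 h02 h12
    rw [adl_apply, h3] at h4
    have h5 := neg_eq_zero.1 h4.symm
    rcases smul_eq_zero.1 h5 with h6 | h6
    · exact (map_ne_zero _).2 (h.hc _) h6
    · exact h.xx_ne h12 h6

/-- The dimension of `so(T)`. -/
theorem OB.finrank (h : OB q N e c) :
    r * (r - 1) / 2 ≤ Module.finrank F (soPerp q N F) := by
  classical
  let P := Σ j : Fin r, Fin (j : ℕ)
  have hcard : Fintype.card (Σ j : Fin r, Fin (j : ℕ)) = r * (r - 1) / 2 := by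
    rw [Fintype.card_sigma]
    simp only [Fintype.card_fin]
    rw [Fin.sum_univ_eq_sum_range (fun i => i), Finset.sum_range_id]
  let lo : P → Fin r := fun p => ⟨p.2, p.2.2.trans p.1.2⟩
  have hlo : ∀ p : P, lo p < p.1 := fun p => Fin.lt_def.2 p.2.2
  have hinj : ∀ p p' : P, p.1 = p'.1 → lo p = lo p' → p = p' := by
    rintro ⟨j, x⟩ ⟨j', x'⟩ h1 h2
    simp only at h1
    subst h1
    have h3 : (x : ℕ) = x' := congrArg (fun y : Fin r => (y : ℕ)) h2
    rw [Fin.ext h3]
  let Ψ : soPerp q N F →ₗ[F] (P → F) :=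
    { toFun := fun A p => cst F (e (lo p)) ⬝ᵥ (q.map (algebraMap ℚ F) *ᵥ
        ((A : Matrix κ κ F) *ᵥ cst F (e p.1)))
      map_add' := fun A B => by
        funext p
        rw [Submodule.coe_add, add_mulVec, mulVec_add, dotProduct_add]
        rfl
      map_smul' := fun a A => by
        funext p
        rw [Submodule.coe_smul, smul_mulVec, mulVec_smul, dotProduct_smul]
        rfl }
  have hΨ : Function.Surjective Ψ := by
    rw [← LinearMap.range_eq_top, eq_top_iff]
    intro f _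
    have h1 : f = ∑ p : P, f p • Pi.single p (1 : F) := by
      funext p
      rw [Finset.sum_apply, Finset.sum_eq_single p]
      · simp
      · intro p' _ hp'
        simp [Pi.single_eq_of_ne hp'.symm]
      · intro h2
        exact absurd (Finset.mem_univ p) h2
    rw [h1]
    refine Submodule.sum_mem _ fun p _ => Submodule.smul_mem _ _ ?_
    have hne : algebraMap ℚ F (c (lo p)) * algebraMap ℚ F (c p.1) ≠ 0 :=
      mul_ne_zero ((map_ne_zero _).2 (h.hc _)) ((map_ne_zero _).2 (h.hc _))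
    refine ⟨(algebraMap ℚ F (c (lo p)) * algebraMap ℚ F (c p.1))⁻¹ •
      ⟨xx q e F (lo p) p.1, xx_mem h.hs h.hp _ _⟩, ?_⟩
    rw [map_smul]
    funext p'
    rw [Pi.smul_apply, smul_eq_mul]
    change _ * (cst F (e (lo p')) ⬝ᵥ (q.map (algebraMap ℚ F) *ᵥ
      (xx q e F (lo p) p.1 *ᵥ cst F (e p'.1)))) = _
    rw [h.xx_dot]
    rcases eq_or_ne p' p with rfl | hpp
    · rw [if_pos ⟨rfl, rfl⟩, if_neg fun h2 => (hlo p').ne h2.1, sub_zero, inv_mul_cancel₀ hne,
        Pi.single_eq_same]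
    · rw [if_neg fun h2 => hpp (hinj _ _ h2.1.symm h2.2.symm), if_neg, sub_zero, mul_zero,
        Pi.single_eq_of_ne hpp]
      rintro ⟨h2, h3⟩
      have h4 := hlo p
      have h5 := hlo p'
      rw [← h2, ← h3] at h5
      exact absurd h4 h5.not_gt
  have h2 := LinearMap.finrank_le_finrank_of_surjective hΨ
  rw [Module.finrank_fintype_fun_eq_card, hcard] at h2
  exact h2

end ext

end

end Run7.h411.Gen
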