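import Mathlib

/-!
# Goursat's lemma for simple Lie algebras and Lie algebras of small dimension
-/

set_option autoImplicit false
set_option linter.unusedSectionVars false

namespace Run7.h411.Gen

noncomputable section

variable {F : Type} [Field F] {T κ : Type} [Fintype T] [DecidableEq T] [Fintype κ] [DecidableEq κ]
  {R : T → Type} [∀ t, Ring (R t)] [∀ t, Algebra F (R t)] [∀ t, FiniteDimensional F (R t)]
  {M : κ → Type} [∀ k, Ring (M k)] [∀ k, Algebra F (M k)] [∀ k, FiniteDimensional F (M k)]
  (s : ∀ t, Submodule F (R t)) (h : Submodule F ((∀ t, R t) × (∀ k, M k)))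

/-- The first components of the elements of `h` whose components at the places of `K` are zero. -/
def JJ (K : Finset κ) : Submodule F (∀ t, R t) where
  carrier := {y | ∃ z, (y, z) ∈ h ∧ ∀ k ∈ K, z k = 0}
  zero_mem' := ⟨0, h.zero_mem, fun _ _ => rfl⟩
  add_mem' := by
    rintro y y' ⟨z, hz, hz0⟩ ⟨z', hz', hz0'⟩
    exact ⟨z + z', h.add_mem hz hz', fun k hk => by
      rw [Pi.add_apply, hz0 k hk, hz0' k hk, add_zero]⟩
  smul_mem' := by
    rintro a y ⟨z, hz, hz0⟩
    exact ⟨a • z, h.smul_mem a hz, fun k hk => by rw [Pi.smul_apply, hz0 k hk, smul_zero]⟩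

/-- All elements of `s t` lie in `JJ K`. -/
def GoodAt (K : Finset κ) (t : T) : Prop := ∀ x ∈ s t, Pi.single t x ∈ JJ h K

variable {s h}

theorem JJ_ideal (hlie : ∀ x ∈ h, ∀ y ∈ h, x * y - y * x ∈ h)
    (hsurj : ∀ t, ∀ x ∈ s t, ∃ z, ((Pi.single t x : ∀ t, R t), z) ∈ h) (K : Finset κ) {t : T}
    {x : R t} (hx : x ∈ s t) {y : ∀ t, R t} (hy : y ∈ JJ h K) :
    Pi.single t (x * y t - y t * x) ∈ JJ h K := by
  obtain ⟨z, hz, hz0⟩ := hy
  obtain ⟨z', hz'⟩ := hsurj t x hx
  have h1 := hlie _ hz' _ hz
  refine ⟨z' * z - z * z', ?_, fun k hk => ?_⟩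
  · have h2 : (Pi.single t (x * y t - y t * x) : ∀ t, R t) =
        Pi.single t x * y - y * Pi.single t x := by
      funext t'
      rcases eq_or_ne t' t with rfl | ht
      · simp
      · simp [Pi.single_eq_of_ne ht]
    rw [h2]
    exact h1
  · rw [Pi.sub_apply, Pi.mul_apply, Pi.mul_apply, hz0 k hk, mul_zero, zero_mul, sub_zero]

/-- **Goursat's lemma.** -/
theorem goursat (hsl : ∀ t, ∀ x ∈ s t, ∀ y ∈ s t, x * y - y * x ∈ s t)
    (hsimple : ∀ t, ∀ I : Submodule F (R t), I ≤ s t →
      (∀ x ∈ s t, ∀ y ∈ I, x * y - y * x ∈ I) → I = ⊥ ∨ I = s t)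
    (hcenter : ∀ t, ∀ y ∈ s t, (∀ x ∈ s t, x * y - y * x = 0) → y = 0)
    (hlie : ∀ x ∈ h, ∀ y ∈ h, x * y - y * x ∈ h)
    (hsurj : ∀ t, ∀ x ∈ s t, ∃ z, ((Pi.single t x : ∀ t, R t), z) ∈ h) :
    ∃ Bd : κ → Finset T,
      (∀ k, ∑ t ∈ Bd k, Module.finrank F (s t) ≤ Module.finrank F (M k)) ∧
      ∀ t, (∀ k, t ∉ Bd k) → ∀ x ∈ s t, ((Pi.single t x : ∀ t, R t), (0 : ∀ k, M k)) ∈ h := by
  classical
  -- the alternative
  have hbot : ∀ (K : Finset κ) (t : T), ¬ GoodAt s h K t → ∀ x ∈ s t, Pi.single t x ∈ JJ h K →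
      x = 0 := by
    intro K t hng x hx hxJ
    set I : Submodule F (R t) := s t ⊓ (JJ h K).comap (LinearMap.single F R t) with hI
    rcases hsimple t I inf_le_left (fun a ha b hb => ⟨hsl t a ha b hb.1, by
      have h1 := JJ_ideal hlie hsurj K ha hb.2
      change Pi.single t _ ∈ JJ h K
      have h2 : (LinearMap.single F R t) b t = b := by
        rw [LinearMap.single_apply, Pi.single_eq_same]
      rw [h2] at h1
      exact h1⟩) with h1 | h1
    · have h2 : x ∈ I := ⟨hx, hxJ⟩
      rw [h1] at h2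
      exact (Submodule.mem_bot F).1 h2
    · exfalso
      refine hng fun a ha => ?_
      rw [← h1] at ha
      exact ha.2
  -- the estimate of the dimension
  have hdim : ∀ (K : Finset κ) (k : κ) (P : Finset T),
      (∀ t ∈ P, GoodAt s h K t ∧ ¬ GoodAt s h (insert k K) t) →
      ∑ t ∈ P, Module.finrank F (s t) ≤ Module.finrank F (M k) := by
    intro K k P hP
    let SP : Submodule F (∀ t, R t) :=
      { carrier := {y | ∀ t, (t ∈ P → y t ∈ s t) ∧ (t ∉ P → y t = 0)}
        zero_mem' := fun t => ⟨fun _ => Submodule.zero_mem _, fun _ => rfl⟩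
        add_mem' := fun {y y'} hy hy' t => ⟨fun ht => Submodule.add_mem _ ((hy t).1 ht) ((hy' t).1 ht),
          fun ht => by rw [Pi.add_apply, (hy t).2 ht, (hy' t).2 ht, add_zero]⟩
        smul_mem' := fun a y hy t => ⟨fun ht => Submodule.smul_mem _ _ ((hy t).1 ht),
          fun ht => by rw [Pi.smul_apply, (hy t).2 ht, smul_zero]⟩ }
    have hSPJ : ∀ y ∈ SP, y ∈ JJ h K := by
      intro y hy
      have h1 : y = ∑ t, Pi.single t (y t) := (Finset.univ_sum_single y).symm
      rw [h1]
      refine Submodule.sum_mem _ fun t _ => ?_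
      by_cases ht : t ∈ P
      · exact (hP t ht).1 _ ((hy t).1 ht)
      · rw [(hy t).2 ht, Pi.single_zero]
        exact Submodule.zero_mem _
    have hSP0 : ∀ y ∈ SP, y ∈ JJ h (insert k K) → y = 0 := by
      intro y hy hyJ
      funext t
      by_cases ht : t ∈ P
      · refine hcenter t _ ((hy t).1 ht) fun x hx => ?_
        exact hbot _ t (hP t ht).2 _ (hsl t x hx _ ((hy t).1 ht))
          (JJ_ideal hlie hsurj _ hx hyJ)
      · exact (hy t).2 ht
    let hP' : Submodule F ((∀ t, R t) × (∀ k, M k)) :=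
      { carrier := {x | x ∈ h ∧ x.1 ∈ SP ∧ ∀ k ∈ K, x.2 k = 0}
        zero_mem' := ⟨h.zero_mem, SP.zero_mem, fun _ _ => rfl⟩
        add_mem' := by
          rintro x y ⟨h1, h2, h3⟩ ⟨h1', h2', h3'⟩
          exact ⟨h.add_mem h1 h1', SP.add_mem h2 h2', fun k hk => by
            rw [Prod.snd_add, Pi.add_apply, h3 k hk, h3' k hk, add_zero]⟩
        smul_mem' := by
          rintro a x ⟨h1, h2, h3⟩
          exact ⟨h.smul_mem a h1, SP.smul_mem a h2, fun k hk => by
            rw [Prod.smul_snd, Pi.smul_apply, h3 k hk, smul_zero]⟩ }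
    let g : hP' →ₗ[F] SP :=
      { toFun := fun x => ⟨x.1.1, x.2.2.1⟩
        map_add' := fun x y => rfl
        map_smul' := fun a x => rfl }
    let f : hP' →ₗ[F] M k :=
      { toFun := fun x => x.1.2 k
        map_add' := fun x y => rfl
        map_smul' := fun a x => rfl }
    have hg : Function.Surjective g := by
      rintro ⟨y, hy⟩
      obtain ⟨z, hz, hz0⟩ := hSPJ y hy
      exact ⟨⟨(y, z), hz, hy, hz0⟩, rfl⟩
    have hker : LinearMap.ker f ≤ LinearMap.ker g := by
      rintro ⟨⟨y, z⟩, h1, h2, h3⟩ hf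
      rw [LinearMap.mem_ker] at hf ⊢
      have h4 : z k = 0 := hf
      have h5 : y = 0 := hSP0 y h2 ⟨z, h1, fun k' hk' => by
        rcases Finset.mem_insert.1 hk' with rfl | hk'
        · exact h4
        · exact h3 k' hk'⟩
      exact Subtype.ext h5
    have hfin : Module.finrank F SP ≤ Module.finrank F (M k) := by
      have h1 := LinearMap.finrank_range_add_finrank_ker f
      have h2 := LinearMap.finrank_range_add_finrank_ker g
      have h3 := Submodule.finrank_mono hker
      have h4 : Module.finrank F (LinearMap.range g) = Module.finrank F SP := by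
        rw [LinearMap.range_eq_top.2 hg, finrank_top]
      have h5 := Submodule.finrank_le (LinearMap.range f)
      omega
    refine le_trans ?_ hfin
    -- the dimension of `SP`
    let ι : (∀ t : {t // t ∈ P}, s t) →ₗ[F] SP :=
      { toFun := fun y => ⟨fun t => if ht : t ∈ P then (y ⟨t, ht⟩ : R t) else 0, fun t =>
          ⟨fun ht => by
            simp only [dif_pos ht]
            exact (y ⟨t, ht⟩).2, fun ht => by simp only [dif_neg ht]⟩⟩
        map_add' := fun y y' => by
          apply Subtype.ext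
          funext t
          by_cases ht : t ∈ P
          · simp [ht]
          · simp [ht]
        map_smul' := fun a y => by
          apply Subtype.ext
          funext t
          by_cases ht : t ∈ P
          · simp [ht]
          · simp [ht] }
    have hι : Function.Injective ι := by
      intro y y' hyy
      funext ⟨t, ht⟩
      have h1 := congrFun (congrArg Subtype.val hyy) t
      have h2 : ∀ y : (∀ t : {t // t ∈ P}, s t), (ι y).1 t = (y ⟨t, ht⟩).1 := fun y => dif_pos ht
      rw [h2, h2] at h1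
      exact Subtype.ext h1
    have h1 := LinearMap.finrank_le_finrank_of_injective hι
    rw [Module.finrank_pi_fintype] at h1
    rw [← Finset.sum_coe_sort]
    exact h1
  -- induction
  have hind : ∀ K : Finset κ, ∃ Bd : κ → Finset T,
      (∀ k, ∑ t ∈ Bd k, Module.finrank F (s t) ≤ Module.finrank F (M k)) ∧
      ∀ t, (∀ k ∈ K, t ∉ Bd k) → GoodAt s h K t := by
    intro K
    induction K using Finset.induction_on with
    | empty =>
      refine ⟨fun _ => ∅, fun k => by simp, fun t _ x hx => ?_⟩
      obtain ⟨z, hz⟩ := hsurj t x hx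
      exact ⟨z, hz, fun k hk => absurd hk (Finset.notMem_empty k)⟩
    | insert k K hk ih =>
      obtain ⟨Bd, h1, h2⟩ := ih
      set P : Finset T := Finset.univ.filter fun t =>
        GoodAt s h K t ∧ ¬ GoodAt s h (insert k K) t with hPdef
      refine ⟨Function.update Bd k P, fun k' => ?_, fun t ht => ?_⟩
      · rcases eq_or_ne k' k with rfl | hk'
        · rw [Function.update_self]
          exact hdim K k' P fun t ht => (Finset.mem_filter.1 ht).2
        · rw [Function.update_of_ne hk']
          exact h1 k'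
      · have h3 : GoodAt s h K t := h2 t fun k' hk' => by
          have h4 := ht k' (Finset.mem_insert_of_mem hk')
          have h5 : k' ≠ k := fun h => hk (h ▸ hk')
          rwa [Function.update_of_ne h5] at h4
        have h4 := ht k (Finset.mem_insert_self k K)
        rw [Function.update_self, hPdef, Finset.mem_filter] at h4
        by_contra h5
        exact h4 ⟨Finset.mem_univ t, h3, h5⟩
  obtain ⟨Bd, h1, h2⟩ := hind Finset.univ
  refine ⟨Bd, h1, fun t ht x hx => ?_⟩
  obtain ⟨z, hz, hz0⟩ := h2 t (fun k _ => ht k) x hx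
  have h3 : z = 0 := by
    funext k
    exact hz0 k (Finset.mem_univ k)
  rw [h3] at hz
  exact hz

end

end Run7.h411.Gen
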