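import Pool.Agent.Run7.h411.Gen2
import Pool.Agent.Run7.h411.Gen3
import Pool.Agent.Run7.h457.MT.Family

/-!
# Tate classes on products: derivations, and the Lie algebra which kills all Tate classes
-/

set_option autoImplicit false
set_option linter.unusedSectionVars false
set_option maxHeartbeats 400000

namespace Run7.h411.Gen

open Matrix Filter Topology Run7.h457.MT
open Run7.h615.MT (mat_ext I2 mm mm_lie EE EE_lie ext_EE ext_EE_block skew_map blockDiagonal'_functional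
  galLie_finite log_unique)
open Run7.h475.MT (t_SPAN)

noncomputable section

section scalars

variable {ι κ : Type} [Fintype ι] [DecidableEq ι] [Fintype κ] [DecidableEq κ] {F : Type} [Field F]
  [Algebra ℚ F]

theorem ratSpan_lie {S : Submodule ℚ (Matrix ι ι ℚ)} (hS : IsLie S) {x y : Matrix ι ι F}
    (hx : x ∈ ratSpan F (S : Set (Matrix ι ι ℚ))) (hy : y ∈ ratSpan F (S : Set (Matrix ι ι ℚ))) :
    x * y - y * x ∈ ratSpan F (S : Set (Matrix ι ι ℚ)) := by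
  unfold ratSpan at *
  induction hx using Submodule.span_induction with
  | mem x hx =>
    obtain ⟨x, hx, rfl⟩ := hx
    induction hy using Submodule.span_induction with
    | mem y hy =>
      obtain ⟨y, hy, rfl⟩ := hy
      refine Submodule.subset_span ⟨x * y - y * x, hS x hx y hy, ?_⟩
      simp only
      rw [Matrix.map_sub _ (fun a b => map_sub (algebraMap ℚ F) a b), Matrix.map_mul,
        Matrix.map_mul]
    | zero => simp
    | add y y' _ _ h1 h2 =>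
      rw [mul_add, add_mul, add_sub_add_comm]
      exact Submodule.add_mem _ h1 h2
    | smul c y _ h1 =>
      rw [mul_smul_comm, smul_mul_assoc, ← smul_sub]
      exact Submodule.smul_mem _ _ h1
  | zero => simp
  | add x x' _ _ h1 h2 =>
    rw [mul_add, add_mul, add_sub_add_comm]
    exact Submodule.add_mem _ h1 h2
  | smul c x _ h1 =>
    rw [mul_smul_comm, smul_mul_assoc, ← smul_sub]
    exact Submodule.smul_mem _ _ h1

theorem ext_lieOn {S : Submodule ℚ (Matrix ι ι ℚ)} {R : Matrix ι ι ℚ →ₗ[ℚ] Matrix κ κ ℚ}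
    (hR : LieOn S R) {x y : Matrix ι ι F} (hx : x ∈ ratSpan F (S : Set (Matrix ι ι ℚ)))
    (hy : y ∈ ratSpan F (S : Set (Matrix ι ι ℚ))) :
    Run7.h457.MT.ext F R (x * y - y * x) =
      Run7.h457.MT.ext F R x * Run7.h457.MT.ext F R y -
        Run7.h457.MT.ext F R y * Run7.h457.MT.ext F R x := by
  unfold ratSpan at *
  induction hx using Submodule.span_induction with
  | mem x hx =>
    obtain ⟨x, hx, rfl⟩ := hx
    induction hy using Submodule.span_induction with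
    | mem y hy =>
      obtain ⟨y, hy, rfl⟩ := hy
      simp only
      rw [← Matrix.map_mul, ← Matrix.map_mul,
        ← Matrix.map_sub _ (fun a b => map_sub (algebraMap ℚ F) a b), Run7.h475.MT.ext_rat,
        Run7.h475.MT.ext_rat, Run7.h475.MT.ext_rat,
        hR x hx y hy, Matrix.map_sub _ (fun a b => map_sub (algebraMap ℚ F) a b), Matrix.map_mul,
        Matrix.map_mul]
    | zero => simp
    | add y y' _ _ h1 h2 =>
      rw [mul_add, add_mul, add_sub_add_comm, map_add, h1, h2, map_add, mul_add, add_mul,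
        add_sub_add_comm]
    | smul c y _ h1 =>
      rw [mul_smul_comm, smul_mul_assoc, ← smul_sub, map_smul, h1, map_smul, mul_smul_comm,
        smul_mul_assoc, smul_sub]
  | zero => simp
  | add x x' _ _ h1 h2 =>
    rw [mul_add, add_mul, add_sub_add_comm, map_add, h1, h2, map_add, mul_add, add_mul,
      add_sub_add_comm]
  | smul c x _ h1 =>
    rw [mul_smul_comm, smul_mul_assoc, ← smul_sub, map_smul, h1, map_smul, mul_smul_comm,
      smul_mul_assoc, smul_sub]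

end scalars

section deriv

variable {ℓ : ℕ} [Fact ℓ.Prime] {ι κ : Type} [Fintype ι] [DecidableEq ι] [Fintype κ] [DecidableEq κ]

/-- `u` is the logarithm of `c`. -/
def TL (c u : ℚ_[ℓ]) : Prop :=
  Tendsto (fun n : ℕ => ((ℓ : ℚ_[ℓ]) ^ n)⁻¹ * (c ^ ℓ ^ n - 1)) atTop (𝓝 u)

theorem TL.tend {c u : ℚ_[ℓ]} (h : TL c u) : Tendsto (fun n : ℕ => c ^ ℓ ^ n) atTop (𝓝 1) := by
  have h1 : Tendsto (fun n : ℕ => (ℓ : ℚ_[ℓ]) ^ n * (((ℓ : ℚ_[ℓ]) ^ n)⁻¹ * (c ^ ℓ ^ n - 1)) + 1)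
      atTop (𝓝 (0 * u + 1)) := (Run7.h869.MT.tend_pow.mul h).add_const 1
  rw [zero_mul, zero_add] at h1
  refine h1.congr fun n => ?_
  rw [← mul_assoc, mul_inv_cancel₀ (pow_ne_zero n Run7.h869.MT.ell_ne), one_mul, sub_add_cancel]

theorem TL.mul {c u c' u' : ℚ_[ℓ]} (h : TL c u) (h' : TL c' u') : TL (c * c') (u + u') := by
  have h1 : Tendsto (fun n : ℕ => (((ℓ : ℚ_[ℓ]) ^ n)⁻¹ * (c ^ ℓ ^ n - 1)) * c' ^ ℓ ^ n +
      ((ℓ : ℚ_[ℓ]) ^ n)⁻¹ * (c' ^ ℓ ^ n - 1)) atTop (𝓝 (u * 1 + u')) := (Tendsto.mul h h'.tend).add h'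
  rw [mul_one] at h1
  refine h1.congr fun n => ?_
  rw [mul_pow]
  ring

theorem TL.one : TL (1 : ℚ_[ℓ]) 0 := by
  refine tendsto_const_nhds.congr fun n => ?_
  rw [one_pow, sub_self, mul_zero]

theorem TL.inv {c u : ℚ_[ℓ]} (h : TL c u) (hc : c ≠ 0) : TL c⁻¹ (-u) := by
  have h1 : Tendsto (fun n : ℕ => -(((ℓ : ℚ_[ℓ]) ^ n)⁻¹ * (c ^ ℓ ^ n - 1)) * (c ^ ℓ ^ n)⁻¹) atTop
      (𝓝 (-u * 1⁻¹)) := (Tendsto.neg h).mul (h.tend.inv₀ one_ne_zero)
  rw [inv_one, mul_one] at h1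
  refine h1.congr fun n => ?_
  have h2 : c ^ ℓ ^ n ≠ 0 := pow_ne_zero _ hc
  rw [inv_pow]
  field_simp
  ring

theorem TL.pow {c u : ℚ_[ℓ]} (h : TL c u) (j : ℕ) : TL (c ^ j) ((j : ℚ_[ℓ]) * u) := by
  induction j with
  | zero =>
    rw [pow_zero, Nat.cast_zero, zero_mul]
    exact TL.one
  | succ j ih =>
    rw [pow_succ, Nat.cast_succ, add_mul, one_mul]
    exact ih.mul h

theorem TL.zpow {c u : ℚ_[ℓ]} (h : TL c u) (hc : c ≠ 0) (j : ℤ) :
    TL (c ^ j) ((j : ℚ_[ℓ]) * u) := by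
  cases j with
  | ofNat j =>
    have h1 := h.pow j
    simpa using h1
  | negSucc j =>
    have h1 := (h.pow (j + 1)).inv (pow_ne_zero _ hc)
    rw [zpow_negSucc]
    have h2 : ((Int.negSucc j : ℤ) : ℚ_[ℓ]) * u = -(((j + 1 : ℕ) : ℚ_[ℓ]) * u) := by
      rw [Int.cast_negSucc, neg_mul]
    rw [h2]
    exact h1

theorem tend_left {ι κ : Type} [Fintype ι] (X : Matrix ι κ ℚ_[ℓ]) (A : ℕ → Matrix ι ι ℚ_[ℓ])
    (A0 : Matrix ι ι ℚ_[ℓ]) (hA : Tendsto A atTop (𝓝 A0)) :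
    Tendsto (fun n => A n * X) atTop (𝓝 (A0 * X)) := by
  have c1 : Continuous fun p : Matrix ι ι ℚ_[ℓ] => p * X :=
    continuous_id.matrix_mul continuous_const
  have h1 := c1.tendsto A0
  have h2 := h1.comp hA
  exact h2

theorem tend_right {ι κ : Type} [Fintype κ] (A : ℕ → Matrix ι κ ℚ_[ℓ]) (A0 : Matrix ι κ ℚ_[ℓ])
    (C : ℕ → Matrix κ κ ℚ_[ℓ]) (C0 : Matrix κ κ ℚ_[ℓ]) (hA : Tendsto A atTop (𝓝 A0))
    (hC : Tendsto C atTop (𝓝 C0)) : Tendsto (fun n => A n * C n) atTop (𝓝 (A0 * C0)) := by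
  have c1 : Continuous fun p : Matrix ι κ ℚ_[ℓ] × Matrix κ κ ℚ_[ℓ] => p.1 * p.2 :=
    continuous_fst.matrix_mul continuous_snd
  have h1 := c1.tendsto (A0, C0)
  have h3 : Tendsto (fun n => (A n, C n)) atTop (𝓝 (A0, C0)) := hA.prodMk_nhds hC
  have h2 := h1.comp h3
  exact h2

theorem tend_tr {κ : Type} (C : ℕ → Matrix κ κ ℚ_[ℓ]) (C0 : Matrix κ κ ℚ_[ℓ])
    (hC : Tendsto C atTop (𝓝 C0)) : Tendsto (fun n => (C n)ᵀ) atTop (𝓝 (C0ᵀ)) := by
  have c1 : Continuous fun p : Matrix κ κ ℚ_[ℓ] => pᵀ := continuous_id.matrix_transpose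
  have h1 := c1.tendsto C0
  have h2 := h1.comp hC
  exact h2

theorem tend_mul {ι κ : Type} [Fintype ι] [Fintype κ] (X : Matrix ι κ ℚ_[ℓ])
    (A : ℕ → Matrix ι ι ℚ_[ℓ]) (A0 : Matrix ι ι ℚ_[ℓ]) (C : ℕ → Matrix κ κ ℚ_[ℓ])
    (C0 : Matrix κ κ ℚ_[ℓ]) (hA : Tendsto A atTop (𝓝 A0)) (hC : Tendsto C atTop (𝓝 C0)) :
    Tendsto (fun n => A n * X * (C n)ᵀ) atTop (𝓝 (A0 * X * C0ᵀ)) := by
  have h1 := tend_left X A A0 hA
  have h2 := tend_tr C C0 hC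
  have h3 := tend_right _ _ _ _ h1 h2
  exact h3

theorem tend_comb {ι κ : Type} {a : ℕ → ℚ_[ℓ]} {a0 : ℚ_[ℓ]} (ha : Tendsto a atTop (𝓝 a0))
    {A C D : ℕ → Matrix ι κ ℚ_[ℓ]} {A0 C0 D0 : Matrix ι κ ℚ_[ℓ]} (hA : Tendsto A atTop (𝓝 A0))
    (hC : Tendsto C atTop (𝓝 C0)) (hD : Tendsto D atTop (𝓝 D0)) :
    Tendsto (fun n => a n • A n + C n + D n) atTop (𝓝 (a0 • A0 + C0 + D0)) :=
  ((ha.smul hA).add hC).add hD

/-- A class `X` which is fixed by all powers of the operator `b • (g ⊗ h)` is killed by its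
logarithm. -/
theorem deriv {g L : Matrix ι ι ℚ_[ℓ]} (hg : IsLog g L) {h M : Matrix κ κ ℚ_[ℓ]} (hh : IsLog h M)
    {b v : ℚ_[ℓ]} (hb : TL b v) {X : Matrix ι κ ℚ_[ℓ]}
    (hX : ∀ n : ℕ, b ^ ℓ ^ n • (g ^ ℓ ^ n * X * (h ^ ℓ ^ n)ᵀ) = X) :
    L * X + X * Mᵀ + v • X = 0 := by
  have hg1 := Run7.h869.MT.IsLog.tend_one hg
  have hh1 := Run7.h869.MT.IsLog.tend_one hh
  have hg' : Tendsto (fun n : ℕ => ((ℓ : ℚ_[ℓ]) ^ n)⁻¹ • (g ^ ℓ ^ n - 1)) atTop (𝓝 L) := hg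
  have hh' : Tendsto (fun n : ℕ => ((ℓ : ℚ_[ℓ]) ^ n)⁻¹ • (h ^ ℓ ^ n - 1)) atTop (𝓝 M) := hh
  have hb' : Tendsto (fun n : ℕ => ((ℓ : ℚ_[ℓ]) ^ n)⁻¹ * (b ^ ℓ ^ n - 1)) atTop (𝓝 v) := hb
  have t1 := tend_mul X _ _ _ _ hg1 hh1
  have t2 := tend_mul X _ _ _ _ hg' hh1
  have t3 := tend_mul X (fun _ => 1) 1 _ _ tendsto_const_nhds hh'
  have t4 := tend_comb hb' t1 t2 t3
  rw [transpose_one, Matrix.mul_one, Matrix.mul_one, Matrix.one_mul] at t4
  have t5 : Tendsto (fun _ : ℕ => (0 : Matrix ι κ ℚ_[ℓ])) atTop (𝓝 (v • X + L * X + X * Mᵀ)) := by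
    refine t4.congr fun n => ?_
    have h1 := hX n
    have h2 : ((ℓ : ℚ_[ℓ]) ^ n)⁻¹ • (b ^ ℓ ^ n • (g ^ ℓ ^ n * X * (h ^ ℓ ^ n)ᵀ) - X) = 0 := by
      rw [h1, sub_self, smul_zero]
    refine Eq.trans ?_ h2
    generalize ((ℓ : ℚ_[ℓ]) ^ n)⁻¹ = c
    generalize g ^ ℓ ^ n = g'
    generalize h ^ ℓ ^ n = h'
    generalize b ^ ℓ ^ n = b'
    rw [transpose_smul, transpose_sub, transpose_one, Matrix.smul_mul,
      Matrix.smul_mul, Matrix.mul_smul, Matrix.sub_mul, Matrix.sub_mul, Matrix.mul_sub,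
      Matrix.one_mul, Matrix.mul_one, smul_sub, smul_sub, smul_sub, smul_smul, mul_sub, sub_smul,
      mul_one]
    abel
  have t6 := tendsto_nhds_unique t5 tendsto_const_nhds
  rw [← t6]
  abel

end deriv

end

end Run7.h411.Gen
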