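import Pool.Agent.Run7.h411.Gen4

/-!
# The Lie algebra which kills all Tate classes
-/

set_option autoImplicit false
set_option linter.unusedSectionVars false
set_option maxHeartbeats 1000000

namespace Run7.h411.Gen

open Matrix Filter Topology Run7.h457.MT
open Run7.h615.MT (mat_ext I2 mm mm_lie EE EE_lie ext_EE ext_EE_block skew_map blockDiagonal'_functional
  galLie_finite log_unique klie kunRep_one kunRep_mul)
open Run7.h475.MT (t_SPAN t_LOGEX)

noncomputable section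

variable {T : Type} [Fintype T] [DecidableEq T] {d : T → ℕ} (B : ∀ t, LLV (d t))
  {κ : Type} [Fintype κ] [DecidableEq κ] (m : κ → ℕ) {ℓ : ℕ} [Fact ℓ.Prime] {Γ : Type} [Group Γ]

/-- The index set of the basis of `H^a` of the product of the `X_(τ s)`. -/
abbrev KI {S : Type} [Fintype S] [DecidableEq S] (τ : S → T) (a : ℕ) : Type :=
  KTot (fun s j => (B (τ s)).n j) (fun s => d (τ s)) a

/-- The index set of the basis of the tensor product of the representations with the indices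
`τ' s`. -/
abbrev TI {S : Type} (τ : S → κ) : Type := ∀ s, Fin (m (τ s))

section operators

variable {S S' : Type} [Fintype S] [DecidableEq S] [Fintype S'] [DecidableEq S'] (τ : S → T) (a : ℕ)
  (τ' : S' → κ) (j : ℤ) (k0 : κ)

/-- The action of the element `x` of the sum of the Lie algebras on `H^a ⊗ W (j)`. -/
def op (x : (∀ t, Matrix (Fin ((B t).n 2)) (Fin ((B t).n 2)) ℚ_[ℓ]) ×
    (∀ k, Matrix (Fin (m k)) (Fin (m k)) ℚ_[ℓ])) (X : Matrix (KI B τ a) (TI m τ') ℚ_[ℓ]) :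
    Matrix (KI B τ a) (TI m τ') ℚ_[ℓ] :=
  Run7.h457.MT.ext ℚ_[ℓ] (EE B τ a) (Matrix.blockDiagonal' x.1) * X +
    X * (dkron fun s => x.2 (τ' s))ᵀ + ((j : ℚ_[ℓ]) * (x.2 k0).trace) • X

variable {B m τ a τ' j k0}

theorem op_zero (x : (∀ t, Matrix (Fin ((B t).n 2)) (Fin ((B t).n 2)) ℚ_[ℓ]) ×
    (∀ k, Matrix (Fin (m k)) (Fin (m k)) ℚ_[ℓ])) :
    op B m τ a τ' j k0 x 0 = 0 := by
  unfold op
  rw [Matrix.mul_zero, Matrix.zero_mul, smul_zero, add_zero, add_zero]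

theorem op_zero' (X : Matrix (KI B τ a) (TI m τ') ℚ_[ℓ]) : op B m τ a τ' j k0 0 X = 0 := by
  unfold op
  have h1 : dkron (fun s => (0 : (∀ t, Matrix (Fin ((B t).n 2)) (Fin ((B t).n 2)) ℚ_[ℓ]) ×
      (∀ k, Matrix (Fin (m k)) (Fin (m k)) ℚ_[ℓ])).2 (τ' s)) = 0 := by
    have h2 := Run7.h869.MT.dkron_smul (0 : ℚ_[ℓ])
      (fun s => (0 : Matrix (Fin (m (τ' s))) (Fin (m (τ' s))) ℚ_[ℓ]))
    simp only [zero_smul] at h2
    exact h2
  rw [h1, Prod.fst_zero, Matrix.blockDiagonal'_zero, map_zero, Matrix.zero_mul, transpose_zero,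
    Matrix.mul_zero, Prod.snd_zero, Pi.zero_apply, Matrix.trace_zero, mul_zero, zero_smul, add_zero,
    add_zero]

theorem op_add (x y : (∀ t, Matrix (Fin ((B t).n 2)) (Fin ((B t).n 2)) ℚ_[ℓ]) ×
    (∀ k, Matrix (Fin (m k)) (Fin (m k)) ℚ_[ℓ])) (X : Matrix (KI B τ a) (TI m τ') ℚ_[ℓ]) :
    op B m τ a τ' j k0 (x + y) X = op B m τ a τ' j k0 x X + op B m τ a τ' j k0 y X := by
  unfold op
  have h1 : dkron (fun s => (x + y).2 (τ' s)) =
      dkron (fun s => x.2 (τ' s)) + dkron (fun s => y.2 (τ' s)) :=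
    Run7.h869.MT.dkron_add (fun s => x.2 (τ' s)) (fun s => y.2 (τ' s))
  rw [h1, Prod.fst_add, Matrix.blockDiagonal'_add, map_add, Matrix.add_mul, transpose_add,
    Matrix.mul_add, Prod.snd_add, Pi.add_apply, Matrix.trace_add, mul_add, add_smul]
  abel

theorem op_smul (c : ℚ_[ℓ]) (x : (∀ t, Matrix (Fin ((B t).n 2)) (Fin ((B t).n 2)) ℚ_[ℓ]) ×
    (∀ k, Matrix (Fin (m k)) (Fin (m k)) ℚ_[ℓ])) (X : Matrix (KI B τ a) (TI m τ') ℚ_[ℓ]) :
    op B m τ a τ' j k0 (c • x) X = c • op B m τ a τ' j k0 x X := by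
  unfold op
  have h1 : dkron (fun s => (c • x).2 (τ' s)) = c • dkron (fun s => x.2 (τ' s)) :=
    Run7.h869.MT.dkron_smul c (fun s => x.2 (τ' s))
  rw [h1, Prod.smul_fst, Matrix.blockDiagonal'_smul, map_smul, Matrix.smul_mul, transpose_smul,
    Matrix.mul_smul, Prod.smul_snd, Pi.smul_apply, Matrix.trace_smul, smul_eq_mul, smul_add,
    smul_add, smul_smul, mul_left_comm]

/-- The commutator of two operators. -/
theorem op_bracket {x y : (∀ t, Matrix (Fin ((B t).n 2)) (Fin ((B t).n 2)) ℚ_[ℓ]) ×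
    (∀ k, Matrix (Fin (m k)) (Fin (m k)) ℚ_[ℓ])}
    (hx : Matrix.blockDiagonal' x.1 ∈ ratSpan ℚ_[ℓ] (mm B : Set (Matrix (I2 B) (I2 B) ℚ)))
    (hy : Matrix.blockDiagonal' y.1 ∈ ratSpan ℚ_[ℓ] (mm B : Set (Matrix (I2 B) (I2 B) ℚ)))
    (X : Matrix (KI B τ a) (TI m τ') ℚ_[ℓ]) :
    op B m τ a τ' j k0 (x * y - y * x) X =
      op B m τ a τ' j k0 x (op B m τ a τ' j k0 y X) -
        op B m τ a τ' j k0 y (op B m τ a τ' j k0 x X) := by
  unfold op
  have h1 : dkron (fun s => (x * y - y * x).2 (τ' s)) =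
      dkron (fun s => x.2 (τ' s)) * dkron (fun s => y.2 (τ' s)) -
        dkron (fun s => y.2 (τ' s)) * dkron (fun s => x.2 (τ' s)) :=
    klie (fun s => x.2 (τ' s)) (fun s => y.2 (τ' s))
  have h2 : Matrix.blockDiagonal' (x * y - y * x).1 =
      Matrix.blockDiagonal' x.1 * Matrix.blockDiagonal' y.1 -
        Matrix.blockDiagonal' y.1 * Matrix.blockDiagonal' x.1 := by
    rw [← Matrix.blockDiagonal'_mul, ← Matrix.blockDiagonal'_mul, ← Matrix.blockDiagonal'_sub]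
    rfl
  have h3 : ((x * y - y * x).2 k0).trace = 0 := by
    change (x.2 k0 * y.2 k0 - y.2 k0 * x.2 k0).trace = 0
    rw [Matrix.trace_sub, Matrix.trace_mul_comm, sub_self]
  rw [h1, h2, h3, ext_lieOn (EE_lie B τ a) hx hy, mul_zero, zero_smul, add_zero]
  generalize Run7.h457.MT.ext ℚ_[ℓ] (EE B τ a) (Matrix.blockDiagonal' x.1) = P
  generalize Run7.h457.MT.ext ℚ_[ℓ] (EE B τ a) (Matrix.blockDiagonal' y.1) = Q
  generalize (dkron fun s => x.2 (τ' s)) = Z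
  generalize (dkron fun s => y.2 (τ' s)) = W
  generalize (j : ℚ_[ℓ]) * (x.2 k0).trace = u
  generalize (j : ℚ_[ℓ]) * (y.2 k0).trace = v
  simp only [Matrix.mul_add, Matrix.add_mul, Matrix.sub_mul, transpose_sub, Matrix.mul_sub,
    transpose_mul, Matrix.mul_smul, Matrix.smul_mul, smul_add, smul_smul, Matrix.mul_assoc]
  rw [mul_comm v u]
  abel

end operators

/-! ## The space of all elements which kill all Tate classes -/

variable (G : ∀ t i, Γ →* Matrix (Fin ((B t).n i)) (Fin ((B t).n i)) ℚ_[ℓ])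
  (U : ∀ k, Γ →* Matrix (Fin (m k)) (Fin (m k)) ℚ_[ℓ]) (k0 : κ) (χ : Γ →* ℚ_[ℓ])

/-- The action of `σ` on the tensor product of the representations with the indices `τ' s`. -/
def tens {S' : Type} [Fintype S'] [DecidableEq S'] (τ' : S' → κ) (σ : Γ) :
    Matrix (TI m τ') (TI m τ') ℚ_[ℓ] :=
  kron fun s => U (τ' s) σ

/-- The element `X` of `H^a ⊗ W (j)` is a Tate class. -/
def IsTate {S S' : Type} [Fintype S] [DecidableEq S] [Fintype S'] [DecidableEq S'] (τ : S → T)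
    (a : ℕ) (τ' : S' → κ) (j : ℤ) (X : Matrix (KI B τ a) (TI m τ') ℚ_[ℓ]) : Prop :=
  ∃ Δ : Subgroup Γ, Δ.FiniteIndex ∧ ∀ σ ∈ Δ,
    χ σ ^ j • (kunRep B G τ a σ * X * (tens m U τ' σ)ᵀ) = X

/-- The Lie algebra of the elements which kill all Tate classes. -/
def hh : Submodule ℚ_[ℓ] ((∀ t, Matrix (Fin ((B t).n 2)) (Fin ((B t).n 2)) ℚ_[ℓ]) ×
    (∀ k, Matrix (Fin (m k)) (Fin (m k)) ℚ_[ℓ])) where
  carrier := {x | Matrix.blockDiagonal' x.1 ∈
      ratSpan ℚ_[ℓ] (mm B : Set (Matrix (I2 B) (I2 B) ℚ)) ∧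
    ∀ (S : Type) [Fintype S] [DecidableEq S] (τ : S → T) (a : ℕ) (S' : Type) [Fintype S']
      [DecidableEq S'] (τ' : S' → κ) (j : ℤ) (X : Matrix (KI B τ a) (TI m τ') ℚ_[ℓ]),
      IsTate B m G U χ τ a τ' j X → op B m τ a τ' j k0 x X = 0}
  zero_mem' := by
    refine ⟨?_, fun S _ _ τ a S' _ _ τ' j X _ => op_zero' X⟩
    rw [Prod.fst_zero, Matrix.blockDiagonal'_zero]
    exact Submodule.zero_mem _
  add_mem' := by
    rintro x y ⟨hx, hx'⟩ ⟨hy, hy'⟩
    refine ⟨?_, fun S _ _ τ a S' _ _ τ' j X hX => ?_⟩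
    · rw [Prod.fst_add, Matrix.blockDiagonal'_add]
      exact Submodule.add_mem _ hx hy
    · rw [op_add, hx' S τ a S' τ' j X hX, hy' S τ a S' τ' j X hX, add_zero]
  smul_mem' := by
    rintro c x ⟨hx, hx'⟩
    refine ⟨?_, fun S _ _ τ a S' _ _ τ' j X hX => ?_⟩
    · rw [Prod.smul_fst, Matrix.blockDiagonal'_smul]
      exact Submodule.smul_mem _ _ hx
    · rw [op_smul, hx' S τ a S' τ' j X hX, smul_zero]

theorem hh_lie : ∀ x ∈ hh B m G U k0 χ, ∀ y ∈ hh B m G U k0 χ,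
    x * y - y * x ∈ hh B m G U k0 χ := by
  rintro x ⟨hx, hx'⟩ y ⟨hy, hy'⟩
  refine ⟨?_, fun S _ _ τ a S' _ _ τ' j X hX => ?_⟩
  · have h2 : Matrix.blockDiagonal' (x * y - y * x).1 =
        Matrix.blockDiagonal' x.1 * Matrix.blockDiagonal' y.1 -
          Matrix.blockDiagonal' y.1 * Matrix.blockDiagonal' x.1 := by
      rw [← Matrix.blockDiagonal'_mul, ← Matrix.blockDiagonal'_mul, ← Matrix.blockDiagonal'_sub]
      rfl
    rw [h2]
    exact ratSpan_lie (mm_lie B) hx hy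
  · rw [op_bracket hx hy, hx' S τ a S' τ' j X hX, hy' S τ a S' τ' j X hX, op_zero, op_zero,
      sub_self]

end

end Run7.h411.Gen
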