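import Pool.Agent.Run7.h411.Gen5

/-!
# The logarithms of the elements of the Galois group kill all Tate classes; Goursat's lemma
-/

set_option autoImplicit false
set_option linter.unusedSectionVars false
set_option maxHeartbeats 1000000

namespace Run7.h411.Gen

open Matrix Filter Topology Run7.h457.MT
open Run7.h615.MT (mat_ext I2 mm mm_lie EE EE_lie ext_EE ext_EE_block skew_map blockDiagonal'_functional
  galLie_finite log_unique klie kunRep_one kunRep_mul)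
open Run7.h475.MT (t_SPAN t_LOGEX)

noncomputable section

variable {T : Type} [Fintype T] [DecidableEq T] {d : T → ℕ} (B : ∀ t, LLV (d t))
  {κ : Type} [Fintype κ] [DecidableEq κ] (m : κ → ℕ) {ℓ : ℕ} [Fact ℓ.Prime] {Γ : Type} [Group Γ]
  (G : ∀ t i, Γ →* Matrix (Fin ((B t).n i)) (Fin ((B t).n i)) ℚ_[ℓ])
  (U : ∀ k, Γ →* Matrix (Fin (m k)) (Fin (m k)) ℚ_[ℓ]) (k0 : κ) (χ : Γ →* ℚ_[ℓ])

section hom

variable {S S' : Type} [Fintype S] [DecidableEq S] [Fintype S'] [DecidableEq S'] (τ : S → T) (a : ℕ)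
  (τ' : S' → κ)

theorem kunRep_pow (σ : Γ) (k : ℕ) : kunRep B G τ a (σ ^ k) = kunRep B G τ a σ ^ k := by
  induction k with
  | zero => rw [pow_zero, pow_zero, kunRep_one]
  | succ k ih => rw [pow_succ, pow_succ, kunRep_mul, ih]

theorem tens_one : tens m U τ' 1 = 1 := by
  unfold tens
  simp only [map_one]
  exact Run7.h615.MT.kron_one

theorem tens_mul (σ σ' : Γ) : tens m U τ' (σ * σ') = tens m U τ' σ * tens m U τ' σ' := by
  unfold tens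
  simp only [map_mul]
  exact (Run7.h615.MT.kron_mul _ _).symm

theorem tens_pow (σ : Γ) (k : ℕ) : tens m U τ' (σ ^ k) = tens m U τ' σ ^ k := by
  induction k with
  | zero => rw [pow_zero, pow_zero, tens_one]
  | succ k ih => rw [pow_succ, pow_succ, tens_mul, ih]

theorem chi_ne (σ : Γ) : χ σ ≠ 0 := by
  intro h
  have h1 : χ σ * χ σ⁻¹ = 1 := by rw [← map_mul, mul_inv_cancel, map_one]
  rw [h, zero_mul] at h1
  exact zero_ne_one h1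

end hom

variable {B m G U k0 χ}

theorem log_mem {σ : Γ} {L : ∀ t, Matrix (Fin ((B t).n 2)) (Fin ((B t).n 2)) ℚ_[ℓ]}
    {M : ∀ k, Matrix (Fin (m k)) (Fin (m k)) ℚ_[ℓ]} {u : ℚ_[ℓ]}
    (hL : Matrix.blockDiagonal' L ∈ ratSpan ℚ_[ℓ] (mm B : Set (Matrix (I2 B) (I2 B) ℚ)))
    (hK : ∀ (S : Type) [Fintype S] [DecidableEq S] (τ : S → T) (a : ℕ),
      IsLog (kunRep B G τ a σ) (Run7.h457.MT.ext ℚ_[ℓ] (EE B τ a) (Matrix.blockDiagonal' L)))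
    (hM : ∀ k, IsLog (U k σ) (M k)) (hu : TL (χ σ) u) (hk0 : (M k0).trace = u) :
    (L, M) ∈ hh B m G U k0 χ := by
  refine ⟨hL, fun S _ _ τ a S' _ _ τ' j X hX => ?_⟩
  obtain ⟨Δ, hΔ, h⟩ := hX
  obtain ⟨k, hk1, -, hk⟩ := Subgroup.exists_pow_mem_of_index_ne_zero (H := Δ)
    Subgroup.FiniteIndex.index_ne_zero σ
  have hk' : (k : ℚ_[ℓ]) ≠ 0 := Nat.cast_ne_zero.2 hk1.ne'
  have h1 := Run7.h869.MT.IsLog.pow (hK S τ a) k
  have h2 : IsLog (tens m U τ' σ) (dkron fun s => M (τ' s)) :=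
    Run7.h615.MT.klog _ _ fun s => hM (τ' s)
  have h3 := Run7.h869.MT.IsLog.pow h2 k
  have h4 := (hu.zpow (chi_ne χ σ) j).pow k
  have h5 := deriv h1 h3 h4 (X := X) fun n => by
    have h6 := h ((σ ^ k) ^ ℓ ^ n) (Δ.pow_mem hk _)
    rw [kunRep_pow, kunRep_pow, tens_pow, tens_pow, map_pow, map_pow] at h6
    have h7 : ((χ σ ^ j) ^ k) ^ ℓ ^ n = ((χ σ ^ k) ^ ℓ ^ n) ^ j := by
      rw [← pow_mul, ← pow_mul, ← zpow_natCast, ← zpow_natCast, ← _root_.zpow_mul,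
        ← _root_.zpow_mul, mul_comm]
    rw [h7]
    exact h6
  have h8 : (k : ℚ_[ℓ]) • op B m τ a τ' j k0 (L, M) X = 0 := by
    rw [← h5]
    unfold op
    rw [hk0, Matrix.smul_mul, transpose_smul, Matrix.mul_smul, smul_add, smul_add, smul_smul]
  exact (smul_eq_zero.1 h8).resolve_left hk'

/-- The block diagonal matrices with blocks `c + skew`. -/
theorem mem_mm {F : Type} [Field F] [Algebra ℚ F] (c : F)
    {A : ∀ t, Matrix (Fin ((B t).n 2)) (Fin ((B t).n 2)) F}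
    (hA : ∀ t, SkewMat ((B t).q.map (algebraMap ℚ F)) (A t)) :
    Matrix.blockDiagonal' (fun t => c • 1 + A t) ∈
      ratSpan F (mm B : Set (Matrix (I2 B) (I2 B) ℚ)) := by
  rw [t_SPAN]
  intro φ
  rw [blockDiagonal'_functional]
  refine ⟨fun _ => φ c, fun t => (A t).map φ, fun t => skew_map _ (hA t) φ, ?_⟩
  congr 1
  funext t
  change (c • (1 : Matrix (Fin ((B t).n 2)) (Fin ((B t).n 2)) F) + A t).map φ =
    φ c • (1 : Matrix (Fin ((B t).n 2)) (Fin ((B t).n 2)) ℚ) + (A t).map φ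
  ext u v
  rw [Matrix.map_apply, Matrix.add_apply, Matrix.add_apply, map_add, Matrix.map_apply]
  congr 1
  rw [Matrix.smul_apply, Matrix.smul_apply, Matrix.one_apply, Matrix.one_apply]
  split_ifs
  · rw [smul_eq_mul, smul_eq_mul, mul_one, mul_one]
  · rw [smul_zero, smul_zero, map_zero]

/-- Near `1` the logarithm on `H²` is `-u + A` with `A` skew, where `u` is the logarithm of the
cyclotomic character. -/
theorem log_skew {q g L : Matrix κ κ ℚ_[ℓ]} (hg : IsLog g L) {c u : ℚ_[ℓ]} (hc0 : c ≠ 0)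
    (hc : TL c u) (h : gᵀ * q * g = (c ^ 2)⁻¹ • q) : SkewMat q (u • 1 + L) := by
  have h1 := Run7.h869.MT.skew_log hg hc0 hc h
  unfold SkewMat
  rw [← h1, transpose_add, transpose_smul, transpose_one, add_mul, mul_add, smul_mul_assoc,
    mul_smul_comm, one_mul, mul_one, two_mul, add_smul]
  abel

/-- Everything we need to know for `σ` near `1`. -/
theorem logs_mem (hd : ∀ t, 2 ≤ d t) (hLR : LogRel B G)
    (hχ : ∀ N : ℕ, ∃ Δ : Subgroup Γ, Δ.FiniteIndex ∧ ∀ σ ∈ Δ, ‖χ σ - 1‖ ≤ ((ℓ : ℝ) ^ N)⁻¹)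
    (hq : ∀ t σ, (G t 2 σ)ᵀ * (B t).q.map (algebraMap ℚ ℚ_[ℓ]) * G t 2 σ =
      (χ σ ^ 2)⁻¹ • (B t).q.map (algebraMap ℚ ℚ_[ℓ]))
    (hU : ∀ k, ∃ Δ : Subgroup Γ, Δ.FiniteIndex ∧ ∀ σ ∈ Δ, NearOne 2 (U k σ))
    (hk0 : m k0 = 1) (hUk0 : ∀ σ, U k0 σ = χ σ • 1) :
    ∃ Δ : Subgroup Γ, Δ.FiniteIndex ∧ ∀ σ ∈ Δ,
      ∃ (L : ∀ t, Matrix (Fin ((B t).n 2)) (Fin ((B t).n 2)) ℚ_[ℓ])
        (M : ∀ k, Matrix (Fin (m k)) (Fin (m k)) ℚ_[ℓ]) (u : ℚ_[ℓ]),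
        ‖χ σ - 1‖ ≤ ((ℓ : ℝ) ^ 2)⁻¹ ∧
        (∀ t, ∀ i ≤ d t, NearOne 2 (G t i σ)) ∧ TL (χ σ) u ∧
        (∀ t, SkewMat ((B t).q.map (algebraMap ℚ ℚ_[ℓ])) (u • 1 + L t)) ∧
        (∀ t, IsLog (G t 2 σ) (L t)) ∧ (∀ (S : Type) [Fintype S] [DecidableEq S] (τ : S → T) (a : ℕ),
          IsLog (kunRep B G τ a σ)
            (Run7.h457.MT.ext ℚ_[ℓ] (EE B τ a) (Matrix.blockDiagonal' L))) ∧
        (L, M) ∈ hh B m G U k0 χ := by
  obtain ⟨Δ₁, hΔ₁, h1⟩ := hLR 2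
  obtain ⟨Δ₂, hΔ₂, h2⟩ := hχ 2
  choose Δ₃ hΔ₃ h3 using hU
  have h4 : (⨅ k, Δ₃ k).FiniteIndex := Subgroup.finiteIndex_iInf hΔ₃
  refine ⟨Δ₁ ⊓ Δ₂ ⊓ ⨅ k, Δ₃ k, inferInstance, fun σ hσ => ?_⟩
  have hσ1 : σ ∈ Δ₁ := hσ.1.1
  have hσ2 : σ ∈ Δ₂ := hσ.1.2
  have hσ3 : ∀ k, σ ∈ Δ₃ k := fun k => (Subgroup.mem_iInf.1 hσ.2) k
  have hlog : ∀ t, ∃ L, IsLog (G t 2 σ) L := fun t =>
    t_LOGEX ℓ _ (G t 2 σ) (h1 σ hσ1 t 2 (hd t)).1
  choose L hL using hlog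
  have hlog' : ∀ k, ∃ M, IsLog (U k σ) M := fun k => t_LOGEX ℓ _ (U k σ) (h3 k σ (hσ3 k))
  choose M hM using hlog'
  obtain ⟨u, hu⟩ := Run7.h869.MT.exists_log Run7.h475.MT.LOGEX (h2 σ hσ2)
  have hsk : ∀ t, SkewMat ((B t).q.map (algebraMap ℚ ℚ_[ℓ])) (u • 1 + L t) := fun t =>
    log_skew (hL t) (chi_ne χ σ) hu (hq t σ)
  have hK : ∀ (S : Type) [Fintype S] [DecidableEq S] (τ : S → T) (a : ℕ),
      IsLog (kunRep B G τ a σ)
        (Run7.h457.MT.ext ℚ_[ℓ] (EE B τ a) (Matrix.blockDiagonal' L)) := by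
    intro S _ _ τ a
    rw [ext_EE_block]
    exact (Run7.h615.MT.t_KUN S (fun s j => (B (τ s)).n j) (fun s => d (τ s)) a).2.1 ℓ
      (fun s j => G (τ s) j σ) _ fun s j hj => (h1 σ hσ1 (τ s) j hj).2 _ (hL (τ s))
  refine ⟨L, M, u, h2 σ hσ2, fun t i hi => (h1 σ hσ1 t i hi).1, hu, hsk, hL, hK, ?_⟩
  refine log_mem ?_ hK hM hu ?_
  · have h5 : L = fun t => (-u) • 1 + (u • 1 + L t) := by
      funext t
      rw [neg_smul, neg_add_cancel_left]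
    rw [h5]
    exact mem_mm (-u) hsk
  · have h6 : IsLog (U k0 σ) (u • 1) := by
      rw [hUk0]
      have h7 := Run7.h869.MT.IsLog.smul (Run7.h615.MT.log_one (κ := Fin (m k0)) (ℓ := ℓ)) hu 1
      rw [pow_one, zero_add, Nat.cast_one, one_mul] at h7
      exact h7
    rw [Run7.h615.MT.log_unique (hM k0) h6, Matrix.trace_smul, Matrix.trace_one, Fintype.card_fin, hk0,
      Nat.cast_one, smul_eq_mul, mul_one]

end

end Run7.h411.Gen
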