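import Pool.Agent.Run7.h411.Gen6

/-!
# Goursat's lemma for the Galois group; the rational invariants of the orthogonal Lie algebras
-/

set_option autoImplicit false
set_option linter.unusedSectionVars false
set_option maxHeartbeats 1000000

namespace Run7.h411.Gen

open Matrix Filter Topology Run7.h457.MT
open Run7.h615.MT (mat_ext I2 mm mm_lie EE EE_lie ext_EE ext_EE_block skew_map blockDiagonal'_functional
  galLie_finite klie kunRep_one kunRep_mul ext_EE_D eK eK_mul eK_one eK_D aK CIdx)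
open Run7.h475.MT (t_SPAN t_SPANV t_LOGEX t_LOGFIX map_mulVec_rat map_mulVec_rat'
  eq_zero_of_functionals)

noncomputable section

variable {T : Type} [Fintype T] [DecidableEq T] {d : T → ℕ} (B : ∀ t, LLV (d t))
  {κ : Type} [Fintype κ] [DecidableEq κ] (m : κ → ℕ) {ℓ : ℕ} [Fact ℓ.Prime] {Γ : Type} [Group Γ]
  (G : ∀ t i, Γ →* Matrix (Fin ((B t).n i)) (Fin ((B t).n i)) ℚ_[ℓ])
  (U : ∀ k, Γ →* Matrix (Fin (m k)) (Fin (m k)) ℚ_[ℓ]) (k0 : κ) (χ : Γ →* ℚ_[ℓ])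
  (N : ∀ t, Submodule ℚ (Fin ((B t).n 2) → ℚ)) {r : T → ℕ}
  (e : ∀ t, Fin (r t) → Fin ((B t).n 2) → ℚ) (c : ∀ t, Fin (r t) → ℚ)

/-- The assumptions. -/
structure Hyp : Prop where
  hd : ∀ t, 2 ≤ d t
  hLR : LogRel B G
  hχ : ∀ N : ℕ, ∃ Δ : Subgroup Γ, Δ.FiniteIndex ∧ ∀ σ ∈ Δ, ‖χ σ - 1‖ ≤ ((ℓ : ℝ) ^ N)⁻¹
  hq : ∀ t σ, (G t 2 σ)ᵀ * (B t).q.map (algebraMap ℚ ℚ_[ℓ]) * G t 2 σ =
      (χ σ ^ 2)⁻¹ • (B t).q.map (algebraMap ℚ ℚ_[ℓ])
  hU : ∀ k, ∃ Δ : Subgroup Γ, Δ.FiniteIndex ∧ ∀ σ ∈ Δ, NearOne 2 (U k σ)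
  hk0 : m k0 = 1
  hUk0 : ∀ σ, U k0 σ = χ σ • 1
  hOB : ∀ t, OB (B t).q (N t) (e t) (c t)
  h5 : ∀ t, 5 ≤ r t
  hT : ∀ t, ∀ v ∈ N t, ∃ Δ : Subgroup Γ, Δ.FiniteIndex ∧ ∀ σ ∈ Δ,
    χ σ • (G t 2 σ *ᵥ cst ℚ_[ℓ] v) = cst ℚ_[ℓ] v
  hopen : ∀ A : ∀ t, Matrix (Fin ((B t).n 2)) (Fin ((B t).n 2)) ℚ_[ℓ],
    (∀ t, A t ∈ soPerp (B t).q (N t) ℚ_[ℓ]) →
      Matrix.blockDiagonal' A ∈ galLie (fun σ => Matrix.blockDiagonal' fun t => G t 2 σ)

variable {B m G U k0 χ N e c} (H : Hyp B m G U k0 χ N e c)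

include H

theorem hh_surj (t : T) (x : Matrix (Fin ((B t).n 2)) (Fin ((B t).n 2)) ℚ_[ℓ])
    (hx : x ∈ soPerp (B t).q (N t) ℚ_[ℓ]) :
    ∃ z, ((Pi.single t x : ∀ t, Matrix (Fin ((B t).n 2)) (Fin ((B t).n 2)) ℚ_[ℓ]), z) ∈
      hh B m G U k0 χ := by
  obtain ⟨Δ, hΔ, h⟩ := logs_mem (k0 := k0) H.hd H.hLR H.hχ H.hq H.hU H.hk0 H.hUk0
  have h2 := galLie_finite (fun σ => Matrix.blockDiagonal' fun t => G t 2 σ)
    (by
      have h3 : (fun t => G t 2 (1 : Γ)) = 1 := by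
        funext t
        exact map_one _
      show Matrix.blockDiagonal' (fun t => G t 2 (1 : Γ)) = 1
      rw [h3, Matrix.blockDiagonal'_one])
    (by
      intro σ σ'
      show Matrix.blockDiagonal' (fun t => G t 2 (σ * σ')) =
        Matrix.blockDiagonal' (fun t => G t 2 σ) * Matrix.blockDiagonal' (fun t => G t 2 σ')
      rw [← Matrix.blockDiagonal'_mul]
      congr 1
      funext t
      exact map_mul _ _ _) Δ
  have h3 : Matrix.blockDiagonal'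
      (Pi.single t x : ∀ t, Matrix (Fin ((B t).n 2)) (Fin ((B t).n 2)) ℚ_[ℓ]) ∈
      galLie (fun σ => Matrix.blockDiagonal' fun t => G t 2 σ) := by
    refine H.hopen _ fun t' => ?_
    rcases eq_or_ne t' t with rfl | ht
    · rw [Pi.single_eq_same]
      exact hx
    · rw [Pi.single_eq_of_ne ht]
      exact Submodule.zero_mem _
  rw [h2] at h3
  have h4 : ∀ A ∈ Submodule.span ℚ_[ℓ] {L : Matrix (I2 B) (I2 B) ℚ_[ℓ] | ∃ σ ∈ Δ,
      IsLog (Matrix.blockDiagonal' fun t => G t 2 σ) L}, ∃ y z,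
      A = Matrix.blockDiagonal' y ∧ (y, z) ∈ hh B m G U k0 χ := by
    intro A hA
    induction hA using Submodule.span_induction with
    | mem A hA =>
      obtain ⟨σ, hσ, hA⟩ := hA
      obtain ⟨L, M, u, -, -, -, -, hL, -, hm⟩ := h σ hσ
      exact ⟨L, M, Run7.h615.MT.log_unique hA (Run7.h615.MT.block_log _ _ hL), hm⟩
    | zero => exact ⟨0, 0, (Matrix.blockDiagonal'_zero).symm, Submodule.zero_mem _⟩
    | add A A' _ _ hA hA' =>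
      obtain ⟨y, z, rfl, h⟩ := hA
      obtain ⟨y', z', rfl, h'⟩ := hA'
      exact ⟨y + y', z + z', (Matrix.blockDiagonal'_add _ _).symm, Submodule.add_mem _ h h'⟩
    | smul c A _ hA =>
      obtain ⟨y, z, rfl, h⟩ := hA
      exact ⟨c • y, c • z, (Matrix.blockDiagonal'_smul _ _).symm, Submodule.smul_mem _ c h⟩
  obtain ⟨y, z, h5, h6⟩ := h4 _ h3
  rw [Matrix.blockDiagonal'_injective h5]
  exact ⟨z, h6⟩

/-- **The bound.** For all but few `t` the Lie algebra `so(T_t)` kills all Tate classes. -/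
theorem bound : ∃ Bd : κ → Finset T,
    (∀ k, ∑ t ∈ Bd k, (r t * (r t - 1) / 2) ≤ m k ^ 2) ∧
    ∀ t, (∀ k, t ∉ Bd k) → ∀ x ∈ soPerp (B t).q (N t) ℚ_[ℓ],
      ((Pi.single t x : ∀ t, Matrix (Fin ((B t).n 2)) (Fin ((B t).n 2)) ℚ_[ℓ]),
        (0 : ∀ k, Matrix (Fin (m k)) (Fin (m k)) ℚ_[ℓ])) ∈ hh B m G U k0 χ := by
  obtain ⟨Bd, h1, h2⟩ := goursat (F := ℚ_[ℓ])
    (R := fun t => Matrix (Fin ((B t).n 2)) (Fin ((B t).n 2)) ℚ_[ℓ])
    (M := fun k => Matrix (Fin (m k)) (Fin (m k)) ℚ_[ℓ])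
    (s := fun t => soPerp (B t).q (N t) ℚ_[ℓ]) (h := hh B m G U k0 χ)
    (fun t x hx y hy => soPerp_lie hx hy)
    (fun t I hI hid => (H.hOB t).simple (H.h5 t) I hI hid)
    (fun t y hy hc => (H.hOB t).center (H.h5 t) hy hc)
    (hh_lie B m G U k0 χ) (hh_surj H)
  refine ⟨Bd, fun k => ?_, h2⟩
  have h3 := h1 k
  rw [Module.finrank_matrix, Fintype.card_fin, Module.finrank_self, mul_one, ← sq] at h3
  refine le_trans (Finset.sum_le_sum fun t _ => ?_) h3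
  exact (H.hOB t).finrank

end

end Run7.h411.Gen
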