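import Pool.Agent.Run7.h411.Gen7

/-!
# The rational invariants of the orthogonal Lie algebras
-/

set_option autoImplicit false
set_option linter.unusedSectionVars false
set_option maxHeartbeats 1000000

namespace Run7.h411.Gen

open Matrix Filter Topology Run7.h457.MT
open Run7.h615.MT (mat_ext I2 mm mm_lie EE EE_lie ext_EE ext_EE_block skew_map blockDiagonal'_functional
  galLie_finite klie kunRep_one kunRep_mul ext_EE_D eK eK_mul eK_one eK_D aK CIdx)
open Run7.h475.MT (t_SPAN t_SPANV t_LOGEX t_LOGFIX map_mulVec_rat map_mulVec_rat'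
  eq_zero_of_functionals)

noncomputable section

variable {T : Type} [Fintype T] [DecidableEq T] {d : T → ℕ} (B : ∀ t, LLV (d t))
  (N : ∀ t, Submodule ℚ (Fin ((B t).n 2) → ℚ))
  {S : Type} [Fintype S] [DecidableEq S] (τ : S → T) (a : ℕ)

/-- The rational classes in `H^a` of the product which are killed by the Lie algebras
`so(T_(τ s))`. -/
def VV : Submodule ℚ (KI B τ a → ℚ) where
  carrier := {v | ∀ A : ∀ t, Matrix (Fin ((B t).n 2)) (Fin ((B t).n 2)) ℚ,
    (∀ s, A (τ s) ∈ soPerp (B (τ s)).q (N (τ s)) ℚ) →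
      EE B τ a (Matrix.blockDiagonal' A) *ᵥ v = 0}
  zero_mem' := fun A _ => mulVec_zero _
  add_mem' := fun {v w} hv hw A hA => by rw [mulVec_add, hv A hA, hw A hA, add_zero]
  smul_mem' := fun c v hv A hA => by rw [mulVec_smul, hv A hA, smul_zero]

variable {B N τ a}

theorem soPerp_map {κ : Type} [Fintype κ] [DecidableEq κ] {q : Matrix κ κ ℚ}
    {N : Submodule ℚ (κ → ℚ)} {F : Type} [Field F] [Algebra ℚ F] {A : Matrix κ κ F}
    (hA : A ∈ soPerp q N F) (φ : F →ₗ[ℚ] ℚ) : A.map φ ∈ soPerp q N ℚ := by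
  refine ⟨?_, fun v hv => ?_⟩
  · have h1 : q.map (algebraMap ℚ ℚ) = q := Matrix.map_id q
    rw [h1]
    exact skew_map q hA.1 φ
  · have h1 := map_mulVec_rat' A v φ
    have h2 : (A *ᵥ fun j => algebraMap ℚ F (v j)) = 0 := hA.2 v hv
    rw [h2] at h1
    have h3 : A.map φ *ᵥ v = 0 := by
      rw [← h1]
      funext i
      exact map_zero φ
    exact h3

theorem soPerp_ext {κ : Type} [Fintype κ] [DecidableEq κ] {q : Matrix κ κ ℚ}
    {N : Submodule ℚ (κ → ℚ)} (F : Type) [Field F] [Algebra ℚ F] {A : Matrix κ κ ℚ}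
    (hA : A ∈ soPerp q N ℚ) : A.map (algebraMap ℚ F) ∈ soPerp q N F := by
  refine ⟨?_, fun v hv => ?_⟩
  · have h1 : q.map (algebraMap ℚ ℚ) = q := Matrix.map_id q
    have h2 := hA.1
    rw [h1] at h2
    unfold SkewMat at *
    rw [← transpose_map, ← Matrix.map_mul, ← Matrix.map_mul,
      ← Matrix.map_add _ (fun a b => map_add (algebraMap ℚ F) a b), h2]
    exact Matrix.map_zero _ (map_zero _)
  · have : CharZero F := algebraRat.charZero F
    have h0 : A.map (algebraMap ℚ ℚ) = A := Matrix.map_id A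
    have h2 : A *ᵥ v = 0 := hA.2 v hv
    rw [cst_mulVec, h2]
    funext i
    exact map_zero _

/-- The elements of `VV` are killed by the Lie algebras over all fields. -/
theorem VV_ext {F : Type} [Field F] [Algebra ℚ F]
    {A : ∀ t, Matrix (Fin ((B t).n 2)) (Fin ((B t).n 2)) F}
    (hA : ∀ s, A (τ s) ∈ soPerp (B (τ s)).q (N (τ s)) F) {v : KI B τ a → ℚ}
    (hv : v ∈ VV B N τ a) :
    Run7.h457.MT.ext F (EE B τ a) (Matrix.blockDiagonal' A) *ᵥ cst F v = 0 := by
  funext i
  refine eq_zero_of_functionals fun φ => ?_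
  have h1 := congrFun (map_mulVec_rat' (Run7.h457.MT.ext F (EE B τ a) (Matrix.blockDiagonal' A))
    v φ) i
  refine h1.trans ?_
  rw [Run7.h475.MT.ext_map, blockDiagonal'_functional,
    hv (fun t => (A t).map φ) fun s => soPerp_map (hA s) φ]
  rfl

/-- The vectors which are killed by the Lie algebras. -/
theorem VV_span {F : Type} [Field F] [Algebra ℚ F] {x : KI B τ a → F}
    (hx : ∀ A : ∀ t, Matrix (Fin ((B t).n 2)) (Fin ((B t).n 2)) F,
      (∀ s, A (τ s) ∈ soPerp (B (τ s)).q (N (τ s)) F) →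
      Run7.h457.MT.ext F (EE B τ a) (Matrix.blockDiagonal' A) *ᵥ x = 0) :
    x ∈ vecSpan F (VV B N τ a : Set (KI B τ a → ℚ)) := by
  rw [t_SPANV]
  intro φ A hA
  rw [← map_mulVec_rat, ← Run7.h475.MT.ext_rat]
  have h1 := hx (fun t => (A t).map (algebraMap ℚ F)) fun s => soPerp_ext F (hA s)
  have h2 : (Matrix.blockDiagonal' A).map (algebraMap ℚ F) =
      Matrix.blockDiagonal' fun t => (A t).map (algebraMap ℚ F) :=
    Matrix.blockDiagonal'_map _ _ (map_zero _)
  rw [h2, h1]
  funext i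
  exact map_zero φ

/-- The action of the scalars. -/
theorem ext_scal (F : Type) [Field F] [Algebra ℚ F] [CharZero F] (c : F) :
    Run7.h457.MT.ext F (EE B τ a) (Matrix.blockDiagonal' fun t =>
      c • (1 : Matrix (Fin ((B t).n 2)) (Fin ((B t).n 2)) F)) = (c * (a : F) / 2) • 1 := by
  rw [ext_EE_block]
  have h1 : dkun (n := fun s j => (B (τ s)).n j) (fun s => d (τ s)) a
      (fun s j => Run7.h457.MT.ext F ((B (τ s)).R j) (c • 1)) =
      dkun (n := fun s j => (B (τ s)).n j) (fun s => d (τ s)) a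
        (fun s j => (c / 2) • ((j : F) • (1 : Matrix (Fin ((B (τ s)).n j))
          (Fin ((B (τ s)).n j)) F))) := by
    refine Run7.h615.MT.dkun_congr _ _ fun s j _ => ?_
    have h2 := Run7.h869.MT.RF_scal_skew (B (τ s)) j F c (X := 0) (Matrix.trace_zero _ _)
    rw [add_zero, map_zero, add_zero] at h2
    rw [Run7.h869.MT.ext_R, h2, smul_smul]
    congr 1
    ring
  rw [h1, Run7.h615.MT.dkun_smul, Run7.h869.MT.dkun_deg, smul_smul]
  congr 1
  ring

variable {W : ∀ t, (B t).Hodge} (hd : ∀ t, 2 ≤ d t)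
  (hNH : ∀ t, ∀ v ∈ N t, ((W t).V 2).D *ᵥ cst ℂ v = cst ℂ v)

include hd in
theorem D_two (t : T) : ((W t).V 2).D = (1 : ℂ) • 1 + (W t).J := by
  rw [(W t).verb 2 (hd t), Run7.h869.MT.ext_rho_two Run7.h475.MT.SPAN (B t) (W t).skew]
  norm_num

include hd hNH in
theorem J_mem (t : T) : (W t).J ∈ soPerp (B t).q (N t) ℂ := by
  refine ⟨(W t).skew, fun v hv => ?_⟩
  have h1 := hNH t v hv
  rw [D_two hd t, add_mulVec, smul_mulVec, one_mulVec, one_smul] at h1
  exact left_eq_add.1 h1.symm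

include hd hNH in
/-- The elements of `VV` are of type `(a / 2, a / 2)`. -/
theorem VV_hodge {v : KI B τ a → ℚ} (hv : v ∈ VV B N τ a) :
    dkun (n := fun s j => (B (τ s)).n j) (fun s => d (τ s)) a (fun s j => ((W (τ s)).V j).D) *ᵥ
      cst ℂ v = ((a : ℂ) / 2) • cst ℂ v := by
  rw [← ext_EE_D B τ a W hd]
  have h1 : (Matrix.blockDiagonal' fun t => ((W t).V 2).D) =
      (Matrix.blockDiagonal' fun t =>
        (1 : ℂ) • (1 : Matrix (Fin ((B t).n 2)) (Fin ((B t).n 2)) ℂ)) +
      Matrix.blockDiagonal' fun t => (W t).J := by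
    rw [← Matrix.blockDiagonal'_add]
    congr 1
    funext t
    exact D_two hd t
  rw [h1, map_add, ext_scal, add_mulVec, VV_ext (fun s => J_mem hd hNH (τ s)) hv, add_zero,
    smul_mulVec, one_mulVec, one_mul]

/-- The eigenvalues of `D` are integers. -/
theorem eig_zero {x : KI B τ a → ℂ} {c : ℂ} (hc : ∀ n : ℤ, (n : ℂ) ≠ c)
    (hx : dkun (n := fun s j => (B (τ s)).n j) (fun s => d (τ s)) a
      (fun s j => ((W (τ s)).V j).D) *ᵥ x = c • x) : x = 0 := by
  have h1 : ∀ i, eK (n := fun s j => (B (τ s)).n j) (fun s => d (τ s)) a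
      (fun s j => (W (τ s)).V j) i *ᵥ x = 0 := by
    intro i
    have h2 := congrArg (fun y => eK (n := fun s j => (B (τ s)).n j) (fun s => d (τ s)) a
      (fun s j => (W (τ s)).V j) i *ᵥ y) hx
    rw [eK_D, mulVec_mulVec, Finset.mul_sum, Finset.sum_eq_single i, mul_smul_comm, eK_mul,
      if_pos rfl, smul_mulVec, mulVec_smul] at h2
    · have h3 : ((aK (fun s => d (τ s)) a i : ℂ) - c) •
          (eK (n := fun s j => (B (τ s)).n j) (fun s => d (τ s)) a
            (fun s j => (W (τ s)).V j) i *ᵥ x) = 0 := by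
        rw [sub_smul, h2, sub_self]
      exact (smul_eq_zero.1 h3).resolve_left (sub_ne_zero.2 (hc _))
    · intro k _ hk
      rw [mul_smul_comm, eK_mul, if_neg (Ne.symm hk), smul_zero]
    · intro h
      exact absurd (Finset.mem_univ i) h
  have h2 := eK_one (n := fun s j => (B (τ s)).n j) (fun s => d (τ s)) a
    (fun s j => (W (τ s)).V j)
  have h3 : x = (1 : Matrix (KI B τ a) (KI B τ a) ℂ) *ᵥ x := (one_mulVec x).symm
  rw [h3, ← h2, sum_mulVec]
  exact Finset.sum_eq_zero fun i _ => h1 i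

theorem cst_eq_zero {ι : Type} {F : Type} [Field F] [Algebra ℚ F] {v : ι → ℚ}
    (h : cst F v = 0) : v = 0 := by
  funext i
  exact (map_eq_zero (algebraMap ℚ F)).1 (congrFun h i)

include hd hNH in
/-- In odd degrees there are no invariants. -/
theorem VV_odd (ha : ∀ i, a ≠ 2 * i) {v : KI B τ a → ℚ} (hv : v ∈ VV B N τ a) : v = 0 := by
  refine cst_eq_zero (F := ℂ) (eig_zero (W := W) (c := (a : ℂ) / 2) (fun n hn => ?_)
    (VV_hodge hd hNH hv))
  have h1 : ((2 * n : ℤ) : ℂ) = ((a : ℤ) : ℂ) := by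
    push_cast
    rw [hn]
    ring
  have h2 : 2 * n = (a : ℤ) := Int.cast_injective h1
  exact ha n.toNat (by omega)

end

end Run7.h411.Gen
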