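import Pool.Agent.Run7.h411.Gen8

/-!
# Tate classes on products of hyperkähler varieties with arbitrary varieties
-/

set_option autoImplicit false
set_option linter.unusedSectionVars false
set_option maxHeartbeats 1000000

namespace Run7.h411.Gen

open Matrix Filter Topology Run7.h457.MT
open Run7.h615.MT (mat_ext I2 mm mm_lie EE EE_lie ext_EE ext_EE_block skew_map blockDiagonal'_functional
  galLie_finite klie kunRep_one kunRep_mul ext_EE_D eK eK_mul eK_one eK_D aK CIdx)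
open Run7.h475.MT (t_SPAN t_SPANV t_LOGEX t_LOGFIX map_mulVec_rat map_mulVec_rat'
  eq_zero_of_functionals)

noncomputable section

section vec

variable {ℓ : ℕ} [Fact ℓ.Prime] {ι : Type} [Fintype ι] [DecidableEq ι]

/-- A vector which is fixed by all powers of `b • g` is killed by the logarithm. -/
theorem deriv_vec {g L : Matrix ι ι ℚ_[ℓ]} (hg : IsLog g L) {b v : ℚ_[ℓ]} (hb : TL b v)
    {x : ι → ℚ_[ℓ]} (hX : ∀ n : ℕ, b ^ ℓ ^ n • (g ^ ℓ ^ n *ᵥ x) = x) : L *ᵥ x + v • x = 0 := by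
  have h1 := deriv hg (Run7.h615.MT.log_one (κ := Unit) (ℓ := ℓ)) hb
    (X := replicateCol Unit x) fun n => by
      rw [one_pow, transpose_one, Matrix.mul_one]
      have h2 : g ^ ℓ ^ n * replicateCol Unit x = replicateCol Unit (g ^ ℓ ^ n *ᵥ x) :=
        (replicateCol_mulVec _ _).symm
      rw [h2]
      ext i j
      exact congrFun (hX n) i
  rw [transpose_zero, Matrix.mul_zero, add_zero] at h1
  funext i
  have h3 := congrFun (congrFun h1 i) ()
  exact h3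

end vec

variable {T : Type} [Fintype T] [DecidableEq T] {d : T → ℕ} {B : ∀ t, LLV (d t)}
  {κ : Type} [Fintype κ] [DecidableEq κ] {m : κ → ℕ} {ℓ : ℕ} [Fact ℓ.Prime] {Γ : Type} [Group Γ]
  {G : ∀ t i, Γ →* Matrix (Fin ((B t).n i)) (Fin ((B t).n i)) ℚ_[ℓ]}
  {U : ∀ k, Γ →* Matrix (Fin (m k)) (Fin (m k)) ℚ_[ℓ]} {k0 : κ} {χ : Γ →* ℚ_[ℓ]}
  {N : ∀ t, Submodule ℚ (Fin ((B t).n 2) → ℚ)} {r : T → ℕ}
  {e : ∀ t, Fin (r t) → Fin ((B t).n 2) → ℚ} {c : ∀ t, Fin (r t) → ℚ} (H : Hyp B m G U k0 χ N e c)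
  {S : Type} [Fintype S] [DecidableEq S] {τ : S → T}

include H

/-- Near `1` the Galois group acts on the invariants in degree `2 i` by `χ ^ (-i)`. -/
theorem VV_near : ∃ Δ : Subgroup Γ, Δ.FiniteIndex ∧ ∀ σ ∈ Δ, ∀ (i : ℕ), ∀ v ∈ VV B N τ (2 * i),
    χ σ ^ i • (kunRep B G τ (2 * i) σ *ᵥ cst ℚ_[ℓ] v) = cst ℚ_[ℓ] v := by
  obtain ⟨Δ, hΔ, h⟩ := logs_mem (k0 := k0) H.hd H.hLR H.hχ H.hq H.hU H.hk0 H.hUk0
  refine ⟨Δ, hΔ, fun σ hσ i v hv => ?_⟩
  obtain ⟨L, M, u, hχσ, hnear, hu, hsk, hL, hK, -⟩ := h σ hσ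
  have hA : ∀ t, u • 1 + L t ∈ soPerp (B t).q (N t) ℚ_[ℓ] := by
    refine fun t => ⟨hsk t, fun w hw => ?_⟩
    obtain ⟨Δ', hΔ', h'⟩ := H.hT t w hw
    obtain ⟨k, hk1, -, hk⟩ := Subgroup.exists_pow_mem_of_index_ne_zero (H := Δ')
      Subgroup.FiniteIndex.index_ne_zero σ
    have hk' : (k : ℚ_[ℓ]) ≠ 0 := Nat.cast_ne_zero.2 hk1.ne'
    have h1 := deriv_vec (Run7.h869.MT.IsLog.pow (hL t) k) (hu.pow k) (x := cst ℚ_[ℓ] w)
      fun n => by
        have h6 := h' ((σ ^ k) ^ ℓ ^ n) (Δ'.pow_mem hk _)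
        rw [map_pow, map_pow, map_pow, map_pow] at h6
        exact h6
    have h2 : (k : ℚ_[ℓ]) • ((u • 1 + L t) *ᵥ cst ℚ_[ℓ] w) = 0 := by
      rw [← h1, add_mulVec, smul_mulVec, one_mulVec, smul_mulVec, smul_add, smul_smul, add_comm]
    exact (smul_eq_zero.1 h2).resolve_left hk'
  have h1 := Run7.h869.MT.IsLog.smul (hK S τ (2 * i)) hu i
  have h2 : NearOne 2 (kunRep B G τ (2 * i) σ) :=
    (Run7.h615.MT.t_KUN S (fun s j => (B (τ s)).n j) (fun s => d (τ s)) (2 * i)).2.2 ℓ 2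
      (fun s j => G (τ s) j σ) fun s j hj => hnear (τ s) j hj
  have h3 := Run7.h869.MT.nearOne_smul h2 hχσ i
  rw [← smul_mulVec]
  refine t_LOGFIX ℓ _ _ _ h3 h1 _ ?_
  have h4 : Matrix.blockDiagonal' L =
      (Matrix.blockDiagonal' fun t =>
        (-u) • (1 : Matrix (Fin ((B t).n 2)) (Fin ((B t).n 2)) ℚ_[ℓ])) +
      Matrix.blockDiagonal' fun t => u • 1 + L t := by
    rw [← Matrix.blockDiagonal'_add]
    congr 1
    funext t
    show L t = (-u) • 1 + (u • 1 + L t)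
    rw [neg_smul, neg_add_cancel_left]
  rw [h4, map_add, ext_scal, add_mulVec, add_mulVec, VV_ext (fun s => hA (τ s)) hv, add_zero,
    smul_mulVec, one_mulVec, smul_mulVec, one_mulVec, ← add_smul]
  have h5 : -u * ((2 * i : ℕ) : ℚ_[ℓ]) / 2 + (i : ℚ_[ℓ]) * u = 0 := by
    push_cast
    ring
  rw [h5, zero_smul]

omit H in
/-- Linear independence over `ℚ` implies linear independence over `F`. -/
theorem indep {ι ρ : Type} [Fintype ρ] {F : Type} [Field F] [Algebra ℚ F] {b : ρ → ι → ℚ}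
    (hb : LinearIndependent ℚ b) {c : ρ → F} (h : ∑ r, c r • cst F (b r) = 0) (r : ρ) : c r = 0 := by
  refine eq_zero_of_functionals fun φ => ?_
  have h1 : ∑ r, φ (c r) • b r = 0 := by
    funext i
    have h2 := congrArg φ (congrFun h i)
    rw [Finset.sum_apply, map_sum] at h2
    rw [Finset.sum_apply]
    refine Eq.trans (Finset.sum_congr rfl fun r _ => ?_) (h2.trans (map_zero φ))
    rw [Pi.smul_apply, Pi.smul_apply, smul_eq_mul, smul_eq_mul]
    unfold cst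
    rw [mul_comm (c r), ← Algebra.smul_def, map_smul, smul_eq_mul, mul_comm]
  exact Fintype.linearIndependent_iff.1 hb _ h1 r

variable {W : ∀ t, (B t).Hodge} (hNH : ∀ t, ∀ v ∈ N t, ((W t).V 2).D *ᵥ cst ℂ v = cst ℂ v)

/-- The products `v ⊗ w`, `v` a rational Hodge and Tate class of degree `a` on the product of the
`X_(τ s)`, `w` a Tate class of the representation `h` with the twist `j - a / 2`. -/
def gensH (W : ∀ t, (B t).Hodge) (G : ∀ t i, Γ →* Matrix (Fin ((B t).n i)) (Fin ((B t).n i)) ℚ_[ℓ])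
    (χ : Γ →* ℚ_[ℓ]) (τ : S → T) (a : ℕ) {J : Type} [Fintype J] (h : Γ → Matrix J J ℚ_[ℓ]) (j : ℤ) :
    Set (Matrix (KI B τ a) J ℚ_[ℓ]) :=
  {Y | ∃ (i : ℕ) (v : KI B τ a → ℚ) (w : J → ℚ_[ℓ]), a = 2 * i ∧
    dkun (n := fun s j => (B (τ s)).n j) (fun s => d (τ s)) a (fun s j => ((W (τ s)).V j).D) *ᵥ
      cst ℂ v = (i : ℂ) • cst ℂ v ∧
    (∃ Δ : Subgroup Γ, Δ.FiniteIndex ∧ ∀ σ ∈ Δ,
      χ σ ^ i • (kunRep B G τ a σ *ᵥ cst ℚ_[ℓ] v) = cst ℚ_[ℓ] v) ∧
    (∃ Δ : Subgroup Γ, Δ.FiniteIndex ∧ ∀ σ ∈ Δ, χ σ ^ (j - i) • (h σ *ᵥ w) = w) ∧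
    Y = vecMulVec (cst ℚ_[ℓ] v) w}

/-- The products `v ⊗ w`, `v` a rational Hodge and Tate class of degree `a` on the product of the
`X_(τ s)`, `w` a Tate class. -/
def gens (W : ∀ t, (B t).Hodge) (G : ∀ t i, Γ →* Matrix (Fin ((B t).n i)) (Fin ((B t).n i)) ℚ_[ℓ])
    (U : ∀ k, Γ →* Matrix (Fin (m k)) (Fin (m k)) ℚ_[ℓ]) (χ : Γ →* ℚ_[ℓ]) (τ : S → T) (a : ℕ)
    {S' : Type} [Fintype S'] [DecidableEq S'] (τ' : S' → κ) (j : ℤ) :
    Set (Matrix (KI B τ a) (TI m τ') ℚ_[ℓ]) :=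
  gensH W G χ τ a (tens m U τ') j

omit H in
/-- The columns of a Tate class are combinations of invariants. -/
theorem tate_cols_mem {a : ℕ} {S' : Type} [Fintype S'] [DecidableEq S'] {τ' : S' → κ} {j : ℤ}
    (hk : ∀ s, ∀ x ∈ soPerp (B (τ s)).q (N (τ s)) ℚ_[ℓ],
      ((Pi.single (τ s) x : ∀ t, Matrix (Fin ((B t).n 2)) (Fin ((B t).n 2)) ℚ_[ℓ]),
        (0 : ∀ k, Matrix (Fin (m k)) (Fin (m k)) ℚ_[ℓ])) ∈ hh B m G U k0 χ)
    {X : Matrix (KI B τ a) (TI m τ') ℚ_[ℓ]} (hX : IsTate B m G U χ τ a τ' j X) (l : TI m τ') :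
    (fun k => X k l) ∈ vecSpan ℚ_[ℓ] (VV B N τ a : Set (KI B τ a → ℚ)) := by
  classical
  -- the columns are killed by the Lie algebras
  have h1 : ∀ A : ∀ t, Matrix (Fin ((B t).n 2)) (Fin ((B t).n 2)) ℚ_[ℓ],
      (∀ s, A (τ s) ∈ soPerp (B (τ s)).q (N (τ s)) ℚ_[ℓ]) →
      Run7.h457.MT.ext ℚ_[ℓ] (EE B τ a) (Matrix.blockDiagonal' A) * X = 0 := by
    intro A hA
    have e1 : (((∑ t ∈ Finset.univ.image τ, Pi.single t (A t) :
        ∀ t, Matrix (Fin ((B t).n 2)) (Fin ((B t).n 2)) ℚ_[ℓ])),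
        (0 : ∀ k, Matrix (Fin (m k)) (Fin (m k)) ℚ_[ℓ])) ∈ hh B m G U k0 χ := by
      have e2 : (((∑ t ∈ Finset.univ.image τ, Pi.single t (A t) :
          ∀ t, Matrix (Fin ((B t).n 2)) (Fin ((B t).n 2)) ℚ_[ℓ])),
          (0 : ∀ k, Matrix (Fin (m k)) (Fin (m k)) ℚ_[ℓ])) =
          ∑ t ∈ Finset.univ.image τ, ((Pi.single t (A t) :
            ∀ t, Matrix (Fin ((B t).n 2)) (Fin ((B t).n 2)) ℚ_[ℓ]),
            (0 : ∀ k, Matrix (Fin (m k)) (Fin (m k)) ℚ_[ℓ])) := by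
        refine Prod.ext ?_ ?_
        · rw [Prod.fst_sum]
        · rw [Prod.snd_sum]
          simp
      rw [e2]
      refine Submodule.sum_mem _ fun t ht => ?_
      obtain ⟨s, -, rfl⟩ := Finset.mem_image.1 ht
      exact hk s _ (hA s)
    have e3 := e1.2 S τ a S' τ' j X hX
    have e4 := op_zero' (B := B) (m := m) (τ := τ) (a := a) (τ' := τ') (j := j) (k0 := k0) X
    unfold op at e3 e4
    simp only [Prod.fst_zero, Prod.snd_zero, Matrix.blockDiagonal'_zero, map_zero,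
      Matrix.zero_mul, zero_add, Pi.zero_apply, Matrix.trace_zero, mul_zero, zero_smul,
      add_zero] at e3 e4
    rw [e4, add_zero] at e3
    rw [← e3, ext_EE_block, ext_EE_block]
    congr 1
    refine Run7.h615.MT.dkun_congr _ _ fun s j _ => ?_
    congr 1
    rw [Finset.sum_apply, Finset.sum_eq_single (τ s)]
    · rw [Pi.single_eq_same]
    · intro t _ ht
      rw [Pi.single_eq_of_ne ht.symm]
    · intro h
      exact absurd (Finset.mem_image.2 ⟨s, Finset.mem_univ s, rfl⟩) h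
  refine VV_span fun A hA => ?_
  funext k
  exact congrFun (congrFun (h1 A hA) k) l

include hNH in
/-- If all columns of a Tate class are combinations of invariants, it is a combination of products. -/
theorem tate_cols {a : ℕ} {J : Type} [Fintype J] [DecidableEq J] {h : Γ → Matrix J J ℚ_[ℓ]} {j : ℤ}
    {X : Matrix (KI B τ a) J ℚ_[ℓ]}
    (h2 : ∀ l, (fun k => X k l) ∈ vecSpan ℚ_[ℓ] (VV B N τ a : Set (KI B τ a → ℚ)))
    (hX : ∃ Δ : Subgroup Γ, Δ.FiniteIndex ∧ ∀ σ ∈ Δ,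
      χ σ ^ j • (kunRep B G τ a σ * X * (h σ)ᵀ) = X) :
    X ∈ Submodule.span ℚ_[ℓ] (gensH W G χ τ a h j) := by
  classical
  by_cases ha : ∃ i, a = 2 * i
  · obtain ⟨i, rfl⟩ := ha
    -- a basis of the invariants
    set b := Module.finBasis ℚ (VV B N τ (2 * i)) with hb
    have hbi : LinearIndependent ℚ fun r => (b r : KI B τ (2 * i) → ℚ) :=
      b.linearIndependent.map' (VV B N τ (2 * i)).subtype (Submodule.ker_subtype _)
    have h3 : ∀ l, ∃ c : Fin (Module.finrank ℚ (VV B N τ (2 * i))) → ℚ_[ℓ],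
        (fun k => X k l) = ∑ r, c r • cst ℚ_[ℓ] (b r : KI B τ (2 * i) → ℚ) := by
      intro l
      have h4 := h2 l
      unfold vecSpan at h4
      have h5 : Submodule.span ℚ_[ℓ] ((fun (x : KI B τ (2 * i) → ℚ) k => algebraMap ℚ ℚ_[ℓ] (x k)) ''
          (VV B N τ (2 * i) : Set (KI B τ (2 * i) → ℚ))) ≤
          Submodule.span ℚ_[ℓ] (Set.range fun r => cst ℚ_[ℓ] (b r : KI B τ (2 * i) → ℚ)) := by
        rw [Submodule.span_le]
        rintro _ ⟨v, hv, rfl⟩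
        have h6 : v = ∑ r, (b.repr ⟨v, hv⟩ r) • (b r : KI B τ (2 * i) → ℚ) := by
          have h7 := congrArg (VV B N τ (2 * i)).subtype (b.sum_repr ⟨v, hv⟩)
          rw [map_sum] at h7
          exact h7.symm
        have h8 : (fun k => algebraMap ℚ ℚ_[ℓ] (v k)) = cst ℚ_[ℓ] v := rfl
        simp only [SetLike.mem_coe]
        rw [h8, h6, cst_sum]
        refine Submodule.sum_mem _ fun r _ => ?_
        rw [cst_smul]
        exact Submodule.smul_mem _ _ (Submodule.subset_span ⟨r, rfl⟩)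
      obtain ⟨c, hc⟩ := (Submodule.mem_span_range_iff_exists_fun ℚ_[ℓ]).1 (h5 h4)
      exact ⟨c, hc.symm⟩
    choose c hc using h3
    have hXc : X = ∑ r, vecMulVec (cst ℚ_[ℓ] (b r : KI B τ (2 * i) → ℚ)) (fun l => c l r) := by
      ext k l
      rw [Matrix.sum_apply]
      have h4 := congrFun (hc l) k
      rw [Finset.sum_apply] at h4
      refine h4.trans (Finset.sum_congr rfl fun r _ => ?_)
      rw [Pi.smul_apply, smul_eq_mul, vecMulVec_apply, mul_comm]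
    rw [hXc]
    refine Submodule.sum_mem _ fun r _ => Submodule.subset_span ?_
    obtain ⟨Δ, hΔ, hfix⟩ := hX
    obtain ⟨Δ', hΔ', hV⟩ := VV_near H (τ := τ)
    refine ⟨i, b r, fun l => c l r, rfl, ?_, ⟨Δ', hΔ', fun σ hσ => hV σ hσ i _ (b r).2⟩,
      ⟨Δ ⊓ Δ', inferInstance, fun σ hσ => ?_⟩, rfl⟩
    · have h4 := VV_hodge H.hd hNH (b r).2
      rw [h4]
      congr 1
      push_cast
      ring
    · have h4 := hfix σ hσ.1
      have h5 : ∀ r, kunRep B G τ (2 * i) σ *ᵥ cst ℚ_[ℓ] (b r : KI B τ (2 * i) → ℚ) =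
          (χ σ ^ i)⁻¹ • cst ℚ_[ℓ] (b r : KI B τ (2 * i) → ℚ) := by
        intro r
        have h6 := hV σ hσ.2 i _ (b r).2
        rw [eq_inv_smul_iff₀ (pow_ne_zero i (chi_ne χ σ))]
        exact h6
      funext l
      have h7 : ∀ r, (χ σ ^ (j - i) • (h σ *ᵥ fun l => c l r)) l - c l r = 0 := by
        refine indep hbi ?_
        have h8 : ∀ k, X k l = ∑ r, (χ σ ^ (j - i) • (h σ *ᵥ fun l => c l r)) l *
            cst ℚ_[ℓ] (b r : KI B τ (2 * i) → ℚ) k := by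
          intro k
          conv_lhs => rw [← h4]
          rw [hXc, Matrix.mul_sum, Matrix.sum_mul, Finset.smul_sum, Matrix.sum_apply]
          refine Finset.sum_congr rfl fun r _ => ?_
          rw [mul_vecMulVec, vecMulVec_mul, h5, vecMul_transpose, Matrix.smul_apply,
            vecMulVec_apply, Pi.smul_apply, Pi.smul_apply, smul_eq_mul, smul_eq_mul, smul_eq_mul,
            zpow_sub₀ (chi_ne χ σ), zpow_natCast]
          ring
        funext k
        rw [Finset.sum_apply, Pi.zero_apply]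
        have h9 : ∑ r, (((χ σ ^ (j - i) • (h σ *ᵥ fun l => c l r)) l - c l r) •
            cst ℚ_[ℓ] (b r : KI B τ (2 * i) → ℚ)) k = X k l - X k l := by
          nth_rewrite 1 [h8 k]
          have h10 := congrFun (hc l) k
          rw [Finset.sum_apply] at h10
          rw [h10, ← Finset.sum_sub_distrib]
          refine Finset.sum_congr rfl fun r _ => ?_
          rw [Pi.smul_apply, Pi.smul_apply, Pi.smul_apply, smul_eq_mul, smul_eq_mul, smul_eq_mul,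
            sub_mul]
        rw [h9, sub_self]
      exact sub_eq_zero.1 (h7 r)
  · push Not at ha
    have h3 : X = 0 := by
      ext k l
      have h4 := h2 l
      have h5 : (VV B N τ a : Set (KI B τ a → ℚ)) = {0} := by
        ext v
        constructor
        · intro hv
          exact VV_odd H.hd hNH ha hv
        · rintro rfl
          exact Submodule.zero_mem _
      unfold vecSpan at h4
      rw [h5, Set.image_singleton] at h4
      have h6 : (fun i => algebraMap ℚ ℚ_[ℓ] ((0 : KI B τ a → ℚ) i)) = 0 := by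
        funext i
        exact map_zero _
      rw [h6, Submodule.span_singleton_eq_bot.2 rfl] at h4
      exact congrFun ((Submodule.mem_bot ℚ_[ℓ]).1 h4) k
    rw [h3]
    exact Submodule.zero_mem _

include hNH in
theorem tate_span {a : ℕ} {S' : Type} [Fintype S'] [DecidableEq S'] {τ' : S' → κ} {j : ℤ}
    (hk : ∀ s, ∀ x ∈ soPerp (B (τ s)).q (N (τ s)) ℚ_[ℓ],
      ((Pi.single (τ s) x : ∀ t, Matrix (Fin ((B t).n 2)) (Fin ((B t).n 2)) ℚ_[ℓ]),
        (0 : ∀ k, Matrix (Fin (m k)) (Fin (m k)) ℚ_[ℓ])) ∈ hh B m G U k0 χ)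
    {X : Matrix (KI B τ a) (TI m τ') ℚ_[ℓ]} (hX : IsTate B m G U χ τ a τ' j X) :
    X ∈ Submodule.span ℚ_[ℓ] (gens W G U χ τ a τ' j) :=
  tate_cols H hNH (tate_cols_mem hk hX) hX

omit H in
/-- Combinations of products are Tate classes. -/
theorem cols_tate {a : ℕ} {J : Type} [Fintype J] [DecidableEq J] {h : Γ → Matrix J J ℚ_[ℓ]} {j : ℤ}
    {X : Matrix (KI B τ a) J ℚ_[ℓ]} (hX : X ∈ Submodule.span ℚ_[ℓ] (gensH W G χ τ a h j)) :
    ∃ Δ : Subgroup Γ, Δ.FiniteIndex ∧ ∀ σ ∈ Δ,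
      χ σ ^ j • (kunRep B G τ a σ * X * (h σ)ᵀ) = X := by
  induction hX using Submodule.span_induction with
  | mem Y hY =>
    obtain ⟨i, v, w, -, -, ⟨Δ, hΔ, h1⟩, ⟨Δ', hΔ', h2⟩, rfl⟩ := hY
    refine ⟨Δ ⊓ Δ', inferInstance, fun σ hσ => ?_⟩
    have h3 := h1 σ hσ.1
    have h4 := h2 σ hσ.2
    rw [mul_vecMulVec, vecMulVec_mul, vecMul_transpose]
    conv_rhs => rw [← h3, ← h4]
    rw [smul_vecMulVec, vecMulVec_smul, smul_smul]
    congr 1
    rw [← zpow_natCast, ← zpow_add₀ (chi_ne χ σ), add_sub_cancel]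
  | zero =>
    refine ⟨⊤, inferInstance, fun σ _ => ?_⟩
    rw [Matrix.mul_zero, Matrix.zero_mul, smul_zero]
  | add Y Y' _ _ h h' =>
    obtain ⟨Δ, hΔ, h1⟩ := h
    obtain ⟨Δ', hΔ', h2⟩ := h'
    refine ⟨Δ ⊓ Δ', inferInstance, fun σ hσ => ?_⟩
    rw [Matrix.mul_add, Matrix.add_mul, smul_add, h1 σ hσ.1, h2 σ hσ.2]
  | smul c Y _ h =>
    obtain ⟨Δ, hΔ, h1⟩ := h
    refine ⟨Δ, hΔ, fun σ hσ => ?_⟩
    rw [Matrix.mul_smul, Matrix.smul_mul, smul_comm, h1 σ hσ]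

include hNH in
/-- **Main theorem.** -/
theorem main : ∃ Bd : κ → Finset T,
    (∀ k, ∑ t ∈ Bd k, (r t * (r t - 1) / 2) ≤ m k ^ 2) ∧
    ∀ (S : Type) [Fintype S] [DecidableEq S] (τ : S → T), (∀ s k, τ s ∉ Bd k) →
      ∀ (a : ℕ) (S' : Type) [Fintype S'] [DecidableEq S'] (τ' : S' → κ) (j : ℤ)
        (X : Matrix (KI B τ a) (TI m τ') ℚ_[ℓ]),
        IsTate B m G U χ τ a τ' j X ↔ X ∈ Submodule.span ℚ_[ℓ] (gens W G U χ τ a τ' j) := by
  obtain ⟨Bd, h1, h2⟩ := bound H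
  refine ⟨Bd, h1, fun S _ _ τ hτ a S' _ _ τ' j X => ⟨fun hX => ?_, cols_tate⟩⟩
  exact tate_span H hNH (fun s x hx => h2 (τ s) (hτ s) x hx) hX

end

end Run7.h411.Gen
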